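import Pool.Agent.K3h97.NB.Gron

set_option autoImplicit false

open Set Filter Topology MeasureTheory
open scoped NNReal BoundedContinuousFunction

namespace Pool.Agent.K3h97.NB

/-- extension of a function on the half line -/
noncomputable def hh (h : ℝ≥0 →ᵇ ℝ) (s : ℝ) : ℝ := h s.toNNReal

theorem continuous_hh (h : ℝ≥0 →ᵇ ℝ) : Continuous (hh h) :=
  h.continuous.comp continuous_real_toNNReal

theorem abs_hh_le (h : ℝ≥0 →ᵇ ℝ) (s : ℝ) : |hh h s| ≤ ‖h‖ := h.norm_coe_le_norm _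

theorem hh_sub (f g : ℝ≥0 →ᵇ ℝ) (s : ℝ) : hh (f - g) s = hh f s - hh g s := rfl

/-- the function under the integral -/
noncomputable def ph (h : ℝ≥0 →ᵇ ℝ) (p : ℝ) : ℝ := p * hh h (-Real.log p)

theorem continuous_ph (h : ℝ≥0 →ᵇ ℝ) : Continuous (ph h) := by
  rw [continuous_iff_continuousAt]
  intro p
  by_cases hp : p = 0
  · subst hp
    have e : ph h 0 = 0 := by simp [ph]
    rw [ContinuousAt, e]
    refine squeeze_zero_norm (a := fun p : ℝ => |p| * ‖h‖) (fun p => ?_) ?_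
    · unfold ph
      rw [norm_mul, Real.norm_eq_abs, Real.norm_eq_abs]
      exact mul_le_mul_of_nonneg_left (abs_hh_le _ _) (abs_nonneg _)
    · have : Tendsto (fun p : ℝ => |p| * ‖h‖) (𝓝 0) (𝓝 (|0| * ‖h‖)) :=
        (continuous_abs.mul continuous_const).tendsto 0
      simpa using this
  · exact continuousAt_id.mul ((continuous_hh h).continuousAt.comp (Real.continuousAt_log hp).neg)

/-- `V(σ) = ∫_σ^∞ e^{-2s} h(s) ds`, written with `p = e^{-s}` -/
noncomputable def V (h : ℝ≥0 →ᵇ ℝ) (σ : ℝ) : ℝ := ∫ p in (0 : ℝ)..Real.exp (-σ), ph h p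

theorem V_deriv (h : ℝ≥0 →ᵇ ℝ) (σ : ℝ) :
    HasDerivAt (V h) (-(Real.exp (-2 * σ) * hh h σ)) σ := by
  have h1 : HasDerivAt (fun u : ℝ => ∫ p in (0 : ℝ)..u, ph h p) (ph h (Real.exp (-σ)))
      (Real.exp (-σ)) :=
    ((continuous_ph h).integral_hasStrictDerivAt 0 _).hasDerivAt
  have h2 : HasDerivAt (fun σ : ℝ => Real.exp (-σ)) (Real.exp (-σ) * -1) σ :=
    ((hasDerivAt_id σ).neg).exp
  have h3 := h1.comp σ h2
  refine h3.congr_deriv ?_
  unfold ph
  rw [Real.log_exp, neg_neg]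
  have : Real.exp (-2 * σ) = Real.exp (-σ) * Real.exp (-σ) := by
    rw [← Real.exp_add]; congr 1; ring
  rw [this]; ring

theorem V_bound (h : ℝ≥0 →ᵇ ℝ) (σ : ℝ) : |V h σ| ≤ Real.exp (-2 * σ) * ‖h‖ := by
  have h1 := intervalIntegral.norm_integral_le_of_norm_le_const (a := 0) (b := Real.exp (-σ))
    (f := ph h) (C := Real.exp (-σ) * ‖h‖) ?_
  · rw [sub_zero, abs_of_pos (Real.exp_pos _), Real.norm_eq_abs] at h1
    refine h1.trans (le_of_eq ?_)
    have : Real.exp (-2 * σ) = Real.exp (-σ) * Real.exp (-σ) := by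
      rw [← Real.exp_add]; congr 1; ring
    rw [this]; ring
  · intro p hp
    rw [uIoc_of_le (Real.exp_pos _).le] at hp
    unfold ph
    rw [norm_mul, Real.norm_eq_abs, Real.norm_eq_abs, abs_of_pos hp.1]
    exact mul_le_mul hp.2 (abs_hh_le _ _) (abs_nonneg _) (Real.exp_pos _).le

theorem V_sub (f g : ℝ≥0 →ᵇ ℝ) (σ : ℝ) : V (f - g) σ = V f σ - V g σ := by
  unfold V
  rw [← intervalIntegral.integral_sub ((continuous_ph f).intervalIntegrable _ _)
    ((continuous_ph g).intervalIntegrable _ _)]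
  refine intervalIntegral.integral_congr fun p _ => ?_
  simp only [ph, hh_sub]
  ring

/-- the forward Duhamel integral -/
noncomputable def Wf (m : ℝ) (h : ℝ≥0 →ᵇ ℝ) (σ : ℝ) : ℝ :=
  Real.exp (-m * σ) * ∫ s in (0 : ℝ)..σ, Real.exp (m * s) * hh h s

theorem cont_aux (m : ℝ) (h : ℝ≥0 →ᵇ ℝ) : Continuous fun s => Real.exp (m * s) * hh h s :=
  (by fun_prop : Continuous fun s => Real.exp (m * s)).mul (continuous_hh h)

theorem Wf_deriv (m : ℝ) (h : ℝ≥0 →ᵇ ℝ) (σ : ℝ) :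
    HasDerivAt (Wf m h) (-m * Wf m h σ + hh h σ) σ := by
  have h1 : HasDerivAt (fun u : ℝ => ∫ s in (0 : ℝ)..u, Real.exp (m * s) * hh h s)
      (Real.exp (m * σ) * hh h σ) σ :=
    ((cont_aux m h).integral_hasStrictDerivAt 0 _).hasDerivAt
  have h2 : HasDerivAt (fun σ : ℝ => Real.exp (-m * σ)) (Real.exp (-m * σ) * (-m * 1)) σ :=
    ((hasDerivAt_id σ).const_mul (-m)).exp
  have h3 := h2.mul h1
  refine h3.congr_deriv ?_
  have : Real.exp (-m * σ) * Real.exp (m * σ) = 1 := by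
    rw [← Real.exp_add]; simp
  unfold Wf
  linear_combination (hh h σ) * this

theorem Wf_bound {m : ℝ} (hm : 1 ≤ m) (h : ℝ≥0 →ᵇ ℝ) {σ : ℝ} (hσ : 0 ≤ σ) :
    |Wf m h σ| ≤ ‖h‖ := by
  have h1 : ‖∫ s in (0 : ℝ)..σ, Real.exp (m * s) * hh h s‖ ≤
      ∫ s in (0 : ℝ)..σ, Real.exp (m * s) * ‖h‖ := by
    refine intervalIntegral.norm_integral_le_of_norm_le hσ ?_ ?_
    · refine Eventually.of_forall fun s _ => ?_
      rw [norm_mul, Real.norm_eq_abs, Real.norm_eq_abs, abs_of_pos (Real.exp_pos _)]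
      exact mul_le_mul_of_nonneg_left (abs_hh_le _ _) (Real.exp_pos _).le
    · exact Continuous.intervalIntegrable (by fun_prop) _ _
  have h2 : ∫ s in (0 : ℝ)..σ, Real.exp (m * s) * ‖h‖ =
      (Real.exp (m * σ) / m - 1 / m) * ‖h‖ := by
    rw [intervalIntegral.integral_mul_const]
    congr 1
    have : ∀ s ∈ uIcc 0 σ, HasDerivAt (fun s => Real.exp (m * s) / m) (Real.exp (m * s)) s := by
      intro s _
      have := (((hasDerivAt_id s).const_mul m).exp).div_const m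
      refine this.congr_deriv ?_
      simp only [id, mul_one]
      field_simp
    rw [intervalIntegral.integral_eq_sub_of_hasDerivAt this
      (Continuous.intervalIntegrable (by fun_prop) _ _)]
    simp
  unfold Wf
  rw [abs_mul, abs_of_pos (Real.exp_pos _)]
  rw [Real.norm_eq_abs] at h1
  have h3 : Real.exp (-m * σ) * ((Real.exp (m * σ) / m - 1 / m) * ‖h‖) ≤ ‖h‖ := by
    have e : Real.exp (-m * σ) * Real.exp (m * σ) = 1 := by
      rw [← Real.exp_add]; simp
    have h4 : Real.exp (-m * σ) * ((Real.exp (m * σ) / m - 1 / m) * ‖h‖) =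
      (1 - Real.exp (-m * σ)) / m * ‖h‖ := by
      have h5 : Real.exp (-m * σ) * ((Real.exp (m * σ) / m - 1 / m) * ‖h‖) =
        (Real.exp (-m * σ) * Real.exp (m * σ) - Real.exp (-m * σ)) / m * ‖h‖ := by ring
      rw [h5, e]
    rw [h4]
    refine mul_le_of_le_one_left (norm_nonneg _) ?_
    rw [div_le_one (by linarith)]
    have := Real.exp_pos (-m * σ)
    linarith
  refine le_trans (mul_le_mul_of_nonneg_left (h1.trans_eq h2) (Real.exp_pos _).le) h3

theorem Wf_sub (m : ℝ) (f g : ℝ≥0 →ᵇ ℝ) (σ : ℝ) : Wf m (f - g) σ = Wf m f σ - Wf m g σ := by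
  unfold Wf
  rw [← mul_sub, ← intervalIntegral.integral_sub ((cont_aux m f).intervalIntegrable _ _)
    ((cont_aux m g).intervalIntegrable _ _)]
  congr 1
  refine intervalIntegral.integral_congr fun p _ => ?_
  simp only [hh_sub]
  ring

/-- the value of the operator `L_k` -/
noncomputable def Lv (k : ℤ) (h : ℝ≥0 →ᵇ ℝ) (σ : ℝ) : ℝ :=
  if k = 0 then -(Real.exp (2 * σ) * V h σ) else
  if k = 1 ∨ k = -1 then -V h σ else Wf ((k : ℝ) ^ 2 - |(k : ℝ)|) h σ

theorem k_sq {k : ℤ} (h0 : k ≠ 0) (h1 : ¬ (k = 1 ∨ k = -1)) : (1 : ℝ) ≤ (k : ℝ) ^ 2 - |(k : ℝ)| := by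
  have h2 : (2 : ℤ) ≤ |k| := by
    rcases abs_cases k with h | h <;> omega
  have h3 : (2 : ℝ) ≤ |(k : ℝ)| := by exact_mod_cast h2
  have h4 : (k : ℝ) ^ 2 = |(k : ℝ)| ^ 2 := (sq_abs _).symm
  rw [h4]
  nlinarith

theorem Lv_bound (k : ℤ) (h : ℝ≥0 →ᵇ ℝ) {σ : ℝ} (hσ : 0 ≤ σ) : |Lv k h σ| ≤ ‖h‖ := by
  unfold Lv
  split_ifs with h0 h1
  · rw [abs_neg, abs_mul, abs_of_pos (Real.exp_pos _)]
    refine (mul_le_mul_of_nonneg_left (V_bound h σ) (Real.exp_pos _).le).trans (le_of_eq ?_)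
    rw [← mul_assoc, ← Real.exp_add]
    simp
  · rw [abs_neg]
    refine (V_bound h σ).trans (mul_le_of_le_one_left (norm_nonneg _) ?_)
    rw [Real.exp_le_one_iff]; linarith
  · exact Wf_bound (k_sq h0 h1) h hσ

theorem Lv_cont (k : ℤ) (h : ℝ≥0 →ᵇ ℝ) : Continuous (Lv k h) := by
  have hV : Continuous (V h) := continuous_iff_continuousAt.2 fun σ => (V_deriv h σ).continuousAt
  unfold Lv
  split_ifs with h0 h1
  · exact ((by fun_prop : Continuous fun σ : ℝ => Real.exp (2 * σ)).mul hV).neg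
  · exact hV.neg
  · exact continuous_iff_continuousAt.2 fun σ => (Wf_deriv _ h σ).continuousAt

theorem Lv_sub (k : ℤ) (f g : ℝ≥0 →ᵇ ℝ) (σ : ℝ) : Lv k (f - g) σ = Lv k f σ - Lv k g σ := by
  unfold Lv
  split_ifs
  · rw [V_sub]; ring
  · rw [V_sub]; ring
  · exact Wf_sub _ _ _ _

/-- the operator `L_k` -/
noncomputable def Lop (k : ℤ) (h : ℝ≥0 →ᵇ ℝ) : ℝ≥0 →ᵇ ℝ :=
  BoundedContinuousFunction.ofNormedAddCommGroup (fun σ : ℝ≥0 => Lv k h (σ : ℝ))
    ((Lv_cont k h).comp NNReal.continuous_coe) ‖h‖ fun σ => Lv_bound k h σ.2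

theorem Lop_apply (k : ℤ) (h : ℝ≥0 →ᵇ ℝ) (σ : ℝ≥0) : Lop k h σ = Lv k h σ := rfl

theorem Lop_norm (k : ℤ) (h : ℝ≥0 →ᵇ ℝ) : ‖Lop k h‖ ≤ ‖h‖ :=
  BoundedContinuousFunction.norm_ofNormedAddCommGroup_le _ (norm_nonneg _) _

theorem Lop_sub (k : ℤ) (f g : ℝ≥0 →ᵇ ℝ) : Lop k f - Lop k g = Lop k (f - g) := by
  ext σ
  rw [BoundedContinuousFunction.sub_apply, Lop_apply, Lop_apply, Lop_apply, Lv_sub]

theorem Lop_zero (k : ℤ) : Lop k 0 = 0 := by
  have := Lop_sub k 0 0
  simpa using this.symm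

theorem Lop_neg_index (k : ℤ) (h : ℝ≥0 →ᵇ ℝ) : Lop (-k) h = Lop k h := by
  ext σ
  rw [Lop_apply, Lop_apply]
  unfold Lv
  have e1 : (-k = 0) ↔ (k = 0) := by omega
  have e2 : (-k = 1 ∨ -k = -1) ↔ (k = 1 ∨ k = -1) := by omega
  simp only [e1, e2]
  push_cast
  simp

/-- the exponents -/
def ka (k : ℤ) : ℤ := if k = 0 then 2 else |k|

/-- the exponents of the source terms -/
def kb (k : ℤ) : ℤ := if k = 0 then 2 else if k = 1 ∨ k = -1 then 3 else |k|

/-- the gain of decay -/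
def gain (l j : ℤ) : ℤ := ka l + ka j - kb (l + j)

theorem gain_nonneg (l j : ℤ) : 0 ≤ gain l j := by
  unfold gain ka kb
  split_ifs <;> rcases abs_cases l with h | h <;> rcases abs_cases j with h' | h' <;>
    rcases abs_cases (l + j) with h'' | h'' <;> omega

theorem ka_neg (k : ℤ) : ka (-k) = ka k := by
  unfold ka; simp

theorem kb_neg (k : ℤ) : kb (-k) = kb k := by
  unfold kb
  have e1 : (-k = 0) ↔ (k = 0) := by omega
  have e2 : (-k = 1 ∨ -k = -1) ↔ (k = 1 ∨ k = -1) := by omega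
  simp only [e1, e2, abs_neg]

theorem gain_neg (l j : ℤ) : gain (-l) (-j) = gain l j := by
  unfold gain
  rw [ka_neg, ka_neg, ← neg_add, kb_neg]

/-- the weights as bounded functions -/
noncomputable def ww (l j : ℤ) : ℝ≥0 →ᵇ ℝ :=
  BoundedContinuousFunction.ofNormedAddCommGroup
    (fun σ : ℝ≥0 => Real.exp (-(gain l j : ℝ) * (σ : ℝ)))
    (by fun_prop) 1 fun σ => by
      rw [Real.norm_of_nonneg (Real.exp_pos _).le, Real.exp_le_one_iff]
      have h1 : (0 : ℝ) ≤ (gain l j : ℝ) := by exact_mod_cast gain_nonneg l j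
      have h2 := σ.2
      nlinarith [mul_nonneg h1 h2]

theorem ww_norm (l j : ℤ) : ‖ww l j‖ ≤ 1 :=
  BoundedContinuousFunction.norm_ofNormedAddCommGroup_le _ zero_le_one _

/-- the inhomogeneous term -/
noncomputable def c0 (k : ℤ) : ℝ≥0 →ᵇ ℝ :=
  if k = 1 ∨ k = -1 then BoundedContinuousFunction.const _ (1 / 16) else 0

theorem c0_bd : Bd c0 (1 / 8) := by
  intro F
  have h1 : ∀ k, ‖c0 k‖ = if k = 1 ∨ k = -1 then (1 / 16 : ℝ) else 0 := by
    intro k
    unfold c0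
    split_ifs
    · rw [BoundedContinuousFunction.norm_const_eq]; norm_num
    · simp
  simp only [h1]
  rw [← Finset.sum_filter]
  have h2 : (F.filter fun k => k = 1 ∨ k = -1) ⊆ ({1, -1} : Finset ℤ) := by
    intro k hk
    simp only [Finset.mem_filter] at hk
    simpa using hk.2
  calc ∑ k ∈ F.filter (fun k => k = 1 ∨ k = -1), (1 / 16 : ℝ)
      ≤ ∑ k ∈ ({1, -1} : Finset ℤ), (1 / 16 : ℝ) :=
        Finset.sum_le_sum_of_subset_of_nonneg h2 fun _ _ _ => by norm_num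
    _ = 1 / 8 := by
        rw [Finset.sum_pair (by norm_num)]; norm_num

/-- existence of the decaying solution -/
theorem exists_g : ∃ g : ℤ → (ℝ≥0 →ᵇ ℝ), Bd g (1 / 4) ∧
    (∀ k, g k = c0 k + Lop k (wconv ww g g k)) ∧ ∀ k, g (-k) = g k := by
  obtain ⟨g, h1, h2, h3⟩ := fix (A := ℝ≥0 →ᵇ ℝ) ww_norm (L := Lop) (β := 1) (M := 1 / 8)
    zero_le_one (by norm_num) Lop_zero
    (fun k x y => by rw [Lop_sub, one_mul]; exact Lop_norm _ _) (by norm_num) c0_bd
    (fun f => ∀ k, f (-k) = f k)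
    (by
      intro k
      unfold c0
      have e2 : (-k = 1 ∨ -k = -1) ↔ (k = 1 ∨ k = -1) := by omega
      simp only [e2])
    (by
      intro f _ hf k
      have e1 : c0 (-k) = c0 k := by
        unfold c0
        have e2 : (-k = 1 ∨ -k = -1) ↔ (k = 1 ∨ k = -1) := by omega
        simp only [e2]
      have e2 : wconv ww f f (-k) = wconv ww f f k := by
        unfold wconv
        rw [← (Equiv.neg ℤ).tsum_eq]
        refine tsum_congr fun l => ?_
        simp only [Equiv.neg_apply]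
        have e3 : ww (-l) (-k - -l) = ww l (k - l) := by
          have : gain (-l) (-k - -l) = gain l (k - l) := by
            have h : -k - -l = -(k - l) := by ring
            rw [h, gain_neg]
          unfold ww
          simp only [this]
        have e4 : f (-k - -l) = f (k - l) := by
          have h : -k - -l = -(k - l) := by ring
          rw [h, hf]
        rw [e3, e4, hf]
      simp only [e1, e2, Lop_neg_index])
    (by
      intro f g hf hg k
      have := hg (-k)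
      simp only [hf] at this
      exact tendsto_nhds_unique this (hg k))
  exact ⟨g, by norm_num at h1 ⊢; exact h1, h2, h3⟩

end Pool.Agent.K3h97.NB
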