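import Mathlib

set_option autoImplicit false

open Set Filter Topology

namespace Pool.Agent.K3h97.NB

theorem exp_neg_tendsto {l : ℝ} (hl : 0 < l) : Tendsto (fun s : ℝ => Real.exp (-l * s)) atTop (𝓝 0) := by
  have h : Tendsto (fun s : ℝ => l * s) atTop atTop := tendsto_id.const_mul_atTop hl
  have := Real.tendsto_exp_neg_atTop_nhds_zero.comp h
  refine this.congr fun s => ?_
  simp only [Function.comp_apply]
  congr 1; ring

/-- bounded solutions of an unstable linear equation -/
theorem lim_unstable {y h : ℝ → ℝ} {l c B : ℝ} (hl : 0 < l)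
    (hy : ∀ s, 0 < s → HasDerivAt y (l * y s + h s) s) (hB : ∀ s, 0 < s → |y s| ≤ B)
    (hh : Tendsto h atTop (𝓝 c)) : Tendsto y atTop (𝓝 (-c / l)) := by
  rw [Metric.tendsto_atTop]
  intro ε hε
  set δ := ε * l / 2 with hδ
  have hδ0 : 0 < δ := by positivity
  obtain ⟨N, hN⟩ := Metric.tendsto_atTop.1 hh δ hδ0
  set N' := max N 1 with hN'
  have hN1 : 1 ≤ N' := le_max_right _ _
  have hb : ∀ s, N' ≤ s → |h s - c| ≤ δ := fun s hs => by
    have := hN s ((le_max_left _ _).trans hs)
    rw [Real.dist_eq] at this
    exact this.le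
  have key : ∀ d : ℝ, ∀ s, N' ≤ s → HasDerivAt (fun s => Real.exp (-l * s) * (y s + c / l + d / l))
      (Real.exp (-l * s) * (h s - c - d)) s := by
    intro d s hs
    have h1 : HasDerivAt (fun s : ℝ => Real.exp (-l * s)) (Real.exp (-l * s) * (-l * 1)) s :=
      ((hasDerivAt_id s).const_mul (-l)).exp
    have h2 := h1.mul (((hy s (by linarith)).add_const (c / l)).add_const (d / l))
    refine h2.congr_deriv ?_
    field_simp
    ring
  have lim0 : ∀ d : ℝ, Tendsto (fun s => Real.exp (-l * s) * (y s + c / l + d / l)) atTop (𝓝 0) := by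
    intro d
    have h1 := (exp_neg_tendsto hl).mul_const (B + |c / l| + |d / l|)
    rw [zero_mul] at h1
    refine squeeze_zero_norm' ?_ h1
    filter_upwards [eventually_gt_atTop (0 : ℝ)] with s hs
    rw [norm_mul, Real.norm_of_nonneg (Real.exp_pos _).le, Real.norm_eq_abs]
    refine mul_le_mul_of_nonneg_left ?_ (Real.exp_pos _).le
    have := hB s hs
    calc |y s + c / l + d / l| ≤ |y s + c / l| + |d / l| := abs_add_le _ _
      _ ≤ |y s| + |c / l| + |d / l| := by gcongr; exact abs_add_le _ _
      _ ≤ _ := by gcongr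
  have hanti : AntitoneOn (fun s => Real.exp (-l * s) * (y s + c / l + δ / l)) (Ici N') := by
    refine antitoneOn_of_deriv_nonpos (convex_Ici _)
      (fun s hs => (key δ s hs).continuousAt.continuousWithinAt)
      (fun s hs => (key δ s (interior_subset hs)).differentiableAt.differentiableWithinAt) ?_
    intro s hs
    rw [(key δ s (interior_subset hs)).deriv]
    have := abs_le.1 (hb s (interior_subset hs))
    exact mul_nonpos_of_nonneg_of_nonpos (Real.exp_pos _).le (by linarith [this.2])
  have hmono : MonotoneOn (fun s => Real.exp (-l * s) * (y s + c / l + (-δ) / l)) (Ici N') := by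
    refine monotoneOn_of_deriv_nonneg (convex_Ici _)
      (fun s hs => (key (-δ) s hs).continuousAt.continuousWithinAt)
      (fun s hs => (key (-δ) s (interior_subset hs)).differentiableAt.differentiableWithinAt) ?_
    intro s hs
    rw [(key (-δ) s (interior_subset hs)).deriv]
    have := abs_le.1 (hb s (interior_subset hs))
    exact mul_nonneg (Real.exp_pos _).le (by linarith [this.1])
  refine ⟨N', fun s hs => ?_⟩
  have h1 : 0 ≤ Real.exp (-l * s) * (y s + c / l + δ / l) := by
    refine le_of_tendsto (lim0 δ) ?_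
    filter_upwards [eventually_ge_atTop s] with t ht
    exact hanti hs (hs.trans ht) ht
  have h2 : Real.exp (-l * s) * (y s + c / l + (-δ) / l) ≤ 0 := by
    refine ge_of_tendsto (lim0 (-δ)) ?_
    filter_upwards [eventually_ge_atTop s] with t ht
    exact hmono hs (hs.trans ht) ht
  have h3 : 0 ≤ y s + c / l + δ / l := by
    by_contra hc
    have := mul_neg_of_pos_of_neg (Real.exp_pos (-l * s)) (not_le.1 hc)
    linarith
  have h4 : y s + c / l + (-δ) / l ≤ 0 := by
    by_contra hc
    have := mul_pos (Real.exp_pos (-l * s)) (not_le.1 hc)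
    linarith
  have h5 : δ / l = ε / 2 := by rw [hδ]; field_simp
  rw [neg_div] at h4
  rw [Real.dist_eq, abs_lt, neg_div]
  constructor <;> linarith

/-- solutions of a stable linear equation -/
theorem lim_stable {y h : ℝ → ℝ} {l c : ℝ} (hl : 0 < l)
    (hy : ∀ s, 0 < s → HasDerivAt y (-l * y s + h s) s)
    (hh : Tendsto h atTop (𝓝 c)) : Tendsto y atTop (𝓝 (c / l)) := by
  rw [Metric.tendsto_atTop]
  intro ε hε
  set δ := ε * l / 2 with hδ
  have hδ0 : 0 < δ := by positivity
  obtain ⟨N, hN⟩ := Metric.tendsto_atTop.1 hh δ hδ0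
  set N' := max N 1 with hN'
  have hN1 : 1 ≤ N' := le_max_right _ _
  have hb : ∀ s, N' ≤ s → |h s - c| ≤ δ := fun s hs => by
    have := hN s ((le_max_left _ _).trans hs)
    rw [Real.dist_eq] at this
    exact this.le
  have key : ∀ d : ℝ, ∀ s, N' ≤ s → HasDerivAt (fun s => Real.exp (l * s) * (y s - c / l - d / l))
      (Real.exp (l * s) * (h s - c - d)) s := by
    intro d s hs
    have h1 : HasDerivAt (fun s : ℝ => Real.exp (l * s)) (Real.exp (l * s) * (l * 1)) s :=
      ((hasDerivAt_id s).const_mul l).exp
    have h2 := h1.mul (((hy s (by linarith)).sub_const (c / l)).sub_const (d / l))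
    refine h2.congr_deriv ?_
    field_simp
    ring
  have hanti : AntitoneOn (fun s => Real.exp (l * s) * (y s - c / l - δ / l)) (Ici N') := by
    refine antitoneOn_of_deriv_nonpos (convex_Ici _)
      (fun s hs => (key δ s hs).continuousAt.continuousWithinAt)
      (fun s hs => (key δ s (interior_subset hs)).differentiableAt.differentiableWithinAt) ?_
    intro s hs
    rw [(key δ s (interior_subset hs)).deriv]
    have := abs_le.1 (hb s (interior_subset hs))
    exact mul_nonpos_of_nonneg_of_nonpos (Real.exp_pos _).le (by linarith [this.2])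
  have hmono : MonotoneOn (fun s => Real.exp (l * s) * (y s - c / l - (-δ) / l)) (Ici N') := by
    refine monotoneOn_of_deriv_nonneg (convex_Ici _)
      (fun s hs => (key (-δ) s hs).continuousAt.continuousWithinAt)
      (fun s hs => (key (-δ) s (interior_subset hs)).differentiableAt.differentiableWithinAt) ?_
    intro s hs
    rw [(key (-δ) s (interior_subset hs)).deriv]
    have := abs_le.1 (hb s (interior_subset hs))
    exact mul_nonneg (Real.exp_pos _).le (by linarith [this.1])
  set C := |Real.exp (l * N') * (y N' - c / l - δ / l)| +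
    |Real.exp (l * N') * (y N' - c / l - (-δ) / l)| with hC
  have hCl : Tendsto (fun s => Real.exp (-l * s) * C) atTop (𝓝 0) := by
    simpa using (exp_neg_tendsto hl).mul_const C
  have hev := hCl.eventually (gt_mem_nhds (show (0 : ℝ) < ε / 2 by positivity))
  obtain ⟨N₂, hN₂⟩ := eventually_atTop.1 hev
  refine ⟨max N' N₂, fun s hs => ?_⟩
  have hs1 : N' ≤ s := (le_max_left _ _).trans hs
  have hs2 := hN₂ s ((le_max_right _ _).trans hs)
  have h1 := hanti (a := N') (mem_Ici.2 (le_refl N')) hs1 hs1
  have h2 := hmono (a := N') (mem_Ici.2 (le_refl N')) hs1 hs1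
  simp only at h1 h2
  have e : Real.exp (-l * s) * Real.exp (l * s) = 1 := by rw [← Real.exp_add]; simp
  have hpos := Real.exp_pos (-l * s)
  have h3 : y s - c / l - δ / l ≤ Real.exp (-l * s) * C := by
    have h5 : Real.exp (l * s) * (y s - c / l - δ / l) ≤ C :=
      h1.trans ((le_abs_self _).trans (by rw [hC]; linarith [abs_nonneg (Real.exp (l * N') *
        (y N' - c / l - (-δ) / l))]))
    have h6 := mul_le_mul_of_nonneg_left h5 hpos.le
    rw [← mul_assoc, e, one_mul] at h6
    exact h6
  have h4 : -(Real.exp (-l * s) * C) ≤ y s - c / l - (-δ) / l := by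
    have h5 : -C ≤ Real.exp (l * s) * (y s - c / l - (-δ) / l) :=
      le_trans (by rw [hC]; linarith [abs_nonneg (Real.exp (l * N') *
        (y N' - c / l - δ / l)), neg_abs_le (Real.exp (l * N') * (y N' - c / l - (-δ) / l))]) h2
    have h6 := mul_le_mul_of_nonneg_left h5 hpos.le
    rw [← mul_assoc, e, one_mul] at h6
    linarith
  have h5 : δ / l = ε / 2 := by rw [hδ]; field_simp
  rw [neg_div] at h4
  rw [Real.dist_eq, abs_lt]
  constructor <;> linarith

/-- a function whose derivative converges grows linearly -/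
theorem lim_linear {T R : ℝ → ℝ} {c : ℝ} (hT : ∀ s, 0 < s → HasDerivAt T (R s) s)
    (hR : Tendsto R atTop (𝓝 c)) : Tendsto (fun s => T s / s) atTop (𝓝 c) := by
  rw [Metric.tendsto_atTop]
  intro ε hε
  obtain ⟨N, hN⟩ := Metric.tendsto_atTop.1 hR (ε / 2) (by positivity)
  set N' := max N 1 with hN'
  have hN1 : 1 ≤ N' := le_max_right _ _
  have hb : ∀ s, N' ≤ s → |R s - c| ≤ ε / 2 := fun s hs => by
    have := hN s ((le_max_left _ _).trans hs)
    rw [Real.dist_eq] at this
    exact this.le
  have key : ∀ d : ℝ, ∀ s, N' ≤ s → HasDerivAt (fun s => T s - (c + d) * s) (R s - c - d) s := by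
    intro d s hs
    have h2 := (hT s (by linarith)).sub ((hasDerivAt_id s).const_mul (c + d))
    refine h2.congr_deriv ?_
    simp; ring
  have hanti : AntitoneOn (fun s => T s - (c + ε / 2) * s) (Ici N') := by
    refine antitoneOn_of_deriv_nonpos (convex_Ici _)
      (fun s hs => (key _ s hs).continuousAt.continuousWithinAt)
      (fun s hs => (key _ s (interior_subset hs)).differentiableAt.differentiableWithinAt) ?_
    intro s hs
    rw [(key _ s (interior_subset hs)).deriv]
    have := abs_le.1 (hb s (interior_subset hs))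
    linarith [this.2]
  have hmono : MonotoneOn (fun s => T s - (c + -(ε / 2)) * s) (Ici N') := by
    refine monotoneOn_of_deriv_nonneg (convex_Ici _)
      (fun s hs => (key _ s hs).continuousAt.continuousWithinAt)
      (fun s hs => (key _ s (interior_subset hs)).differentiableAt.differentiableWithinAt) ?_
    intro s hs
    rw [(key _ s (interior_subset hs)).deriv]
    have := abs_le.1 (hb s (interior_subset hs))
    linarith [this.1]
  set C := |T N' - (c + ε / 2) * N'| + |T N' - (c + -(ε / 2)) * N'| + 1 with hC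
  have hC0 : 0 < C := by positivity
  refine ⟨max N' (4 * C / ε), fun s hs => ?_⟩
  have hs1 : N' ≤ s := (le_max_left _ _).trans hs
  have hs2 : 4 * C / ε ≤ s := (le_max_right _ _).trans hs
  have hs0 : 0 < s := by linarith
  have hs3 : C ≤ ε / 4 * s := by
    rw [div_le_iff₀ hε] at hs2
    linarith
  have h1 := hanti (a := N') (mem_Ici.2 (le_refl N')) hs1 hs1
  have h2 := hmono (a := N') (mem_Ici.2 (le_refl N')) hs1 hs1
  simp only at h1 h2
  have h3 := le_abs_self (T N' - (c + ε / 2) * N')
  have h4 := neg_abs_le (T N' - (c + -(ε / 2)) * N')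
  have h5 := abs_nonneg (T N' - (c + ε / 2) * N')
  have h6 := abs_nonneg (T N' - (c + -(ε / 2)) * N')
  rw [Real.dist_eq, abs_lt]
  constructor
  · have h7 : (c - ε) * s < T s := by nlinarith
    have := (lt_div_iff₀ hs0).2 h7
    linarith
  · have h7 : T s < (c + ε) * s := by nlinarith
    have := (div_lt_iff₀ hs0).2 h7
    linarith

end Pool.Agent.K3h97.NB
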