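import Pool.Agent.K3h97.NB.Dec
import Pool.Agent.K3h97.NB.Lim

set_option autoImplicit false

open Set Filter Topology MeasureTheory
open scoped NNReal BoundedContinuousFunction

namespace Pool.Agent.K3h97.NB

theorem hh_of_nonneg (h : ℝ≥0 →ᵇ ℝ) {s : ℝ} (hs : 0 ≤ s) : hh h s = h (NNReal.mk s hs) := by
  unfold hh
  rw [Real.toNNReal_of_nonneg hs]

/-- the value of the inhomogeneous term -/
noncomputable def cv (k : ℤ) : ℝ := if k = 1 ∨ k = -1 then 1 / 16 else 0

theorem hh_c0 (k : ℤ) (s : ℝ) : hh (c0 k) s = cv k := by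
  unfold hh c0 cv
  split_ifs <;> simp

section
variable {g : ℤ → (ℝ≥0 →ᵇ ℝ)}

theorem G_eq (hg : ∀ k, g k = c0 k + Lop k (wconv ww g g k)) (k : ℤ) {s : ℝ} (hs : 0 ≤ s) :
    hh (g k) s = cv k + Lv k (wconv ww g g k) s := by
  have h1 : hh (g k) s = hh (c0 k) s + hh (Lop k (wconv ww g g k)) s := by
    have := congrArg (fun f => hh f s) (hg k)
    exact this
  rw [h1, hh_c0, hh_of_nonneg _ hs, Lop_apply]
  rfl

theorem Lv_deriv (k : ℤ) (h : ℝ≥0 →ᵇ ℝ) (σ : ℝ) :
    HasDerivAt (fun s => Real.exp (-(ka k : ℝ) * s) * (cv k + Lv k h s))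
      (-((k : ℝ) ^ 2) * (Real.exp (-(ka k : ℝ) * σ) * (cv k + Lv k h σ)) +
        Real.exp (-(kb k : ℝ) * σ) * hh h σ) σ := by
  have hexp : HasDerivAt (fun s : ℝ => Real.exp (-(ka k : ℝ) * s))
      (Real.exp (-(ka k : ℝ) * σ) * (-(ka k : ℝ) * 1)) σ :=
    ((hasDerivAt_id σ).const_mul (-(ka k : ℝ))).exp
  by_cases h0 : k = 0
  · subst h0
    have hL : HasDerivAt (Lv 0 h) (2 * Lv 0 h σ + hh h σ) σ := by
      have e : Lv 0 h = fun σ => -(Real.exp (2 * σ) * V h σ) := by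
        funext s; simp [Lv]
      rw [e]
      have h1 : HasDerivAt (fun s : ℝ => Real.exp (2 * s)) (Real.exp (2 * σ) * (2 * 1)) σ :=
        ((hasDerivAt_id σ).const_mul (2 : ℝ)).exp
      refine ((h1.mul (V_deriv h σ)).neg).congr_deriv ?_
      have : Real.exp (2 * σ) * Real.exp (-2 * σ) = 1 := by rw [← Real.exp_add]; simp
      linear_combination (hh h σ) * this
    refine (hexp.mul (hL.const_add (cv 0))).congr_deriv ?_
    have e1 : (ka 0 : ℝ) = 2 := by simp [ka]
    have e2 : (kb 0 : ℝ) = 2 := by simp [kb]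
    have e3 : cv 0 = 0 := by simp [cv]
    rw [e1, e2, e3]
    push_cast
    ring
  · by_cases h1 : k = 1 ∨ k = -1
    · have hL : HasDerivAt (Lv k h) (Real.exp (-2 * σ) * hh h σ) σ := by
        have e : Lv k h = fun σ => -V h σ := by
          funext s; simp [Lv, h0, h1]
        rw [e]
        exact ((V_deriv h σ).neg).congr_deriv (by ring)
      refine (hexp.mul (hL.const_add (cv k))).congr_deriv ?_
      have e1 : (ka k : ℝ) = 1 := by
        rcases h1 with h1 | h1 <;> subst h1 <;> norm_num [ka]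
      have e2 : (kb k : ℝ) = 3 := by
        rcases h1 with h1 | h1 <;> subst h1 <;> norm_num [kb]
      have e3 : (k : ℝ) ^ 2 = 1 := by
        rcases h1 with h1 | h1 <;> subst h1 <;> norm_num
      rw [e1, e2, e3]
      have : Real.exp (-3 * σ) = Real.exp (-1 * σ) * Real.exp (-2 * σ) := by
        rw [← Real.exp_add]; congr 1; ring
      rw [this]
      ring
    · have hL : HasDerivAt (Lv k h) (-((k : ℝ) ^ 2 - |(k : ℝ)|) * Lv k h σ + hh h σ) σ := by
        have e : Lv k h = Wf ((k : ℝ) ^ 2 - |(k : ℝ)|) h := by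
          funext s; simp [Lv, h0, h1]
        rw [e]
        exact Wf_deriv _ h σ
      refine (hexp.mul (hL.const_add (cv k))).congr_deriv ?_
      have e1 : (ka k : ℝ) = |(k : ℝ)| := by simp [ka, h0]
      have e2 : (kb k : ℝ) = |(k : ℝ)| := by simp [kb, h0, h1]
      have e3 : cv k = 0 := by simp [cv, h1]
      rw [e1, e2, e3]
      ring

theorem hh_wconv (hb : Bd g (1 / 4)) (k : ℤ) {s : ℝ} (hs : 0 ≤ s) :
    hh (wconv ww g g k) s =
      ∑' l, Real.exp (-(gain l (k - l) : ℝ) * s) * hh (g l) s * hh (g (k - l)) s := by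
  rw [hh_of_nonneg _ hs]
  unfold wconv
  have hsum := (wconv_summable ww_norm hb hb k).of_norm
  have h1 := (BoundedContinuousFunction.evalCLM ℝ (NNReal.mk s hs)).map_tsum hsum
  have h2 : (∑' l, ww l (k - l) * g l * g (k - l)) (NNReal.mk s hs) =
      BoundedContinuousFunction.evalCLM ℝ (NNReal.mk s hs)
        (∑' l, ww l (k - l) * g l * g (k - l)) := rfl
  rw [h2, h1]
  refine tsum_congr fun l => ?_
  rw [hh_of_nonneg _ hs, hh_of_nonneg _ hs]
  rfl

theorem term_summable (hb : Bd g (1 / 4)) (k : ℤ) (s : ℝ) :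
    Summable fun l => |hh (g l) s| * |hh (g (k - l)) s| :=
  Summable.of_nonneg_of_le (fun _ => by positivity)
    (fun l => mul_le_mul (abs_hh_le _ _) (abs_hh_le _ _) (abs_nonneg _) (norm_nonneg _))
    (prod_summable hb hb k)

theorem term_tsum (hb : Bd g (1 / 4)) (k : ℤ) :
    ∑' l, ‖g l‖ * ‖g (k - l)‖ ≤ 1 / 16 := by
  have h1 := (prod_summable hb hb k).tsum_le_tsum
    (fun l => mul_le_mul_of_nonneg_left (hb.le (k - l)) (norm_nonneg (g l)))
    (hb.summable.mul_right _)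
  rw [tsum_mul_right] at h1
  have := hb.tsum_le
  nlinarith

/-- splitting off the main terms -/
theorem q_split (hb : Bd g (1 / 4)) (k : ℤ) (S : Finset ℤ) {E : ℤ}
    (hS : ∀ l, l ∉ S → E ≤ gain l (k - l)) {s : ℝ} (hs : 0 ≤ s) :
    |hh (wconv ww g g k) s - ∑ l ∈ S, Real.exp (-(gain l (k - l) : ℝ) * s) *
      hh (g l) s * hh (g (k - l)) s| ≤ Real.exp (-(E : ℝ) * s) * (1 / 16) := by
  classical
  rw [hh_wconv hb k hs]
  set f : ℤ → ℝ := fun l => Real.exp (-(gain l (k - l) : ℝ) * s) * hh (g l) s * hh (g (k - l)) s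
    with hf
  have hgn : ∀ l, (0 : ℝ) ≤ (gain l (k - l) : ℝ) := fun l => by exact_mod_cast gain_nonneg l _
  have hfn : ∀ l, ‖f l‖ ≤ |hh (g l) s| * |hh (g (k - l)) s| := by
    intro l
    simp only [hf, norm_mul, Real.norm_eq_abs, abs_of_pos (Real.exp_pos _)]
    have : Real.exp (-(gain l (k - l) : ℝ) * s) ≤ 1 := by
      rw [Real.exp_le_one_iff]; nlinarith [mul_nonneg (hgn l) hs]
    calc _ ≤ 1 * |hh (g l) s| * |hh (g (k - l)) s| := by gcongr
      _ = _ := by ring
  have hfs : Summable f := Summable.of_norm_bounded (term_summable hb k s) hfn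
  rw [← hfs.sum_add_tsum_compl (s := S), add_sub_cancel_left]
  have h2 : ∀ l : ((S : Set ℤ)ᶜ : Set ℤ), ‖f l‖ ≤
      Real.exp (-(E : ℝ) * s) * (‖g (l : ℤ)‖ * ‖g (k - l)‖) := by
    intro l
    have hl : (l : ℤ) ∉ S := fun h => l.2 (Finset.mem_coe.2 h)
    have hE : (E : ℝ) ≤ (gain l (k - l) : ℝ) := by exact_mod_cast hS l hl
    simp only [hf, norm_mul, Real.norm_eq_abs, abs_of_pos (Real.exp_pos _)]
    have h3 : Real.exp (-(gain l (k - l) : ℝ) * s) ≤ Real.exp (-(E : ℝ) * s) := by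
      apply Real.exp_le_exp.2
      nlinarith
    rw [mul_assoc]
    exact mul_le_mul h3 (mul_le_mul (abs_hh_le _ _) (abs_hh_le _ _) (abs_nonneg _)
      (norm_nonneg _)) (by positivity) (Real.exp_pos _).le
  have hs3 : Summable fun l : ((S : Set ℤ)ᶜ : Set ℤ) =>
      Real.exp (-(E : ℝ) * s) * (‖g (l : ℤ)‖ * ‖g (k - l)‖) :=
    ((prod_summable hb hb k).subtype _).mul_left _
  rw [← Real.norm_eq_abs]
  refine (tsum_of_norm_bounded hs3.hasSum h2).trans ?_
  rw [tsum_mul_left]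
  refine mul_le_mul_of_nonneg_left ?_ (Real.exp_pos _).le
  exact (Summable.tsum_subtype_le (fun l => ‖g l‖ * ‖g (k - l)‖) _ (fun _ => by positivity)
    (prod_summable hb hb k)).trans (term_tsum hb k)

end

end Pool.Agent.K3h97.NB
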