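import Pool.Agent.K3h97.NB.Dec2

set_option autoImplicit false

open Set Filter Topology MeasureTheory
open scoped NNReal BoundedContinuousFunction

namespace Pool.Agent.K3h97.NB

theorem g_sum_bd {α : ℝ → ℝ} {β : ℝ → ℝ} {C c E : ℝ} (hE : 0 < E)
    (h : ∀ s, 0 ≤ s → |α s - β s| ≤ Real.exp (-E * s) * C) (hβ : Tendsto β atTop (𝓝 c)) :
    Tendsto α atTop (𝓝 c) := by
  have h1 : Tendsto (fun s => α s - β s) atTop (𝓝 0) := by
    have h2 := (exp_neg_tendsto hE).mul_const C
    rw [zero_mul] at h2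
    refine squeeze_zero_norm' ?_ h2
    filter_upwards [eventually_ge_atTop (0 : ℝ)] with s hs
    exact h s hs
  have h3 := h1.add hβ
  rw [zero_add] at h3
  exact h3.congr fun s => by ring

theorem decay_limit {g : ℤ → (ℝ≥0 →ᵇ ℝ)} (hb : Bd g (1 / 4))
    (hg : ∀ k, g k = c0 k + Lop k (wconv ww g g k)) (he : ∀ k, g (-k) = g k) :
    Tendsto (fun s => Real.exp (2 * s) * (hh (g 2) s - 1 / 512) / s) atTop
      (𝓝 (1 / 196608)) := by
  have e1 : g (-1) = g 1 := he 1
  set h0 := wconv ww g g 0 with hh0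
  set h1 := wconv ww g g 1 with hh1
  set h2 := wconv ww g g 2 with hh2
  set h3 := wconv ww g g 3 with hh3
  set y : ℝ → ℝ := fun s => -(Real.exp (2 * s) * V h0 s) with hy
  set w : ℝ → ℝ := fun s => -(Real.exp (2 * s) * V h1 s) with hw
  have hexpinv : ∀ s : ℝ, Real.exp (2 * s) * Real.exp (-2 * s) = 1 := fun s => by
    rw [← Real.exp_add]; simp
  have hVd : ∀ (h : ℝ≥0 →ᵇ ℝ) (s : ℝ), HasDerivAt (fun s => -(Real.exp (2 * s) * V h s))
      (2 * -(Real.exp (2 * s) * V h s) + hh h s) s := by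
    intro h s
    have h1 : HasDerivAt (fun s : ℝ => Real.exp (2 * s)) (Real.exp (2 * s) * (2 * 1)) s :=
      ((hasDerivAt_id s).const_mul (2 : ℝ)).exp
    refine ((h1.mul (V_deriv h s)).neg).congr_deriv ?_
    linear_combination (hh h s) * hexpinv s
  have hVb : ∀ (h : ℝ≥0 →ᵇ ℝ) (s : ℝ), |-(Real.exp (2 * s) * V h s)| ≤ ‖h‖ := by
    intro h s
    rw [abs_neg, abs_mul, abs_of_pos (Real.exp_pos _)]
    refine (mul_le_mul_of_nonneg_left (V_bound h s) (Real.exp_pos _).le).trans (le_of_eq ?_)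
    rw [← mul_assoc, hexpinv, one_mul]
  have G0 : ∀ s, 0 ≤ s → hh (g 0) s = y s := by
    intro s hs
    rw [G_eq hg 0 hs]
    simp [cv, Lv, hy, hh0]
  have G1 : ∀ s, 0 ≤ s → hh (g 1) s = 1 / 16 + Real.exp (-2 * s) * w s := by
    intro s hs
    rw [G_eq hg 1 hs]
    have : Lv 1 (wconv ww g g 1) s = -V h1 s := by simp [Lv, hh1]
    rw [this]
    have hc : cv 1 = 1 / 16 := by simp [cv]
    rw [hc, hw]
    linear_combination (V h1 s) * hexpinv s
  have G2 : ∀ s, 0 ≤ s → hh (g 2) s = Wf 2 h2 s := by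
    intro s hs
    rw [G_eq hg 2 hs]
    have : Lv 2 (wconv ww g g 2) s = Wf ((2 : ℝ) ^ 2 - |(2 : ℝ)|) h2 s := by simp [Lv, hh2]
    rw [this]
    have hc : cv 2 = 0 := by norm_num [cv]
    rw [hc, zero_add]
    norm_num
  have G3 : ∀ s, 0 ≤ s → hh (g 3) s = Wf 6 h3 s := by
    intro s hs
    rw [G_eq hg 3 hs]
    have : Lv 3 (wconv ww g g 3) s = Wf ((3 : ℝ) ^ 2 - |(3 : ℝ)|) h3 s := by simp [Lv, hh3]
    rw [this]
    have hc : cv 3 = 0 := by norm_num [cv]
    rw [hc, zero_add]
    norm_num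
  have lG1 : Tendsto (fun s => hh (g 1) s) atTop (𝓝 (1 / 16)) := by
    refine g_sum_bd (β := fun _ => 1 / 16) (C := ‖h1‖) (E := 2) (by norm_num) ?_
      tendsto_const_nhds
    intro s hs
    rw [G1 s hs, add_sub_cancel_left, abs_mul, abs_of_pos (Real.exp_pos _)]
    exact mul_le_mul_of_nonneg_left (hVb h1 s) (Real.exp_pos _).le
  -- the source terms
  have q0 : ∀ s, 0 ≤ s → |hh h0 s - 2 * hh (g 1) s ^ 2| ≤ Real.exp (-2 * s) * (1 / 16) := by
    intro s hs
    have := q_split hb 0 {1, -1} (E := 2) (by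
      intro l hl
      simp only [Finset.mem_insert, Finset.mem_singleton, not_or] at hl
      unfold gain ka kb
      rcases abs_cases l with h | h <;> rcases abs_cases (0 - l) with h' | h' <;>
        split_ifs <;> omega) hs
    rw [Finset.sum_pair (by norm_num)] at this
    have g1 : gain 1 (0 - 1) = 0 := by norm_num [gain, ka, kb]
    have g2 : gain (-1) (0 - -1) = 0 := by norm_num [gain, ka, kb]
    rw [g1, g2] at this
    have i1 : (0 - 1 : ℤ) = -1 := by norm_num
    have i2 : (0 - -1 : ℤ) = 1 := by norm_num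
    rw [i1, i2, e1] at this
    simp only [Int.cast_zero, neg_zero, zero_mul, Real.exp_zero, one_mul, Int.cast_ofNat] at this
    refine le_trans (le_of_eq ?_) this
    congr 1; ring
  have q1 : ∀ s, 0 ≤ s → |hh h1 s - (2 * hh (g 0) s * hh (g 1) s + 2 * hh (g 2) s * hh (g 1) s)| ≤
      Real.exp (-2 * s) * (1 / 16) := by
    intro s hs
    have := q_split hb 1 {0, 1, 2, -1} (E := 2) (by
      intro l hl
      simp only [Finset.mem_insert, Finset.mem_singleton, not_or] at hl
      unfold gain ka kb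
      rcases abs_cases l with h | h <;> rcases abs_cases (1 - l) with h' | h' <;>
        split_ifs <;> omega) hs
    rw [Finset.sum_insert (by decide), Finset.sum_insert (by decide),
      Finset.sum_pair (by norm_num)] at this
    have g1 : gain 0 (1 - 0) = 0 := by norm_num [gain, ka, kb]
    have g2 : gain 1 (1 - 1) = 0 := by norm_num [gain, ka, kb]
    have g3 : gain 2 (1 - 2) = 0 := by norm_num [gain, ka, kb]
    have g4 : gain (-1) (1 - -1) = 0 := by norm_num [gain, ka, kb]
    rw [g1, g2, g3, g4] at this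
    have i1 : (1 - 0 : ℤ) = 1 := by norm_num
    have i2 : (1 - 1 : ℤ) = 0 := by norm_num
    have i3 : (1 - 2 : ℤ) = -1 := by norm_num
    have i4 : (1 - -1 : ℤ) = 2 := by norm_num
    rw [i1, i2, i3, i4, e1] at this
    simp only [Int.cast_zero, neg_zero, zero_mul, Real.exp_zero, one_mul, Int.cast_ofNat] at this
    refine le_trans (le_of_eq ?_) this
    congr 1; ring
  have q2 : ∀ s, 0 ≤ s → |hh h2 s - (hh (g 1) s ^ 2 + Real.exp (-2 * s) *
      (2 * hh (g 0) s * hh (g 2) s + 2 * hh (g 3) s * hh (g 1) s))| ≤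
      Real.exp (-4 * s) * (1 / 16) := by
    intro s hs
    have := q_split hb 2 {1, 0, 2, 3, -1} (E := 4) (by
      intro l hl
      simp only [Finset.mem_insert, Finset.mem_singleton, not_or] at hl
      unfold gain ka kb
      rcases abs_cases l with h | h <;> rcases abs_cases (2 - l) with h' | h' <;>
        rcases abs_cases (l + (2 - l)) with h'' | h'' <;>
        split_ifs <;> omega) hs
    rw [Finset.sum_insert (by decide), Finset.sum_insert (by decide),
      Finset.sum_insert (by decide), Finset.sum_pair (by norm_num)] at this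
    have g1 : gain 1 (2 - 1) = 0 := by norm_num [gain, ka, kb]
    have g2 : gain 0 (2 - 0) = 2 := by norm_num [gain, ka, kb]
    have g3 : gain 2 (2 - 2) = 2 := by norm_num [gain, ka, kb]
    have g4 : gain 3 (2 - 3) = 2 := by norm_num [gain, ka, kb]
    have g5 : gain (-1) (2 - -1) = 2 := by norm_num [gain, ka, kb]
    rw [g1, g2, g3, g4, g5] at this
    have i1 : (2 - 1 : ℤ) = 1 := by norm_num
    have i2 : (2 - 0 : ℤ) = 2 := by norm_num
    have i3 : (2 - 2 : ℤ) = 0 := by norm_num
    have i4 : (2 - 3 : ℤ) = -1 := by norm_num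
    have i5 : (2 - -1 : ℤ) = 3 := by norm_num
    rw [i1, i2, i3, i4, i5, e1] at this
    simp only [Int.cast_zero, neg_zero, zero_mul, Real.exp_zero, one_mul, Int.cast_ofNat] at this
    refine le_trans (le_of_eq ?_) this
    congr 1; ring
  have q3 : ∀ s, 0 ≤ s → |hh h3 s - 2 * hh (g 1) s * hh (g 2) s| ≤
      Real.exp (-2 * s) * (1 / 16) := by
    intro s hs
    have := q_split hb 3 {1, 2} (E := 2) (by
      intro l hl
      simp only [Finset.mem_insert, Finset.mem_singleton, not_or] at hl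
      unfold gain ka kb
      rcases abs_cases l with h | h <;> rcases abs_cases (3 - l) with h' | h' <;>
        rcases abs_cases (l + (3 - l)) with h'' | h'' <;>
        split_ifs <;> omega) hs
    rw [Finset.sum_pair (by norm_num)] at this
    have g1 : gain 1 (3 - 1) = 0 := by norm_num [gain, ka, kb]
    have g2 : gain 2 (3 - 2) = 0 := by norm_num [gain, ka, kb]
    rw [g1, g2] at this
    have i1 : (3 - 1 : ℤ) = 2 := by norm_num
    have i2 : (3 - 2 : ℤ) = 1 := by norm_num
    rw [i1, i2] at this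
    simp only [Int.cast_zero, neg_zero, zero_mul, Real.exp_zero, one_mul, Int.cast_ofNat] at this
    refine le_trans (le_of_eq ?_) this
    congr 1; ring
  -- limits
  have lq0 : Tendsto (fun s => hh h0 s) atTop (𝓝 (1 / 128)) := by
    refine g_sum_bd (E := 2) (by norm_num) q0 ?_
    have := (lG1.pow 2).const_mul 2
    norm_num at this ⊢
    exact this
  have ly : Tendsto y atTop (𝓝 (-(1 / 256))) := by
    have := lim_unstable (y := y) (h := fun s => hh h0 s) (l := 2) (c := 1 / 128) (B := ‖h0‖)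
      (by norm_num) (fun s _ => hVd h0 s) (fun s _ => hVb h0 s) lq0
    norm_num at this ⊢
    exact this
  have lG0 : Tendsto (fun s => hh (g 0) s) atTop (𝓝 (-(1 / 256))) := by
    refine ly.congr' ?_
    filter_upwards [eventually_ge_atTop (0 : ℝ)] with s hs
    exact (G0 s hs).symm
  have hG0b : ∀ (k : ℤ) (s : ℝ), |hh (g k) s| ≤ 1 / 4 := fun k s => (abs_hh_le _ _).trans (hb.le k)
  have lq2 : Tendsto (fun s => hh h2 s) atTop (𝓝 (1 / 256)) := by
    have h5 : ∀ s, 0 ≤ s → |hh h2 s - hh (g 1) s ^ 2| ≤ Real.exp (-2 * s) * 1 := by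
      intro s hs
      have a1 := q2 s hs
      have a2 : Real.exp (-4 * s) ≤ Real.exp (-2 * s) := Real.exp_le_exp.2 (by linarith)
      have a3 : |2 * hh (g 0) s * hh (g 2) s + 2 * hh (g 3) s * hh (g 1) s| ≤ 1 / 4 := by
        have b0 := hG0b 0 s
        have b1 := hG0b 1 s
        have b2 := hG0b 2 s
        have b3 := hG0b 3 s
        calc _ ≤ |2 * hh (g 0) s * hh (g 2) s| + |2 * hh (g 3) s * hh (g 1) s| := abs_add_le _ _
          _ = 2 * (|hh (g 0) s| * |hh (g 2) s|) + 2 * (|hh (g 3) s| * |hh (g 1) s|) := by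
            rw [abs_mul, abs_mul, abs_mul, abs_mul]
            norm_num
            ring
          _ ≤ 2 * (1 / 4 * (1 / 4)) + 2 * (1 / 4 * (1 / 4)) := by gcongr
          _ = 1 / 4 := by norm_num
      have hp := Real.exp_pos (-2 * s)
      have a4 : |Real.exp (-2 * s) *
          (2 * hh (g 0) s * hh (g 2) s + 2 * hh (g 3) s * hh (g 1) s)| ≤
          Real.exp (-2 * s) * (1 / 4) := by
        rw [abs_mul, abs_of_pos hp]
        exact mul_le_mul_of_nonneg_left a3 hp.le
      have a5 := abs_le.1 a1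
      have a6 := abs_le.1 a4
      rw [abs_le]
      constructor <;> linarith [a5.1, a5.2, a6.1, a6.2]
    refine g_sum_bd (E := 2) (by norm_num) h5 ?_
    have := lG1.pow 2
    norm_num at this ⊢
    exact this
  have lG2 : Tendsto (fun s => hh (g 2) s) atTop (𝓝 (1 / 512)) := by
    have := lim_stable (y := Wf 2 h2) (h := fun s => hh h2 s) (l := 2) (c := 1 / 256)
      (by norm_num) (fun s _ => Wf_deriv 2 h2 s) lq2
    have h6 : Tendsto (Wf 2 h2) atTop (𝓝 (1 / 512)) := by
      norm_num at this ⊢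
      exact this
    refine h6.congr' ?_
    filter_upwards [eventually_ge_atTop (0 : ℝ)] with s hs
    exact (G2 s hs).symm
  have lq3 : Tendsto (fun s => hh h3 s) atTop (𝓝 (1 / 4096)) := by
    refine g_sum_bd (E := 2) (by norm_num) q3 ?_
    have := (lG1.const_mul 2).mul lG2
    norm_num at this ⊢
    exact this
  have lG3 : Tendsto (fun s => hh (g 3) s) atTop (𝓝 (1 / 24576)) := by
    have := lim_stable (y := Wf 6 h3) (h := fun s => hh h3 s) (l := 6) (c := 1 / 4096)
      (by norm_num) (fun s _ => Wf_deriv 6 h3 s) lq3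
    have h6 : Tendsto (Wf 6 h3) atTop (𝓝 (1 / 24576)) := by
      norm_num at this ⊢
      exact this
    refine h6.congr' ?_
    filter_upwards [eventually_ge_atTop (0 : ℝ)] with s hs
    exact (G3 s hs).symm
  have lq1 : Tendsto (fun s => hh h1 s) atTop (𝓝 (-(1 / 4096))) := by
    refine g_sum_bd (E := 2) (by norm_num) q1 ?_
    have := ((lG0.const_mul 2).mul lG1).add ((lG2.const_mul 2).mul lG1)
    norm_num at this ⊢
    exact this
  have lw : Tendsto w atTop (𝓝 (1 / 8192)) := by
    have := lim_unstable (y := w) (h := fun s => hh h1 s) (l := 2) (c := -(1 / 4096)) (B := ‖h1‖)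
      (by norm_num) (fun s _ => hVd h1 s) (fun s _ => hVb h1 s) lq1
    norm_num at this ⊢
    exact this
  -- the resonant term
  set R : ℝ → ℝ := fun s => Real.exp (2 * s) * (hh h2 s - 1 / 256) with hR
  have lR : Tendsto R atTop (𝓝 (1 / 196608)) := by
    have hmain : Tendsto (fun s => (hh (g 1) s + 1 / 16) * w s +
        (2 * hh (g 0) s * hh (g 2) s + 2 * hh (g 3) s * hh (g 1) s)) atTop
        (𝓝 (1 / 196608)) := by
      have := ((lG1.add_const (1 / 16)).mul lw).add
        (((lG0.const_mul 2).mul lG2).add ((lG3.const_mul 2).mul lG1))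
      norm_num at this ⊢
      exact this
    refine g_sum_bd (E := 2) (C := 1 / 16) (by norm_num) ?_ hmain
    intro s hs
    have a1 := q2 s hs
    have hp := Real.exp_pos (2 * s)
    have e3 : R s - ((hh (g 1) s + 1 / 16) * w s +
        (2 * hh (g 0) s * hh (g 2) s + 2 * hh (g 3) s * hh (g 1) s)) =
        Real.exp (2 * s) * (hh h2 s - (hh (g 1) s ^ 2 + Real.exp (-2 * s) *
      (2 * hh (g 0) s * hh (g 2) s + 2 * hh (g 3) s * hh (g 1) s))) := by
      have h7 : Real.exp (2 * s) * (hh (g 1) s ^ 2 - 1 / 256) = (hh (g 1) s + 1 / 16) * w s := by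
        have h8 := G1 s hs
        have h9 : hh (g 1) s ^ 2 - 1 / 256 = (hh (g 1) s + 1 / 16) * (Real.exp (-2 * s) * w s) := by
          have h10 : Real.exp (-2 * s) * w s = hh (g 1) s - 1 / 16 := by linarith
          rw [h10]; ring
        rw [h9]
        linear_combination ((hh (g 1) s + 1 / 16) * w s) * hexpinv s
      simp only [hR]
      linear_combination h7 + (2 * hh (g 0) s * hh (g 2) s + 2 * hh (g 3) s * hh (g 1) s) *
        hexpinv s
    rw [e3, abs_mul, abs_of_pos hp]
    refine (mul_le_mul_of_nonneg_left a1 hp.le).trans (le_of_eq ?_)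
    rw [← mul_assoc, ← Real.exp_add]
    congr 2
    ring
  have hT : ∀ s, 0 < s → HasDerivAt (fun s => Real.exp (2 * s) * (Wf 2 h2 s - 1 / 512)) (R s) s := by
    intro s _
    have h1 : HasDerivAt (fun s : ℝ => Real.exp (2 * s)) (Real.exp (2 * s) * (2 * 1)) s :=
      ((hasDerivAt_id s).const_mul (2 : ℝ)).exp
    refine (h1.mul ((Wf_deriv 2 h2 s).sub_const (1 / 512))).congr_deriv ?_
    simp only [hR]
    ring
  refine (lim_linear hT lR).congr' ?_
  filter_upwards [eventually_ge_atTop (0 : ℝ)] with s hs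
  rw [G2 s hs]

/-- the decaying solution of the heat flow -/
theorem exists_decaying : ∃ a : ℤ → ℝ → ℝ,
    (∀ k s, a (-k) s = a k s) ∧
    (∀ k, ∀ s, 0 < s → HasDerivAt (fun s => ((a k s : ℝ) : ℂ))
      (-((k : ℂ) ^ 2) * (a k s : ℂ) + conv (fun l => (a l s : ℂ)) (fun l => (a l s : ℂ)) k) s) ∧
    (∀ b s, 0 ≤ b → b ≤ s → Bd (fun k => ((Real.exp (b * |(k : ℝ)|) : ℝ) : ℂ) * (a k s : ℂ))
      (Real.exp (b - s))) ∧
    Tendsto (fun s => Real.exp (2 * s) * (Real.exp (2 * s) * a 2 s - 1 / 512) / s) atTop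
      (𝓝 (1 / 196608)) := by
  obtain ⟨g, hb, hg, he⟩ := exists_g
  refine ⟨fun k s => Real.exp (-(ka k : ℝ) * s) * hh (g k) s, ?_, ?_, ?_, ?_⟩
  · intro k s
    simp only [ka_neg, he]
  · intro k s hs
    have h1 := Lv_deriv k (wconv ww g g k) s
    have h2 : HasDerivAt (fun s => Real.exp (-(ka k : ℝ) * s) * hh (g k) s)
        (-((k : ℝ) ^ 2) * (Real.exp (-(ka k : ℝ) * s) * hh (g k) s) +
        Real.exp (-(kb k : ℝ) * s) * hh (wconv ww g g k) s) s := by
      rw [G_eq hg k hs.le]
      refine h1.congr_of_eventuallyEq ?_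
      filter_upwards [lt_mem_nhds hs] with t ht
      rw [G_eq hg k ht.le]
    refine h2.ofReal_comp.congr_deriv ?_
    have e1 : conv (fun l => ((Real.exp (-(ka l : ℝ) * s) * hh (g l) s : ℝ) : ℂ))
        (fun l => ((Real.exp (-(ka l : ℝ) * s) * hh (g l) s : ℝ) : ℂ)) k =
        ((Real.exp (-(kb k : ℝ) * s) * hh (wconv ww g g k) s : ℝ) : ℂ) := by
      unfold conv
      rw [hh_wconv hb k hs.le, ← tsum_mul_left, Complex.ofReal_tsum]
      refine tsum_congr fun l => ?_
      rw [← Complex.ofReal_mul]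
      congr 1
      have h3 : Real.exp (-(kb k : ℝ) * s) * Real.exp (-(gain l (k - l) : ℝ) * s) =
          Real.exp (-(ka l : ℝ) * s) * Real.exp (-(ka (k - l) : ℝ) * s) := by
        rw [← Real.exp_add, ← Real.exp_add]
        congr 1
        have : gain l (k - l) = ka l + ka (k - l) - kb k := by
          unfold gain
          congr 2
          ring
        rw [this]
        push_cast
        ring
      linear_combination (-(hh (g l) s * hh (g (k - l)) s)) * h3
    rw [e1]
    push_cast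
    ring
  · intro b s hb0 hbs
    have hpt : ∀ k : ℤ, ‖((Real.exp (b * |(k : ℝ)|) : ℝ) : ℂ) *
        ((Real.exp (-(ka k : ℝ) * s) * hh (g k) s : ℝ) : ℂ)‖ ≤ Real.exp (b - s) * ‖g k‖ := by
      intro k
      rw [← Complex.ofReal_mul, Complex.norm_real, Real.norm_eq_abs, abs_mul, abs_mul,
        abs_of_pos (Real.exp_pos _), abs_of_pos (Real.exp_pos _), ← mul_assoc]
      refine mul_le_mul ?_ (abs_hh_le _ _) (abs_nonneg _) (Real.exp_pos _).le
      rw [← Real.exp_add]
      apply Real.exp_le_exp.2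
      by_cases hk : k = 0
      · subst hk
        have : (ka 0 : ℝ) = 2 := by simp [ka]
        rw [this]
        simp
        linarith
      · have : (ka k : ℝ) = |(k : ℝ)| := by simp [ka, hk]
        rw [this]
        have h2 : (1 : ℝ) ≤ |(k : ℝ)| := by
          have : (1 : ℤ) ≤ |k| := Int.one_le_abs hk
          exact_mod_cast this
        nlinarith
    intro F
    calc _ ≤ ∑ k ∈ F, Real.exp (b - s) * ‖g k‖ := Finset.sum_le_sum fun k _ => hpt k
      _ = Real.exp (b - s) * ∑ k ∈ F, ‖g k‖ := by rw [Finset.mul_sum]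
      _ ≤ Real.exp (b - s) * (1 / 4) := mul_le_mul_of_nonneg_left (hb F) (Real.exp_pos _).le
      _ ≤ Real.exp (b - s) := by linarith [Real.exp_pos (b - s)]
  · refine (decay_limit hb hg he).congr fun s => ?_
    have : (ka 2 : ℝ) = 2 := by norm_num [ka]
    beta_reduce
    rw [this]
    have h1 : Real.exp (2 * s) * Real.exp (-2 * s) = 1 := by rw [← Real.exp_add]; simp
    rw [← mul_assoc (Real.exp (2 * s)) (Real.exp (-2 * s)), h1, one_mul]

end Pool.Agent.K3h97.NB
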