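import Pool.Agent.K3h97.NB.Glob

set_option autoImplicit false

open Set Filter Topology MeasureTheory

namespace Pool.Agent.K3h97.NB

variable {a : ℤ → ℝ → ℝ} {σs : ℝ} {B : ℝ → ℝ → ℤ → ℂ}

/-- the two constants argument -/
theorem Setup.strip (h : Setup a σs B) {p : ℂ} (hp : σs + 4 ≤ p.re) :
    ∃ K, ∀ z ∈ Metric.ball p 1, ∀ k : ℤ, ‖UU B k z‖ ≤ K * Real.exp (-(|(k : ℝ)| / 2)) := by
  set L := σs + 1 with hL
  set Y := p.im with hY
  have hσs := h.pos
  set X := 1024 + 256 * |Y| + |p.re - L| + 2 with hX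
  have habs := abs_nonneg Y
  have habs2 := abs_nonneg (p.re - L)
  have hX1 : 1024 ≤ X := by rw [hX]; linarith
  have hX0 : 0 < X := by linarith
  -- compact rectangle
  obtain ⟨K₀, hK₀⟩ := h.unif_bdd (L + X) (T := |Y| + 2 * X) (by positivity)
  set K := max K₀ 1 with hK
  have hK1 : 1 ≤ K := le_max_right _ _
  have hpre : p.re ≤ L + X - 2 := by
    have := le_abs_self (p.re - L)
    rw [hX]; linarith
  -- growth of the exponential
  have hexp : 8 * (|Y| + 2 * X) < Real.exp (X / 4) := by
    have h1 := Real.quadratic_le_exp_of_nonneg (x := X / 4) (by positivity)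
    have h2 : 256 * |Y| ≤ X := by rw [hX]; linarith
    have h3 : X * 1024 ≤ X * X := mul_le_mul_of_nonneg_left hX1 hX0.le
    nlinarith
  have hexp2 : (2 : ℝ) ≤ Real.exp (X / 4) := by linarith
  refine ⟨K, fun z hz k => ?_⟩
  set U : Set ℂ := Ioo L (L + X) ×ℂ Ioo (Y - 2 * X) (Y + 2 * X) with hU
  have hUopen : IsOpen U := isOpen_Ioo.reProdIm isOpen_Ioo
  have hUcl : closure U = Icc L (L + X) ×ℂ Icc (Y - 2 * X) (Y + 2 * X) := by
    rw [hU, Complex.closure_reProdIm, closure_Ioo (by linarith), closure_Ioo (by linarith)]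
  have hUb : Bornology.IsBounded U := by
    rw [hU]
    exact (Metric.isBounded_Ioo _ _).reProdIm (Metric.isBounded_Ioo _ _)
  set ψ : ℂ → ℂ := fun z => (z - (L + Complex.I * Y)) / 2 + (z - (L + Complex.I * Y)) ^ 2 / (4 * X)
    with hψ
  have hψre : ∀ w : ℂ, (ψ w).re = (w.re - L) / 2 + ((w.re - L) ^ 2 - (w.im - Y) ^ 2) / (4 * X) := by
    intro w
    have e1 : (w - (L + Complex.I * Y)).re = w.re - L := by simp
    have e2 : (w - (L + Complex.I * Y)).im = w.im - Y := by simp
    have e3 : ((4 : ℂ) * X) = ((4 * X : ℝ) : ℂ) := by push_cast; ring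
    have e4 : ((w - (L + Complex.I * Y)) ^ 2).re = (w.re - L) ^ 2 - (w.im - Y) ^ 2 := by
      rw [sq, Complex.mul_re, e1, e2]; ring
    have e5 : (2 : ℂ) = ((2 : ℝ) : ℂ) := by push_cast; rfl
    simp only [hψ]
    rw [Complex.add_re, e3, Complex.div_ofReal_re, e4, e5, Complex.div_ofReal_re, e1]
  set f : ℂ → ℂ := fun z => UU B k z * Complex.exp ((|(k : ℝ)| : ℝ) * ψ z) with hf
  have hfn : ∀ w, ‖f w‖ = ‖UU B k w‖ * Real.exp (|(k : ℝ)| * (ψ w).re) := by
    intro w
    simp only [hf, norm_mul, Complex.norm_exp, Complex.re_ofReal_mul]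
  have hd : DiffContOnCl ℂ f U := by
    refine DifferentiableOn.diffContOnCl ?_
    rw [hUcl]
    intro w hw
    have hw1 : L ≤ w.re := (Complex.mem_reProdIm.1 hw).1.1
    have h1 : DifferentiableAt ℂ (UU B k) w := (h.deriv (by linarith) k).differentiableAt
    have h2 : Differentiable ℂ (fun z : ℂ => Complex.exp ((|(k : ℝ)| : ℝ) * ψ z)) := by
      simp only [hψ]
      fun_prop
    exact (h1.mul (h2 w)).differentiableWithinAt
  have hkn := abs_nonneg (k : ℝ)
  have hfr : ∀ w ∈ frontier U, ‖f w‖ ≤ K := by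
    intro w hw
    rw [hUopen.frontier_eq, hUcl] at hw
    obtain ⟨hw1, hw2⟩ := hw
    obtain ⟨⟨a1, a2⟩, a3, a4⟩ := Complex.mem_reProdIm.1 hw1
    have him : |w.im| ≤ |Y| + 2 * X := by
      rw [abs_le]
      have := neg_abs_le Y
      have := le_abs_self Y
      constructor <;> linarith
    have hUK : ‖UU B k w‖ ≤ K :=
      ((hK₀ w.re ⟨by linarith, a2⟩ w.im him).le k).trans (le_max_left _ _)
    rw [hfn]
    by_cases hr : w.re = L + X
    · -- right side
      have hb := h.right (X := L + X) (b := 3 * X / 4) (y := w.im) (by linarith) (by positivity)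
        (by linarith) (by
          rw [lt_div_iff₀ (by positivity)]
          have e : 3 * X / 4 - (L + X) = -(X / 4) - L := by ring
          rw [e]
          have h1 : Real.exp (-(X / 4) - L) ≤ Real.exp (-(X / 4)) :=
            Real.exp_le_exp.2 (by linarith)
          have h2 : Real.exp (-(X / 4)) * Real.exp (X / 4) = 1 := by
            rw [← Real.exp_add]; simp
          have h3 : 8 * (|Y| + 2 * X) * Real.exp (-(X / 4)) < 1 := by
            rw [← h2, mul_comm (Real.exp (-(X / 4)))]
            exact mul_lt_mul_of_pos_right hexp (Real.exp_pos _)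
          calc |w.im| * (8 * Real.exp (-(X / 4) - L))
              ≤ (|Y| + 2 * X) * (8 * Real.exp (-(X / 4))) := by gcongr
            _ < 1 := by linarith)
      have hb1 := hb.le k
      rw [norm_mul, Complex.norm_real, Real.norm_of_nonneg (Real.exp_pos _).le] at hb1
      have e6 : B (L + X) w.im k = UU B k w := by rw [UU, hr]
      rw [e6] at hb1
      have hb2 : 2 * Real.exp (3 * X / 4 - (L + X)) ≤ 1 := by
        have h1 : Real.exp (3 * X / 4 - (L + X)) ≤ Real.exp (-(X / 4)) :=
          Real.exp_le_exp.2 (by linarith)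
        have h2 : Real.exp (-(X / 4)) * Real.exp (X / 4) = 1 := by
          rw [← Real.exp_add]; simp
        nlinarith [Real.exp_pos (-(X / 4))]
      have hre : (ψ w).re ≤ 3 * X / 4 := by
        rw [hψre, hr]
        have : (L + X - L) / 2 + ((L + X - L) ^ 2 - (w.im - Y) ^ 2) / (4 * X) =
          3 * X / 4 - (w.im - Y) ^ 2 / (4 * X) := by field_simp; ring
        rw [this]
        have : 0 ≤ (w.im - Y) ^ 2 / (4 * X) := by positivity
        linarith
      calc ‖UU B k w‖ * Real.exp (|(k : ℝ)| * (ψ w).re)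
          ≤ ‖UU B k w‖ * Real.exp (3 * X / 4 * |(k : ℝ)|) := by
            refine mul_le_mul_of_nonneg_left (Real.exp_le_exp.2 ?_) (norm_nonneg _)
            rw [mul_comm]
            exact mul_le_mul_of_nonneg_right hre hkn
        _ ≤ 1 := by rw [mul_comm]; exact hb1.trans hb2
        _ ≤ K := hK1
    · -- the other sides
      have hre : (ψ w).re ≤ 0 := by
        rw [hψre]
        by_cases hl : w.re = L
        · rw [hl]
          have : (L - L) / 2 + ((L - L) ^ 2 - (w.im - Y) ^ 2) / (4 * X) =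
            -((w.im - Y) ^ 2 / (4 * X)) := by ring
          rw [this]
          have : 0 ≤ (w.im - Y) ^ 2 / (4 * X) := by positivity
          linarith
        · have hs : (w.im - Y) ^ 2 = (2 * X) ^ 2 := by
            by_contra hne
            apply hw2
            rw [hU]
            refine Complex.mem_reProdIm.2 ⟨⟨lt_of_le_of_ne a1 (Ne.symm hl),
              lt_of_le_of_ne a2 hr⟩, ?_, ?_⟩
            · refine lt_of_le_of_ne a3 fun he => hne ?_
              rw [← he]; ring
            · refine lt_of_le_of_ne a4 fun he => hne ?_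
              rw [he]; ring
          rw [hs]
          have h1 : (w.re - L) ^ 2 ≤ X ^ 2 := by
            apply pow_le_pow_left₀ (by linarith)
            linarith
          have h2 : ((w.re - L) ^ 2 - (2 * X) ^ 2) / (4 * X) ≤ (X ^ 2 - (2 * X) ^ 2) / (4 * X) := by
            gcongr
          have h3 : (X ^ 2 - (2 * X) ^ 2) / (4 * X) = -(3 * X / 4) := by field_simp; ring
          linarith
      calc ‖UU B k w‖ * Real.exp (|(k : ℝ)| * (ψ w).re) ≤ ‖UU B k w‖ * 1 := by
            refine mul_le_mul_of_nonneg_left ?_ (norm_nonneg _)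
            rw [Real.exp_le_one_iff]
            exact mul_nonpos_of_nonneg_of_nonpos hkn hre
        _ ≤ K := by rw [mul_one]; exact hUK
  -- conclusion
  have hz' : ‖z - p‖ < 1 := by rwa [Metric.mem_ball, dist_eq_norm] at hz
  have hzre : |z.re - p.re| < 1 := by
    have := Complex.abs_re_le_norm (z - p)
    rw [Complex.sub_re] at this
    linarith
  have hzim : |z.im - Y| < 1 := by
    have := Complex.abs_im_le_norm (z - p)
    rw [Complex.sub_im] at this
    linarith
  have hzre' := abs_lt.1 hzre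
  have hzim' := abs_lt.1 hzim
  have hzc : z ∈ closure U := by
    rw [hUcl]
    refine Complex.mem_reProdIm.2 ⟨⟨?_, ?_⟩, ?_, ?_⟩ <;> linarith
  have hmain := Complex.norm_le_of_forall_mem_frontier_norm_le hUb hd hfr hzc
  rw [hfn] at hmain
  have hψz : 1 / 2 ≤ (ψ z).re := by
    rw [hψre]
    have h1 : (z.im - Y) ^ 2 ≤ 1 := by
      have : (z.im - Y) ^ 2 = |z.im - Y| ^ 2 := (sq_abs _).symm
      rw [this]
      exact pow_le_one₀ (abs_nonneg _) hzim.le
    have h2 : -1 / (4 * X) ≤ ((z.re - L) ^ 2 - (z.im - Y) ^ 2) / (4 * X) := by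
      apply div_le_div_of_nonneg_right _ (by positivity)
      nlinarith [sq_nonneg (z.re - L)]
    have h3 : -1 / 4 ≤ -1 / (4 * X) := by
      rw [div_le_div_iff₀ (by norm_num) (by positivity)]
      linarith
    have h4 : 2 ≤ z.re - L := by linarith
    linarith
  have h5 : ‖UU B k z‖ * Real.exp (|(k : ℝ)| / 2) ≤ K := by
    refine le_trans (mul_le_mul_of_nonneg_left (Real.exp_le_exp.2 ?_) (norm_nonneg _)) hmain
    have := mul_le_mul_of_nonneg_left hψz hkn
    linarith
  have h6 : Real.exp (|(k : ℝ)| / 2) * Real.exp (-(|(k : ℝ)| / 2)) = 1 := by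
    rw [← Real.exp_add]; simp
  calc ‖UU B k z‖ = ‖UU B k z‖ * Real.exp (|(k : ℝ)| / 2) * Real.exp (-(|(k : ℝ)| / 2)) := by
        rw [mul_assoc, h6, mul_one]
    _ ≤ K * Real.exp (-(|(k : ℝ)| / 2)) := mul_le_mul_of_nonneg_right h5 (Real.exp_pos _).le

end Pool.Agent.K3h97.NB
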