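import Pool.Agent.K3h97.NB.Landau2
import Pool.Agent.K3h97.NB.Two

set_option autoImplicit false

open Set Filter Topology MeasureTheory

namespace Pool.Agent.K3h97.NB

/-- a coefficient of a Fourier series is bounded by the supremum of the series -/
theorem coeff_le {c : ℤ → ℂ} (hc : Summable fun k => ‖c k‖) {C : ℝ}
    (h : ∀ x : ℝ, ‖∑' k : ℤ, c k * Complex.exp (Complex.I * k * x)‖ ≤ C) (m : ℤ) : ‖c m‖ ≤ C := by
  have hn : ∀ (k : ℤ) (x : ℝ), ‖Complex.exp (Complex.I * k * x)‖ = 1 := by
    intro k x
    have : Complex.I * (k : ℂ) * (x : ℂ) = (((k : ℝ) * x : ℝ) : ℂ) * Complex.I := by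
      push_cast; ring
    rw [this, Complex.norm_exp_ofReal_mul_I]
  have hcont : ∀ k : ℤ, Continuous fun x : ℝ => Complex.exp (Complex.I * k * x) := by
    intro k; fun_prop
  have h1 : HasSum (fun k : ℤ => ∫ x in (0 : ℝ)..(2 * Real.pi),
      c k * Complex.exp (Complex.I * k * x) * Complex.exp (-(Complex.I * m * x)))
      (∫ x in (0 : ℝ)..(2 * Real.pi), (∑' k : ℤ, c k * Complex.exp (Complex.I * k * x)) *
        Complex.exp (-(Complex.I * m * x))) := by
    have hn2 : ∀ x : ℝ, ‖Complex.exp (-(Complex.I * m * x))‖ = 1 := by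
      intro x
      rw [Complex.exp_neg, norm_inv, hn, inv_one]
    refine intervalIntegral.hasSum_integral_of_dominated_convergence (fun k _ => ‖c k‖) ?_ ?_ ?_ ?_ ?_
    · intro k
      refine Continuous.aestronglyMeasurable ?_
      fun_prop
    · intro k
      refine Eventually.of_forall fun x _ => ?_
      rw [norm_mul, norm_mul, hn, hn2]; simp
    · exact Eventually.of_forall fun x _ => hc
    · exact intervalIntegrable_const
    · refine Eventually.of_forall fun x _ => ?_
      refine HasSum.mul_right _ ?_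
      refine Summable.hasSum ?_
      refine Summable.of_norm ?_
      refine hc.congr fun k => ?_
      rw [norm_mul, hn, mul_one]
  have h2 : ∀ k : ℤ, (∫ x in (0 : ℝ)..(2 * Real.pi),
      c k * Complex.exp (Complex.I * k * x) * Complex.exp (-(Complex.I * m * x))) =
      if k = m then 2 * Real.pi * c m else 0 := by
    intro k
    have e1 : ∀ x : ℝ, c k * Complex.exp (Complex.I * k * x) * Complex.exp (-(Complex.I * m * x)) =
        c k * Complex.exp ((Complex.I * ((k : ℂ) - m)) * x) := by
      intro x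
      rw [mul_assoc, ← Complex.exp_add]
      congr 2; ring
    simp only [e1]
    rw [intervalIntegral.integral_const_mul]
    split_ifs with hk
    · subst hk
      simp
      ring
    · have hne : Complex.I * ((k : ℂ) - m) ≠ 0 := by
        refine mul_ne_zero Complex.I_ne_zero (sub_ne_zero.2 ?_)
        exact_mod_cast hk
      rw [integral_exp_mul_complex hne]
      have e2 : Complex.I * ((k : ℂ) - m) * ((2 * Real.pi : ℝ) : ℂ) =
          ((k - m : ℤ) : ℂ) * (2 * Real.pi * Complex.I) := by push_cast; ring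
      rw [e2, Complex.exp_int_mul_two_pi_mul_I]
      simp
  simp only [h2] at h1
  have h3 := h1.unique (hasSum_ite_eq m (2 * Real.pi * c m))
  have h4 : ‖∫ x in (0 : ℝ)..(2 * Real.pi), (∑' k : ℤ, c k * Complex.exp (Complex.I * k * x)) *
        Complex.exp (-(Complex.I * m * x))‖ ≤ C * |2 * Real.pi - 0| := by
    refine intervalIntegral.norm_integral_le_of_norm_le_const fun x _ => ?_
    rw [norm_mul, Complex.exp_neg, norm_inv, hn, inv_one, mul_one]
    exact h x
  rw [h3, sub_zero, norm_mul] at h4
  have hpi := Real.two_pi_pos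
  have e3 : ‖(2 * (Real.pi : ℂ))‖ = 2 * Real.pi := by
    rw [← Complex.ofReal_ofNat, ← Complex.ofReal_mul, Complex.norm_real, Real.norm_of_nonneg hpi.le]
  rw [e3, abs_of_pos hpi, mul_comm C] at h4
  exact le_of_mul_le_mul_left h4 hpi

variable {a : ℤ → ℝ → ℝ} {σs : ℝ} {B : ℝ → ℝ → ℤ → ℂ}

/-- the coefficients are bounded uniformly on a half plane -/
theorem Setup.le_576 (h : Setup a σs B) {p : ℂ} (hp : σs + 4 ≤ p.re) (k : ℤ) :
    ‖UU B k p‖ ≤ 576 := by
  obtain ⟨K, hK⟩ := h.strip hp
  have hd : ∀ z ∈ Metric.ball p 1, ∀ k : ℤ, HasDerivAt (UU B k)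
      (-((k : ℂ) ^ 2) * UU B k z + conv (fun l => UU B l z) (fun l => UU B l z) k) z := by
    intro z hz k
    refine h.deriv ?_ k
    rw [Metric.mem_ball, dist_eq_norm] at hz
    have := Complex.abs_re_le_norm (z - p)
    rw [Complex.sub_re] at this
    have := (abs_le.1 this).1
    linarith
  refine coeff_le (c := fun k => UU B k p) ?_ (fun x => landau hK hd x) k
  refine Summable.of_nonneg_of_le (fun _ => norm_nonneg _)
    (fun k => hK p (Metric.mem_ball_self one_pos) k) ?_
  refine Summable.mul_left K ?_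
  refine (summable_exp_abs (b := 1 / 2) (by norm_num)).congr fun k => ?_
  congr 1; ring

/-- the contradiction -/
theorem Setup.false (h : Setup a σs B)
    (hlim : Tendsto (fun s => Real.exp (2 * s) * (Real.exp (2 * s) * a 2 s - 1 / 512) / s) atTop
      (𝓝 (1 / 196608))) : False := by
  set β := σs + 4 with hβ
  have hβ0 : 0 < β := by have := h.pos; linarith
  set A := 2 * 196608 * (Real.exp (4 * β) * 577) with hA
  have hA0 : 0 < A := by positivity
  have hA1 : 1 ≤ A := by
    have : 1 ≤ Real.exp (4 * β) := Real.one_le_exp (by positivity)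
    rw [hA]; linarith
  set f : ℂ → ℂ := fun z => Complex.exp (4 * (z + β)) *
    (UU B 2 (z + β) - 1 / 512 * Complex.exp (-(2 * (z + β)))) / (z + A) with hf
  have hbase : ∀ z : ℂ, 0 ≤ z.re → ‖f z‖ ≤ Real.exp (4 * β) * 577 / ‖z + A‖ * Real.exp (4 * z.re) := by
    intro z hz
    simp only [hf]
    rw [norm_div, norm_mul, Complex.norm_exp]
    have e1 : (4 * (z + β)).re = 4 * z.re + 4 * β := by
      simp [Complex.mul_re]; ring
    have h1 : ‖UU B 2 (z + β)‖ ≤ 576 := h.le_576 (by simp [hβ]; linarith) 2
    have h2 : ‖(1 / 512 * Complex.exp (-(2 * (z + β))) : ℂ)‖ ≤ 1 := by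
      rw [norm_mul, Complex.norm_exp]
      have e2 : (-(2 * (z + β))).re = -(2 * z.re + 2 * β) := by
        simp [Complex.mul_re]; ring
      rw [e2]
      have h3 : Real.exp (-(2 * z.re + 2 * β)) ≤ 1 := by
        rw [Real.exp_le_one_iff]; linarith
      have h4 : ‖(1 / 512 : ℂ)‖ = 1 / 512 := by norm_num
      rw [h4]
      have := Real.exp_pos (-(2 * z.re + 2 * β))
      nlinarith
    have h3 : ‖UU B 2 (z + β) - 1 / 512 * Complex.exp (-(2 * (z + β)))‖ ≤ 577 := by
      refine (norm_sub_le _ _).trans ?_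
      linarith
    rw [e1, Real.exp_add]
    calc Real.exp (4 * z.re) * Real.exp (4 * β) *
          ‖UU B 2 (z + β) - 1 / 512 * Complex.exp (-(2 * (z + β)))‖ / ‖z + A‖
        ≤ Real.exp (4 * z.re) * Real.exp (4 * β) * 577 / ‖z + A‖ := by gcongr
      _ = _ := by ring
  have hden : ∀ z : ℂ, 0 ≤ z.re → A ≤ ‖z + A‖ := by
    intro z hz
    have := Complex.re_le_norm (z + A)
    rw [Complex.add_re, Complex.ofReal_re] at this
    linarith
  have hd : DiffContOnCl ℂ f {z | 0 < z.re} := by
    refine DifferentiableOn.diffContOnCl ?_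
    have hcl : closure {z : ℂ | 0 < z.re} = {z | 0 ≤ z.re} := Complex.closure_setOfPred_lt_re 0
    rw [hcl]
    intro z hz
    have hz' : 0 ≤ z.re := hz
    refine DifferentiableAt.differentiableWithinAt ?_
    have h1 : DifferentiableAt ℂ (fun z => UU B 2 (z + β)) z := by
      have h2 := h.deriv (z := z + β) (by simp [hβ]; linarith) 2
      exact (h2.comp_add_const z (β : ℂ)).differentiableAt
    have h2 : z + A ≠ 0 := by
      intro h0
      have := hden z hz'
      rw [h0, norm_zero] at this
      linarith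
    have h3 : DifferentiableAt ℂ (fun z : ℂ => Complex.exp (4 * (z + β))) z := by fun_prop
    have h4 : DifferentiableAt ℂ (fun z : ℂ => 1 / 512 * Complex.exp (-(2 * (z + β)))) z := by
      fun_prop
    have h5 : DifferentiableAt ℂ (fun z : ℂ => z + A) z := by fun_prop
    exact (h3.mul (h1.sub h4)).div h5 h2
  have hexp : ∃ c < (2 : ℝ), ∃ b : ℝ,
      f =O[Bornology.cobounded ℂ ⊓ 𝓟 {z | 0 < z.re}] fun z => Real.exp (b * ‖z‖ ^ c) := by
    refine ⟨1, by norm_num, 4, ?_⟩
    refine Asymptotics.IsBigO.of_bound (Real.exp (4 * β) * 577) ?_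
    refine Filter.mem_inf_of_right ?_
    rw [mem_principal]
    intro z hz
    have hz' : 0 ≤ z.re := le_of_lt hz
    simp only [Set.mem_ofPred_eq]
    rw [Real.norm_of_nonneg (Real.exp_pos _).le, Real.rpow_one]
    refine (hbase z hz').trans ?_
    refine mul_le_mul ?_ ?_ (Real.exp_pos _).le (by positivity)
    · rw [div_le_iff₀ (by linarith [hden z hz'])]
      have := hden z hz'
      have h1 : 0 < Real.exp (4 * β) * 577 := by positivity
      nlinarith
    · apply Real.exp_le_exp.2
      have := Complex.re_le_norm z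
      linarith
  have him : ∀ x : ℝ, ‖f (x * Complex.I)‖ ≤ Real.exp (4 * β) * 577 / A := by
    intro x
    have h1 := hbase (x * Complex.I) (by simp)
    have h2 := hden (x * Complex.I) (by simp)
    have e1 : (x * Complex.I : ℂ).re = 0 := by simp
    rw [e1, mul_zero, Real.exp_zero, mul_one] at h1
    refine h1.trans ?_
    gcongr
  -- the values on the real axis
  have hreal : Tendsto (fun x : ℝ => ‖f x‖) atTop (𝓝 (1 / 196608)) := by
    have h1 : Tendsto (fun x : ℝ => x + β) atTop atTop := tendsto_atTop_add_const_right _ _ tendsto_id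
    have h2 := hlim.comp h1
    have h3 : Tendsto (fun x : ℝ => (x + β) / (x + A)) atTop (𝓝 1) := by
      have h4 : Tendsto (fun x : ℝ => 1 + (β - A) / (x + A)) atTop (𝓝 (1 + 0)) := by
        refine tendsto_const_nhds.add ?_
        refine Tendsto.div_atTop tendsto_const_nhds (tendsto_atTop_add_const_right _ _ tendsto_id)
      rw [add_zero] at h4
      refine h4.congr' ?_
      filter_upwards [eventually_ge_atTop 0] with x hx
      have : x + A ≠ 0 := by positivity
      field_simp
      ring
    have h4 := (h2.mul h3).norm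
    have e0 : ‖(1 / 196608 : ℝ) * 1‖ = 1 / 196608 := by
      rw [mul_one, Real.norm_of_nonneg (by norm_num)]
    rw [e0] at h4
    refine h4.congr' ?_
    filter_upwards [eventually_ge_atTop 0] with x hx
    have hxβ : 0 < x + β := by positivity
    have hxA : 0 < x + A := by positivity
    have e1 : UU B 2 ((x : ℂ) + β) = (a 2 (x + β) : ℂ) := by
      have e2 : ((x : ℂ) + β) = ((x + β : ℝ) : ℂ) := by push_cast; rfl
      rw [e2, UU, Complex.ofReal_re, Complex.ofReal_im, h.init (x + β) (by linarith)]
    have e2 : f x = ((Real.exp (2 * (x + β)) * (Real.exp (2 * (x + β)) * a 2 (x + β) - 1 / 512) /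
        (x + β) * ((x + β) / (x + A)) : ℝ) : ℂ) := by
      have e3 : Real.exp (2 * (x + β)) * (Real.exp (2 * (x + β)) * a 2 (x + β) - 1 / 512) /
        (x + β) * ((x + β) / (x + A)) =
        Real.exp (4 * (x + β)) * (a 2 (x + β) - 1 / 512 * Real.exp (-(2 * (x + β)))) / (x + A) := by
        have e4 : Real.exp (4 * (x + β)) = Real.exp (2 * (x + β)) * Real.exp (2 * (x + β)) := by
          rw [← Real.exp_add]; congr 1; ring
        have e5 : Real.exp (2 * (x + β)) * Real.exp (-(2 * (x + β))) = 1 := by
          rw [← Real.exp_add]; simp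
        have e6 : Real.exp (4 * (x + β)) * (a 2 (x + β) - 1 / 512 * Real.exp (-(2 * (x + β)))) =
          Real.exp (2 * (x + β)) * (Real.exp (2 * (x + β)) * a 2 (x + β) - 1 / 512) := by
          rw [e4]
          linear_combination (-(1 / 512) * Real.exp (2 * (x + β))) * e5
        rw [e6]
        field_simp
      rw [e3]
      simp only [hf]
      rw [e1]
      push_cast
      rfl
    rw [e2, Complex.norm_real]
    rfl
  have hre : IsBoundedUnder (· ≤ ·) atTop fun x : ℝ => ‖f x‖ := hreal.isBoundedUnder_le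
  have hall : ∀ x : ℝ, 0 ≤ x → ‖f x‖ ≤ Real.exp (4 * β) * 577 / A := fun x hx =>
    PhragmenLindelof.right_half_plane_of_bounded_on_real hd hexp hre him (by simpa using hx)
  have hfin : (1 / 196608 : ℝ) ≤ Real.exp (4 * β) * 577 / A := by
    refine le_of_tendsto hreal ?_
    filter_upwards [eventually_ge_atTop 0] with x hx using hall x hx
  have hval : Real.exp (4 * β) * 577 / A = 1 / (2 * 196608) := by
    rw [hA]
    have : Real.exp (4 * β) ≠ 0 := (Real.exp_pos _).ne'
    field_simp
  rw [hval] at hfin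
  norm_num at hfin

end Pool.Agent.K3h97.NB
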