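import Pool.Agent.K3h97.NB.Max
import Pool.Agent.K3h97.NB.PL
import Pool.Agent.K3h97.NB.Dec3

set_option autoImplicit false

open Set Filter Topology MeasureTheory

namespace Pool.Agent.K3h97.NB

/-- arbitrarily far along the decaying solution of the heat flow there is a value from which no
bounded solution in real time exists for all times -/
theorem exists_bad {a : ℤ → ℝ → ℝ} (h1 : ∀ k, ∀ s, 0 < s → HasDerivAt (fun s => ((a k s : ℝ) : ℂ))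
      (-((k : ℂ) ^ 2) * (a k s : ℂ) + conv (fun l => (a l s : ℂ)) (fun l => (a l s : ℂ)) k) s)
    (h2 : ∀ b s, 0 ≤ b → b ≤ s → Bd (fun k => ((Real.exp (b * |(k : ℝ)|) : ℝ) : ℂ) * (a k s : ℂ))
      (Real.exp (b - s)))
    (h3 : Tendsto (fun s => Real.exp (2 * s) * (Real.exp (2 * s) * a 2 s - 1 / 512) / s) atTop
      (𝓝 (1 / 196608))) {σs : ℝ} (hσs : 0 < σs) :
    ∃ σ, σs ≤ σ ∧ ∃ T : ℝ, 0 < T ∧ ¬ ∃ x : ℝ → ℤ → ℂ, (x 0 = fun k => (a k σ : ℂ)) ∧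
      Sol Complex.I (Icc 0 T) x ∧ ∃ K, ∀ t ∈ Icc 0 T, Bd (x t) K := by
  by_contra hcon
  push Not at hcon
  have h4 : ∀ σ, ∃ B : ℝ → ℤ → ℂ, σs ≤ σ → ((B 0 = fun k => (a k σ : ℂ)) ∧ (∀ T, Sol2 T B) ∧
      ∀ T, ∃ K, ∀ t, |t| ≤ T → Bd (B t) K) := by
    intro σ
    by_cases hσ : σs ≤ σ
    · obtain ⟨B, hB⟩ := exists_two (c := fun k => a k σ) (fun T hT => hcon σ hσ T hT)
      exact ⟨B, fun _ => hB⟩
    · exact ⟨fun _ _ => 0, fun h => (hσ h).elim⟩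
  choose B hB using h4
  exact Setup.false (a := a) (σs := σs) (B := B) ⟨hσs, h1, h2, fun σ hσ => (hB σ hσ).1,
    fun σ hσ => (hB σ hσ).2.1, fun σ hσ => (hB σ hσ).2.2⟩ h3

end Pool.Agent.K3h97.NB
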