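import Mathlib

set_option autoImplicit false

open Set Filter Topology

namespace Pool.Agent.K3h97.NB

variable {A : Type*} [NormedRing A]

/-- the sums of the norms of finitely many of the `x k` are at most `C` -/
def Bd {A : Type*} [NormedRing A] (x : ℤ → A) (C : ℝ) : Prop :=
  ∀ F : Finset ℤ, ∑ k ∈ F, ‖x k‖ ≤ C

theorem Bd.nonneg {x : ℤ → A} {C : ℝ} (h : Bd x C) : 0 ≤ C := by
  simpa using h ∅

theorem Bd.summable {x : ℤ → A} {C : ℝ} (h : Bd x C) : Summable fun k => ‖x k‖ :=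
  summable_of_sum_le (fun _ => norm_nonneg _) h

theorem Bd.le {x : ℤ → A} {C : ℝ} (h : Bd x C) (k : ℤ) : ‖x k‖ ≤ C := by
  simpa using h {k}

theorem Bd.mono {x : ℤ → A} {C D : ℝ} (h : Bd x C) (hCD : C ≤ D) : Bd x D :=
  fun F => (h F).trans hCD

theorem Bd.tsum_le {x : ℤ → A} {C : ℝ} (h : Bd x C) : ∑' k, ‖x k‖ ≤ C :=
  h.summable.tsum_le_of_sum_le h

theorem Bd.of_summable {x : ℤ → A} (h : Summable fun k => ‖x k‖) : Bd x (∑' k, ‖x k‖) :=
  fun F => h.sum_le_tsum F (fun _ _ => norm_nonneg _)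

theorem Bd.of_le {B : Type*} [NormedRing B] {x : ℤ → A} {y : ℤ → B} {C : ℝ} (h : Bd x C)
    (hxy : ∀ k, ‖y k‖ ≤ ‖x k‖) : Bd y C :=
  fun F => (Finset.sum_le_sum fun k _ => hxy k).trans (h F)

theorem Bd.add {x y : ℤ → A} {C D : ℝ} (hx : Bd x C) (hy : Bd y D) :
    Bd (fun k => x k + y k) (C + D) := by
  intro F
  calc ∑ k ∈ F, ‖x k + y k‖ ≤ ∑ k ∈ F, (‖x k‖ + ‖y k‖) :=
        Finset.sum_le_sum fun k _ => norm_add_le _ _
    _ = ∑ k ∈ F, ‖x k‖ + ∑ k ∈ F, ‖y k‖ := Finset.sum_add_distrib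
    _ ≤ C + D := add_le_add (hx F) (hy F)

theorem Bd.sub {x y : ℤ → A} {C D : ℝ} (hx : Bd x C) (hy : Bd y D) :
    Bd (fun k => x k - y k) (C + D) := by
  intro F
  calc ∑ k ∈ F, ‖x k - y k‖ ≤ ∑ k ∈ F, (‖x k‖ + ‖y k‖) :=
        Finset.sum_le_sum fun k _ => norm_sub_le _ _
    _ = ∑ k ∈ F, ‖x k‖ + ∑ k ∈ F, ‖y k‖ := Finset.sum_add_distrib
    _ ≤ C + D := add_le_add (hx F) (hy F)

theorem Bd.symm {x y : ℤ → A} {C : ℝ} (h : Bd (fun k => x k - y k) C) :
    Bd (fun k => y k - x k) C := by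
  intro F
  simpa [norm_sub_rev] using h F

/-- convolution with weights -/
noncomputable def wconv (w : ℤ → ℤ → A) (x y : ℤ → A) (k : ℤ) : A :=
  ∑' l : ℤ, w l (k - l) * x l * y (k - l)

variable {w : ℤ → ℤ → A}

theorem term_le (hw : ∀ l j, ‖w l j‖ ≤ 1) (x y : ℤ → A) (l j : ℤ) :
    ‖w l j * x l * y j‖ ≤ ‖x l‖ * ‖y j‖ := by
  calc ‖w l j * x l * y j‖ ≤ ‖w l j * x l‖ * ‖y j‖ := norm_mul_le _ _
    _ ≤ (‖w l j‖ * ‖x l‖) * ‖y j‖ := by gcongr; exact norm_mul_le _ _
    _ ≤ (1 * ‖x l‖) * ‖y j‖ := by gcongr; exact hw l j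
    _ = _ := by ring

theorem prod_summable {x y : ℤ → A} {C D : ℝ} (hx : Bd x C) (hy : Bd y D) (k : ℤ) :
    Summable fun l : ℤ => ‖x l‖ * ‖y (k - l)‖ := by
  refine Summable.of_nonneg_of_le (fun _ => by positivity) (fun l => ?_) (hx.summable.mul_right D)
  exact mul_le_mul_of_nonneg_left (hy.le _) (norm_nonneg _)

theorem wconv_summable (hw : ∀ l j, ‖w l j‖ ≤ 1) {x y : ℤ → A} {C D : ℝ} (hx : Bd x C)
    (hy : Bd y D) (k : ℤ) : Summable fun l : ℤ => ‖w l (k - l) * x l * y (k - l)‖ :=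
  Summable.of_nonneg_of_le (fun _ => norm_nonneg _) (fun l => term_le hw x y l (k - l))
    (prod_summable hx hy k)

theorem wconv_norm_le (hw : ∀ l j, ‖w l j‖ ≤ 1) {x y : ℤ → A} {C D : ℝ} (hx : Bd x C)
    (hy : Bd y D) (k : ℤ) : ‖wconv w x y k‖ ≤ ∑' l : ℤ, ‖x l‖ * ‖y (k - l)‖ :=
  (norm_tsum_le_tsum_norm (wconv_summable hw hx hy k)).trans
    ((wconv_summable hw hx hy k).tsum_le_tsum (fun l => term_le hw x y l (k - l))
      (prod_summable hx hy k))

theorem wconv_bd (hw : ∀ l j, ‖w l j‖ ≤ 1) {x y : ℤ → A} {C D : ℝ} (hx : Bd x C)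
    (hy : Bd y D) : Bd (wconv w x y) (C * D) := by
  intro F
  have hC := hx.nonneg
  have hD := hy.nonneg
  have h2 : Summable fun l : ℤ => ∑ k ∈ F, ‖x l‖ * ‖y (k - l)‖ :=
    summable_sum fun k _ => prod_summable hx hy k
  calc ∑ k ∈ F, ‖wconv w x y k‖ ≤ ∑ k ∈ F, ∑' l : ℤ, ‖x l‖ * ‖y (k - l)‖ :=
        Finset.sum_le_sum fun k _ => wconv_norm_le hw hx hy k
    _ = ∑' l : ℤ, ∑ k ∈ F, ‖x l‖ * ‖y (k - l)‖ :=
        (Summable.tsum_finsetSum fun k _ => prod_summable hx hy k).symm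
    _ ≤ ∑' l : ℤ, ‖x l‖ * D := by
        refine h2.tsum_le_tsum (fun l => ?_) (hx.summable.mul_right D)
        rw [← Finset.mul_sum]
        refine mul_le_mul_of_nonneg_left ?_ (norm_nonneg _)
        have h := hy (F.image (fun k => k - l))
        rwa [Finset.sum_image (fun a _ b _ h => by simpa using h)] at h
    _ = (∑' l : ℤ, ‖x l‖) * D := tsum_mul_right
    _ ≤ C * D := mul_le_mul_of_nonneg_right hx.tsum_le hD

section complete
variable [CompleteSpace A]

theorem wconv_sub (hw : ∀ l j, ‖w l j‖ ≤ 1) {x y : ℤ → A} {C D : ℝ} (hx : Bd x C)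
    (hy : Bd y D) (k : ℤ) : wconv w x x k - wconv w y y k =
      wconv w (fun l => x l - y l) x k + wconv w y (fun l => x l - y l) k := by
  unfold wconv
  rw [← (wconv_summable hw hx hx k).of_norm.tsum_sub (wconv_summable hw hy hy k).of_norm,
    ← (wconv_summable hw (hx.sub hy) hx k).of_norm.tsum_add
      (wconv_summable hw hy (hx.sub hy) k).of_norm]
  refine tsum_congr fun l => ?_
  noncomm_ring

theorem wconv_diff_bd (hw : ∀ l j, ‖w l j‖ ≤ 1) {x y : ℤ → A} {C D d : ℝ} (hx : Bd x C)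
    (hy : Bd y D) (hd : Bd (fun l => x l - y l) d) :
    Bd (fun k => wconv w x x k - wconv w y y k) (d * C + D * d) := by
  have h := (wconv_bd hw hd hx).add (wconv_bd hw hy hd)
  intro F
  have e : ∑ k ∈ F, ‖wconv w x x k - wconv w y y k‖ =
      ∑ k ∈ F, ‖wconv w (fun l => x l - y l) x k + wconv w y (fun l => x l - y l) k‖ :=
    Finset.sum_congr rfl fun k _ => by rw [wconv_sub hw hx hy k]
  rw [e]
  exact h F

/-- the fixed point of `f = c + L (w-convolution of f and f)` in a Banach algebra -/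
theorem fix (hw : ∀ l j, ‖w l j‖ ≤ 1) {L : ℤ → A → A} {β M : ℝ} (hβ : 0 ≤ β) (hM : 0 < M)
    (hL0 : ∀ k, L k 0 = 0) (hL : ∀ k x y, ‖L k x - L k y‖ ≤ β * ‖x - y‖)
    (hβM : 8 * β * M ≤ 1) {c : ℤ → A} (hc : Bd c M) (P : (ℤ → A) → Prop) (hP0 : P c)
    (hPs : ∀ f, Bd f (2 * M) → P f → P (fun k => c k + L k (wconv w f f k)))
    (hPl : ∀ (f : ℕ → ℤ → A) (g : ℤ → A), (∀ n, P (f n)) →
      (∀ k, Tendsto (fun n => f n k) atTop (𝓝 (g k))) → P g) :
    ∃ f, Bd f (2 * M) ∧ (∀ k, f k = c k + L k (wconv w f f k)) ∧ P f := by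
  have hLb : ∀ (x : ℤ → A) (C : ℝ), Bd x C → Bd (fun k => L k (x k)) (β * C) := by
    intro x C hx F
    calc ∑ k ∈ F, ‖L k (x k)‖ ≤ ∑ k ∈ F, β * ‖x k‖ := by
          refine Finset.sum_le_sum fun k _ => ?_
          have := hL k (x k) 0
          rwa [hL0, sub_zero, sub_zero] at this
      _ = β * ∑ k ∈ F, ‖x k‖ := by rw [Finset.mul_sum]
      _ ≤ β * C := mul_le_mul_of_nonneg_left (hx F) hβ
  set Φ : (ℤ → A) → ℤ → A := fun f k => c k + L k (wconv w f f k) with hΦ
  have hΦb : ∀ f, Bd f (2 * M) → Bd (Φ f) (2 * M) := by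
    intro f hf
    refine (hc.add (hLb _ _ (wconv_bd hw hf hf))).mono ?_
    nlinarith
  have hΦd : ∀ f g d, Bd f (2 * M) → Bd g (2 * M) → Bd (fun k => f k - g k) d →
      Bd (fun k => Φ f k - Φ g k) (d / 2) := by
    intro f g d hf hg hd F
    have hd0 := hd.nonneg
    have h := wconv_diff_bd hw hf hg hd
    calc ∑ k ∈ F, ‖Φ f k - Φ g k‖ ≤ ∑ k ∈ F, β * ‖wconv w f f k - wconv w g g k‖ := by
          refine Finset.sum_le_sum fun k _ => ?_
          have e : Φ f k - Φ g k = L k (wconv w f f k) - L k (wconv w g g k) := by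
            simp only [hΦ]; abel
          rw [e]
          exact hL k _ _
      _ = β * ∑ k ∈ F, ‖wconv w f f k - wconv w g g k‖ := by rw [Finset.mul_sum]
      _ ≤ β * (d * (2 * M) + 2 * M * d) := mul_le_mul_of_nonneg_left (h F) hβ
      _ ≤ d / 2 := by nlinarith
  set f : ℕ → ℤ → A := fun n => Φ^[n] c with hf
  have hfs : ∀ n, f (n + 1) = Φ (f n) := by
    intro n
    simp only [hf, Function.iterate_succ_apply']
  have hfb : ∀ n, Bd (f n) (2 * M) := by
    intro n
    induction n with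
    | zero => exact hc.mono (by linarith)
    | succ n ih => rw [hfs]; exact hΦb _ ih
  have hfd : ∀ n, Bd (fun k => f (n + 1) k - f n k) (M / 2 ^ n) := by
    intro n
    induction n with
    | zero =>
      have e : (fun k => f (0 + 1) k - f 0 k) = fun k => L k (wconv w c c k) := by
        funext k
        rw [hfs]
        simp only [hΦ, hf, Function.iterate_zero, id_eq]
        abel
      rw [e]
      refine (hLb _ _ (wconv_bd hw hc hc)).mono ?_
      simp only [pow_zero, div_one]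
      nlinarith
    | succ n ih =>
      have h := hΦd _ _ _ (hfb (n + 1)) (hfb n) ih
      rw [← hfs, ← hfs] at h
      refine h.mono (le_of_eq ?_)
      rw [pow_succ]
      field_simp
  have hfm : ∀ n m, Bd (fun k => f (n + m) k - f n k) (2 * M / 2 ^ n - 2 * M / 2 ^ (n + m)) := by
    intro n m
    induction m with
    | zero =>
      intro F
      simp
    | succ m ih =>
      have h := (hfd (n + m)).add ih
      refine (h.of_le (y := fun k => f (n + (m + 1)) k - f n k) ?_).mono (le_of_eq ?_)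
      · intro k
        refine le_of_eq ?_
        congr 1
        rw [← add_assoc]
        abel
      · rw [← add_assoc, pow_succ]
        field_simp
        ring
  have hcau : ∀ k, CauchySeq fun n => f n k := by
    intro k
    refine cauchySeq_of_le_geometric (1 / 2) M (by norm_num) fun n => ?_
    rw [dist_eq_norm, norm_sub_rev]
    refine ((hfd n).le k).trans (le_of_eq ?_)
    rw [div_pow, one_pow]
    ring
  choose g hg using fun k => cauchySeq_tendsto_of_complete (hcau k)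
  have hgb : Bd g (2 * M) := by
    intro F
    have h : Tendsto (fun n => ∑ k ∈ F, ‖f n k‖) atTop (𝓝 (∑ k ∈ F, ‖g k‖)) :=
      tendsto_finsetSum _ fun k _ => (hg k).norm
    exact le_of_tendsto h (Eventually.of_forall fun n => hfb n F)
  have hgd : ∀ n, Bd (fun k => g k - f n k) (2 * M / 2 ^ n) := by
    intro n F
    have h : Tendsto (fun m => ∑ k ∈ F, ‖f (n + m) k - f n k‖) atTop
        (𝓝 (∑ k ∈ F, ‖g k - f n k‖)) := by
      refine tendsto_finsetSum _ fun k _ => ?_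
      have h1 : Tendsto (fun m => f (n + m) k) atTop (𝓝 (g k)) := by
        have := (hg k).comp (tendsto_add_atTop_nat n)
        refine this.congr fun m => ?_
        simp only [Function.comp_apply]
        rw [add_comm]
      exact (h1.sub_const _).norm
    refine le_of_tendsto h (Eventually.of_forall fun m => (hfm n m F).trans ?_)
    have : 0 ≤ 2 * M / 2 ^ (n + m) := by positivity
    linarith
  refine ⟨g, hgb, ?_, ?_⟩
  · intro k
    have h1 : Tendsto (fun n => f (n + 1) k) atTop (𝓝 (g k)) :=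
      (hg k).comp (tendsto_add_atTop_nat 1)
    have h2 : Tendsto (fun n => f (n + 1) k) atTop (𝓝 (Φ g k)) := by
      rw [tendsto_iff_norm_sub_tendsto_zero]
      refine squeeze_zero (fun _ => norm_nonneg _) (fun n => ?_)
        (g := fun n : ℕ => M * (1 / 2) ^ n) ?_
      · rw [hfs, norm_sub_rev]
        refine ((hΦd _ _ _ hgb (hfb n) (hgd n)).le k).trans (le_of_eq ?_)
        rw [div_pow, one_pow]
        ring
      · have := tendsto_pow_atTop_nhds_zero_of_lt_one (r := (1 / 2 : ℝ)) (by norm_num)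
          (by norm_num)
        simpa using this.const_mul M
    exact tendsto_nhds_unique h1 h2
  · refine hPl f g (fun n => ?_) hg
    induction n with
    | zero => exact hP0
    | succ n ih => rw [hfs]; exact hPs _ (hfb n) ih

end complete

end Pool.Agent.K3h97.NB
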