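import Pool.Agent.K3h97.NB.Ray

set_option autoImplicit false

open Set Filter Topology MeasureTheory

namespace Pool.Agent.K3h97.NB

theorem summable_exp_abs {b : ℝ} (hb : 0 < b) : Summable fun k : ℤ => Real.exp (-(b * |(k : ℝ)|)) := by
  have h1 : Summable fun n : ℕ => Real.exp (-(b * |((n : ℤ) : ℝ)|)) := by
    have h2 : ∀ n : ℕ, Real.exp (-(b * |((n : ℤ) : ℝ)|)) = Real.exp (-b) ^ n := by
      intro n
      rw [← Real.exp_nat_mul]
      congr 1
      have : |((n : ℤ) : ℝ)| = n := by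
        rw [Int.cast_natCast]
        exact abs_of_nonneg (Nat.cast_nonneg n)
      rw [this]; ring
    simp only [h2]
    refine summable_geometric_of_lt_one (Real.exp_pos _).le ?_
    rw [Real.exp_lt_one_iff]; linarith
  refine Summable.of_nat_of_neg h1 ?_
  refine h1.congr fun n => ?_
  push_cast
  rw [abs_neg]

theorem ray2 {r C : ℝ} {U : ℤ → ℂ → ℂ} (h : CS r C U) {z₀ : ℂ} {L : ℝ}
    (hmem : ∀ s : ℝ, |s| < L → z₀ + Complex.I * s ∈ HD r)
    (hlt : ∀ s : ℝ, |s| < L → ‖z₀ + Complex.I * s‖ < r) :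
    Sol2 L (fun s k => U k (z₀ + Complex.I * s)) := by
  intro k s hs
  have h1 := h.der k _ (hmem s hs) (hlt s hs)
  have h2 : HasDerivWithinAt (fun s : ℝ => z₀ + Complex.I * (s : ℂ)) Complex.I (Ioo (-L) L) s := by
    have : HasDerivAt (fun s : ℝ => z₀ + Complex.I * (s : ℂ)) (Complex.I * 1) s :=
      ((Complex.ofRealCLM.hasDerivAt (x := s)).const_mul Complex.I).const_add z₀
    simpa using this.hasDerivWithinAt
  have h3 := h1.scomp s h2 (fun x hx => hmem x (abs_lt.2 hx))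
  have h4 := h3.hasDerivAt (Ioo_mem_nhds (abs_lt.1 hs).1 (abs_lt.1 hs).2)
  refine h4.congr_deriv ?_
  simp only [smul_eq_mul]

theorem Sol2.shift {x : ℝ → ℤ → ℂ} (h : ∀ T, Sol2 T x) (y T : ℝ) :
    Sol2 T (fun s => x (y + s)) := by
  intro k t _
  have h1 := h (|y + t| + 1) k (y + t) (by linarith)
  have h2 : HasDerivAt (fun s : ℝ => y + s) 1 t := (hasDerivAt_id t).const_add y
  have h3 := h1.scomp t h2
  refine h3.congr_deriv ?_
  simp

/-- the objects of the argument by contradiction: the decaying solution `a` of the heat flow and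
the solutions `B σ` in real time with initial value `a σ` -/
structure Setup (a : ℤ → ℝ → ℝ) (σs : ℝ) (B : ℝ → ℝ → ℤ → ℂ) : Prop where
  pos : 0 < σs
  heat : ∀ k, ∀ s, 0 < s → HasDerivAt (fun s => ((a k s : ℝ) : ℂ))
      (-((k : ℂ) ^ 2) * (a k s : ℂ) + conv (fun l => (a l s : ℂ)) (fun l => (a l s : ℂ)) k) s
  wb : ∀ b s, 0 ≤ b → b ≤ s → Bd (fun k => ((Real.exp (b * |(k : ℝ)|) : ℝ) : ℂ) * (a k s : ℂ))
      (Real.exp (b - s))
  init : ∀ σ, σs ≤ σ → B σ 0 = fun k => (a k σ : ℂ)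
  sol : ∀ σ, σs ≤ σ → ∀ T, Sol2 T (B σ)
  bdd : ∀ σ, σs ≤ σ → ∀ T, ∃ K, ∀ t, |t| ≤ T → Bd (B σ t) K

section
variable {a : ℤ → ℝ → ℝ} {σs : ℝ} {B : ℝ → ℝ → ℤ → ℂ}

theorem Setup.a_bd (h : Setup a σs B) {s : ℝ} (hs : 0 ≤ s) : Bd (fun k => (a k s : ℂ)) 1 := by
  refine (weight_bd le_rfl (h.wb 0 s le_rfl hs)).mono ?_
  rw [Real.exp_le_one_iff]; linarith

theorem Setup.a_cont (h : Setup a σs B) {σ : ℝ} (hσ : 0 < σ) {ε : ℝ} (hε : 0 < ε) :
    ∀ᶠ s in 𝓝 σ, Bd (fun k => (a k s : ℂ) - (a k σ : ℂ)) ε := by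
  set b := σ / 2 with hb
  have hb0 : 0 < b := by positivity
  have hpt : ∀ s, b ≤ s → ∀ k : ℤ, ‖(a k s : ℂ)‖ ≤ Real.exp (-(b * |(k : ℝ)|)) := by
    intro s hs k
    have h1 := (h.wb b s hb0.le hs).le k
    rw [norm_mul, Complex.norm_real, Real.norm_of_nonneg (Real.exp_pos _).le] at h1
    have h2 : Real.exp (b - s) ≤ 1 := by rw [Real.exp_le_one_iff]; linarith
    rw [Real.exp_neg, ← one_div, le_div_iff₀ (Real.exp_pos _)]
    linarith
  have hsum : Summable fun k : ℤ => 2 * Real.exp (-(b * |(k : ℝ)|)) :=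
    (summable_exp_abs hb0).mul_left 2
  have hev : ∀ᶠ s in 𝓝 σ, b ≤ s := by
    filter_upwards [lt_mem_nhds (show b < σ by rw [hb]; linarith)] with s hs using hs.le
  have hlim : Tendsto (fun s => ∑' k : ℤ, ‖(a k s : ℂ) - (a k σ : ℂ)‖) (𝓝 σ)
      (𝓝 (∑' k : ℤ, (0 : ℝ))) := by
    refine tendsto_tsum_of_dominated_convergence (bound := fun k : ℤ =>
      2 * Real.exp (-(b * |(k : ℝ)|))) hsum ?_ ?_
    · intro k
      have hc : ContinuousAt (fun s => (a k s : ℂ)) σ := (h.heat k σ hσ).continuousAt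
      have h3 : Tendsto (fun s => ‖(a k s : ℂ) - (a k σ : ℂ)‖) (𝓝 σ) (𝓝 ‖(a k σ : ℂ) - (a k σ : ℂ)‖) :=
        (hc.sub continuousAt_const).norm
      simpa using h3
    · filter_upwards [hev] with s hs k
      rw [norm_norm]
      calc ‖(a k s : ℂ) - (a k σ : ℂ)‖ ≤ ‖(a k s : ℂ)‖ + ‖(a k σ : ℂ)‖ := norm_sub_le _ _
        _ ≤ Real.exp (-(b * |(k : ℝ)|)) + Real.exp (-(b * |(k : ℝ)|)) :=
          add_le_add (hpt s hs k) (hpt σ (by rw [hb]; linarith) k)
        _ = _ := by ring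
  rw [tsum_zero] at hlim
  filter_upwards [hlim.eventually (gt_mem_nhds hε), hev] with s hs hs2
  have h4 : Summable fun k : ℤ => ‖(a k s : ℂ) - (a k σ : ℂ)‖ := by
    refine Summable.of_nonneg_of_le (fun _ => norm_nonneg _) (fun k => ?_) hsum
    calc ‖(a k s : ℂ) - (a k σ : ℂ)‖ ≤ ‖(a k s : ℂ)‖ + ‖(a k σ : ℂ)‖ := norm_sub_le _ _
      _ ≤ Real.exp (-(b * |(k : ℝ)|)) + Real.exp (-(b * |(k : ℝ)|)) :=
        add_le_add (hpt s hs2 k) (hpt σ (by rw [hb]; linarith) k)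
      _ = _ := by ring
  exact (Bd.of_summable h4).mono hs.le

theorem Setup.loc_bdd (h : Setup a σs B) {σ : ℝ} (hσ : σs ≤ σ) {T : ℝ} (hT : 0 < T) :
    ∃ K, ∀ᶠ s in 𝓝 σ, σs ≤ s → ∀ t, |t| ≤ T → Bd (B s t) K := by
  obtain ⟨K₀, hK₀⟩ := h.bdd σ hσ T
  set K := max K₀ 0 with hK
  have hK0 : 0 ≤ K := le_max_right _ _
  refine ⟨2 * (K + 1), ?_⟩
  have hδ : 0 < Real.exp (-((3 * K + 2) * T)) := Real.exp_pos _
  filter_upwards [h.a_cont (h.pos.trans_le hσ) hδ] with s hs hsσ t ht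
  obtain ⟨K', hK'⟩ := h.bdd s hsσ T
  have hd : Real.exp (-((3 * K + 2) * T)) * Real.exp ((3 * K + 2) * T) ≤ 1 := by
    rw [← Real.exp_add]; simp
  have ht' := abs_le.1 ht
  rcases le_total 0 t with h0 | h0
  · refine stab re_I (by simp) hK0 ((h.sol s hsσ (T + 1)).pos (by linarith) (by linarith))
      ((h.sol σ hσ (T + 1)).pos (by linarith) (by linarith)) (T := T)
      (fun u hu => hK' u (by rw [abs_of_nonneg hu.1]; exact hu.2))
      (fun u hu => (hK₀ u (by rw [abs_of_nonneg hu.1]; exact hu.2)).mono (le_max_left _ _))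
      ?_ hd t ⟨h0, ht'.2⟩
    rw [h.init s hsσ, h.init σ hσ]
    exact hs
  · have h5 := stab re_negI norm_negI hK0
      ((h.sol s hsσ (T + 1)).neg (t := T) (by linarith) (by linarith))
      ((h.sol σ hσ (T + 1)).neg (t := T) (by linarith) (by linarith))
      (fun u hu => hK' (-u) (by rw [abs_neg, abs_of_nonneg hu.1]; exact hu.2))
      (fun u hu => (hK₀ (-u) (by rw [abs_neg, abs_of_nonneg hu.1]; exact hu.2)).mono
        (le_max_left _ _))
      (δ := Real.exp (-((3 * K + 2) * T))) ?_ hd (-t) ⟨by linarith, by linarith⟩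
    · simpa using h5
    · simp only [neg_zero]
      rw [h.init s hsσ, h.init σ hσ]
      exact hs

/-- bounds on compact sets -/
theorem Setup.unif_bdd (h : Setup a σs B) (X : ℝ) {T : ℝ} (hT : 0 < T) :
    ∃ K, ∀ σ ∈ Icc σs X, ∀ t, |t| ≤ T → Bd (B σ t) K := by
  have := (isCompact_Icc (a := σs) (b := X)).induction_on
    (p := fun S => ∃ K, ∀ σ ∈ S, σs ≤ σ → ∀ t, |t| ≤ T → Bd (B σ t) K) ⟨0, fun _ h => h.elim⟩
    (fun S S' hS h' => by
      obtain ⟨K, hK⟩ := h'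
      exact ⟨K, fun σ hσ => hK σ (hS hσ)⟩)
    (fun S S' h1 h2 => by
      obtain ⟨K, hK⟩ := h1
      obtain ⟨K', hK'⟩ := h2
      refine ⟨max K K', fun σ hσ hs t ht => ?_⟩
      rcases hσ with hσ | hσ
      · exact (hK σ hσ hs t ht).mono (le_max_left _ _)
      · exact (hK' σ hσ hs t ht).mono (le_max_right _ _))
    (fun σ hσ => by
      obtain ⟨K, hK⟩ := h.loc_bdd hσ.1 hT
      exact ⟨_, mem_nhdsWithin_of_mem_nhds hK, K, fun s hs => hs⟩)
  obtain ⟨K, hK⟩ := this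
  exact ⟨K, fun σ hσ => hK σ hσ hσ.1⟩

/-- the local representation -/
theorem Setup.rep (h : Setup a σs B) {σ₁ T M : ℝ} (hσ₁ : σs ≤ σ₁) (hM : 1 ≤ M)
    (hK : ∀ σ ∈ Icc σs (σ₁ + 1), ∀ t, |t| ≤ T + 1 → Bd (B σ t) M) {y : ℝ} (hy : |y| < T)
    {V : ℤ → ℂ → ℂ} (hV : CS (1 / (8 * M)) (2 * M) V) (hV0 : ∀ k, V k 0 = B σ₁ y k)
    {s t : ℝ} (hs0 : 0 ≤ s) (hs : s < 1 / (16 * M)) (ht : |t| < 1 / (16 * M))
    (hyt : |y + t| < T) (k : ℤ) : B (σ₁ + s) (y + t) k = V k (s + Complex.I * t) := by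
  have hM0 : 0 < M := by linarith
  set r := 1 / (8 * M) with hr
  have hr2 : 1 / (16 * M) = r / 2 := by rw [hr]; field_simp; norm_num
  rw [hr2] at hs ht
  have hr1 : r ≤ 1 / 8 := by
    rw [hr]
    apply one_div_le_one_div_of_le (by norm_num)
    linarith
  have hr0 : 0 < r := by positivity
  have hT : 0 < T := (abs_nonneg _).trans_lt hy
  have hmem1 : σ₁ ∈ Icc σs (σ₁ + 1) := ⟨hσ₁, by linarith⟩
  -- local solutions at all heights
  have hex : ∀ u : ℝ, ∃ W : ℤ → ℂ → ℂ, |u| < T → CS r (2 * M) W ∧ ∀ k, W k 0 = B σ₁ u k := by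
    intro u
    by_cases hu : |u| < T
    · obtain ⟨W, hW, hW0⟩ := exists_CS hM0 (hK σ₁ hmem1 u (by linarith))
      exact ⟨W, fun _ => ⟨hW, hW0⟩⟩
    · exact ⟨fun _ _ => 0, fun h => absurd h hu⟩
  choose W hW using hex
  have hnI : ∀ z₀ : ℝ, ∀ s : ℝ, ‖(z₀ : ℂ) + Complex.I * s‖ ≤ |z₀| + |s| := by
    intro z₀ s
    refine (norm_add_le _ _).trans ?_
    rw [norm_mul, Complex.norm_I, one_mul, Complex.norm_real, Complex.norm_real]
    rfl
  have hreI : ∀ z₀ : ℝ, ∀ s : ℝ, ((z₀ : ℂ) + Complex.I * s).re = z₀ := by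
    intro z₀ s; simp
  -- (i)
  have hi : ∀ (W' : ℤ → ℂ → ℂ) (u : ℝ), |u| < T → CS r (2 * M) W' → (∀ k, W' k 0 = B σ₁ u k) →
      ∀ t, |t| < r / 2 → B σ₁ (u + t) = fun k => W' k (Complex.I * t) := by
    intro W' u hu hW' hW0 t ht
    have h1 := ray2 hW' (z₀ := ((0 : ℝ) : ℂ)) (L := r / 2) (fun s hs => ⟨by rw [hreI], by
      have := hnI 0 s; rw [abs_zero] at this; linarith⟩) (fun s hs => by
      have := hnI 0 s; rw [abs_zero] at this; linarith)
    have h2 := Sol2.shift (h.sol σ₁ hσ₁) u (r / 2)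
    have h3 := uniq2 h2 h1 (K₁ := M) (K₂ := 2 * M) ?_ ?_ ?_ ht
    · simpa using h3
    · intro s hs
      refine hK σ₁ hmem1 _ ((abs_add_le _ _).trans ?_)
      linarith
    · intro s hs
      exact hW'.bd _ ⟨by rw [hreI], by have := hnI 0 s; rw [abs_zero] at this; linarith⟩
    · funext k
      simp [hW0]
  -- (ii)
  have hii : ∀ (W₁ W₂ : ℤ → ℂ → ℂ) (t : ℝ), CS r (2 * M) W₁ → CS r (2 * M) W₂ →
      |t| < r / 2 → (∀ k, W₂ k 0 = W₁ k (Complex.I * t)) → ∀ s, 0 ≤ s → s < r / 2 → ∀ k,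
      W₂ k s = W₁ k (s + Complex.I * t) := by
    intro W₁ W₂ t h1 h2 ht h0 s hs0 hs k
    have e1 : ∀ u : ℝ, Complex.I * t + 1 * (u : ℂ) = (u : ℂ) + Complex.I * t := by
      intro u; ring
    have m1 : ∀ u ∈ Icc 0 s, Complex.I * t + 1 * (u : ℂ) ∈ HD r ∧
        ‖Complex.I * t + 1 * (u : ℂ)‖ < r := by
      intro u hu
      rw [e1]
      have := hnI u t
      rw [abs_of_nonneg hu.1] at this
      refine ⟨⟨by rw [hreI]; exact hu.1, by linarith [hu.2]⟩, by linarith [hu.2]⟩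
    have m2 : ∀ u ∈ Icc 0 s, (0 : ℂ) + 1 * (u : ℂ) ∈ HD r ∧ ‖(0 : ℂ) + 1 * (u : ℂ)‖ < r := by
      intro u hu
      rw [zero_add, one_mul]
      have : ‖(u : ℂ)‖ = u := by rw [Complex.norm_real, Real.norm_of_nonneg hu.1]
      refine ⟨⟨by simpa using hu.1, by rw [this]; linarith [hu.2]⟩, by rw [this]; linarith [hu.2]⟩
    have r1 := h1.ray (ω := 1) (L := s) (fun u hu => (m1 u hu).1) (fun u hu => (m1 u hu).2)
    have r2 := h2.ray (ω := 1) (L := s) (fun u hu => (m2 u hu).1) (fun u hu => (m2 u hu).2)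
    have h3 := Sol.uniq (ω := 1) (by simp) (by simp) r2 r1 (K₁ := 2 * M) (K₂ := 2 * M)
      (fun u hu => h2.bd _ (m2 u hu).1) (fun u hu => h1.bd _ (m1 u hu).1) (by
        funext k
        simp [h0]) (t := s) ⟨hs0, le_rfl⟩
    have h4 := congrFun h3 k
    simp only [zero_add, one_mul] at h4
    rw [h4, add_comm]
  -- (iii)-(v)
  have hmain : ∀ s, 0 ≤ s → s < r / 2 → ∀ u, |u| < T → B (σ₁ + s) u = fun k => W u k s := by
    intro s hs0 hs u hu
    have hmem2 : σ₁ + s ∈ Icc σs (σ₁ + 1) := ⟨by linarith, by linarith⟩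
    have hWs : Sol2 T (fun u k => W u k s) := by
      intro k u hu
      have hWu := hW u hu
      have h1 := ray2 hWu.1 (z₀ := (s : ℂ)) (L := r / 2) (fun v hv => ⟨by rw [hreI]; exact hs0, by
        have := hnI s v; rw [abs_of_nonneg hs0] at this; linarith⟩) (fun v hv => by
        have := hnI s v; rw [abs_of_nonneg hs0] at this; linarith)
      have h2 := h1 k 0 (by rw [abs_zero]; positivity)
      have h3 : HasDerivAt (fun v : ℝ => v - u) 1 u := (hasDerivAt_id u).sub_const u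
      have h4 := HasDerivAt.scomp (h := fun v : ℝ => v - u) (h' := 1)
        (g₁ := fun v : ℝ => W u k ((s : ℂ) + Complex.I * (v : ℂ))) u (by simpa using h2) h3
      refine (h4.congr_of_eventuallyEq ?_).congr_deriv ?_
      · have hev1 : ∀ᶠ v in 𝓝 u, |v| < T := continuous_abs.continuousAt.eventually_lt_const hu
        have hev2 : ∀ᶠ v in 𝓝 u, |v - u| < r / 2 := by
          have : Tendsto (fun v : ℝ => |v - u|) (𝓝 u) (𝓝 |u - u|) :=
            ((continuous_id.sub continuous_const).abs).tendsto u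
          rw [sub_self, abs_zero] at this
          exact this.eventually (gt_mem_nhds (by positivity))
        filter_upwards [hev1, hev2] with v hv1 hv2
        have h5 : ∀ k, W v k 0 = W u k (Complex.I * ((v - u : ℝ) : ℂ)) := by
          intro k
          rw [(hW v hv1).2 k]
          have := hi (W u) u hu hWu.1 hWu.2 (v - u) hv2
          have e : u + (v - u) = v := by ring
          rw [e] at this
          exact congrFun this k
        have h6 := hii (W u) (W v) (v - u) hWu.1 (hW v hv1).1 hv2 h5 s hs0 hs k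
        simp only [Function.comp_apply]
        exact h6
      · simp
    have hW0 : (fun k => W 0 k s) = B (σ₁ + s) 0 := by
      rw [h.init _ hmem2.1]
      have h00 : |(0 : ℝ)| < T := by rw [abs_zero]; exact hT
      have m2 : ∀ u ∈ Icc 0 s, (0 : ℂ) + 1 * (u : ℂ) ∈ HD r ∧ ‖(0 : ℂ) + 1 * (u : ℂ)‖ < r := by
        intro u hu
        rw [zero_add, one_mul]
        have : ‖(u : ℂ)‖ = u := by rw [Complex.norm_real, Real.norm_of_nonneg hu.1]
        refine ⟨⟨by simpa using hu.1, by rw [this]; linarith [hu.2]⟩,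
          by rw [this]; linarith [hu.2]⟩
      have r2 := (hW 0 h00).1.ray (ω := 1) (L := s) (fun u hu => (m2 u hu).1)
        (fun u hu => (m2 u hu).2)
      have r1 : Sol 1 (Icc 0 s) (fun u k => (a k (σ₁ + u) : ℂ)) := by
        intro k u hu
        have hp : 0 < σ₁ + u := by linarith [hu.1, h.pos]
        have h1 := h.heat k (σ₁ + u) hp
        have h2 : HasDerivAt (fun v : ℝ => σ₁ + v) 1 u := (hasDerivAt_id u).const_add σ₁
        have h3 := h1.scomp u h2
        refine (h3.congr_deriv ?_).hasDerivWithinAt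
        simp
      have h3 := Sol.uniq (ω := 1) (by simp) (by simp) r2 r1 (K₁ := 2 * M) (K₂ := 1)
        (fun u hu => (hW 0 h00).1.bd _ (m2 u hu).1)
        (fun u hu => h.a_bd (by linarith [hu.1, h.pos])) (by
          funext k
          simp only [Complex.ofReal_zero, mul_zero, add_zero]
          rw [(hW 0 h00).2 k, h.init σ₁ hσ₁]) (t := s) ⟨hs0, le_rfl⟩
      funext k
      have h4 := congrFun h3 k
      simpa using h4
    have h5 := uniq2 (h.sol _ hmem2.1 T) hWs (K₁ := M) (K₂ := 2 * M)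
      (fun v hv => hK _ hmem2 v (by linarith))
      (fun v hv => (hW v hv).1.bd _ ⟨by simpa using hs0, by
        rw [Complex.norm_real, Real.norm_of_nonneg hs0]; linarith⟩) hW0.symm hu
    exact h5
  have h1 := congrFun (hmain s hs0 hs (y + t) hyt) k
  rw [h1]
  refine hii V (W (y + t)) t hV (hW _ hyt).1 ht (fun k => ?_) s hs0 hs k
  rw [(hW _ hyt).2 k]
  exact congrFun (hi V y hy hV hV0 t ht) k

/-- the solution in the complex half plane -/
noncomputable def UU (B : ℝ → ℝ → ℤ → ℂ) (k : ℤ) (z : ℂ) : ℂ := B z.re z.im k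

theorem Setup.deriv (h : Setup a σs B) {z : ℂ} (hz : σs < z.re) (k : ℤ) :
    HasDerivAt (UU B k) (-((k : ℂ) ^ 2) * UU B k z +
      conv (fun l => UU B l z) (fun l => UU B l z) k) z := by
  set T := |z.im| + 1 with hT
  have hT0 : 0 < T := by positivity
  obtain ⟨K, hK⟩ := h.unif_bdd (z.re + 1) (T := T + 1) (by linarith)
  set M := max K 1 with hM
  have hM1 : 1 ≤ M := le_max_right _ _
  have hM0 : 0 < M := by linarith
  set r := 1 / (16 * M) with hr
  have hr0 : 0 < r := by positivity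
  set η := min ((z.re - σs) / 2) (r / 2) with hη
  have hη0 : 0 < η := lt_min (by linarith) (by linarith)
  have hηr : η ≤ r / 2 := min_le_right _ _
  have hησ : η ≤ (z.re - σs) / 2 := min_le_left _ _
  set σ₁ := z.re - η with hσ₁
  have hσ₁s : σs ≤ σ₁ := by rw [hσ₁]; linarith
  have hKM : ∀ σ ∈ Icc σs (σ₁ + 1), ∀ t, |t| ≤ T + 1 → Bd (B σ t) M := by
    intro σ hσ t ht
    exact (hK σ ⟨hσ.1, by linarith [hσ.2]⟩ t ht).mono (le_max_left _ _)
  have hy : |z.im| < T := by rw [hT]; linarith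
  obtain ⟨V, hV, hV0⟩ := exists_CS hM0 (hKM σ₁ ⟨hσ₁s, by linarith⟩ z.im (by linarith))
  have hrep := fun (s t : ℝ) (h1 : 0 ≤ s) (h2 : s < r) (h3 : |t| < r) (h4 : |z.im + t| < T) =>
    h.rep hσ₁s hM1 hKM hy hV hV0 h1 h2 h3 h4
  set p : ℂ := (σ₁ : ℂ) + Complex.I * z.im with hp
  have hpre : p.re = σ₁ := by simp [hp]
  have hpim : p.im = z.im := by simp [hp]
  have hzp : z - p = (η : ℂ) := by
    apply Complex.ext
    · rw [Complex.sub_re, hpre, Complex.ofReal_re, hσ₁]; ring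
    · rw [Complex.sub_im, hpim, Complex.ofReal_im]; ring
  have hev : ∀ᶠ w in 𝓝 z, 0 ≤ (w - p).re ∧ (w - p).re < r ∧ |(w - p).im| < r ∧
      |z.im + (w - p).im| < T := by
    have c1 : Tendsto (fun w : ℂ => (w - p).re) (𝓝 z) (𝓝 η) := by
      have : Tendsto (fun w : ℂ => (w - p).re) (𝓝 z) (𝓝 (z - p).re) :=
        (Complex.continuous_re.comp (continuous_id.sub continuous_const)).tendsto z
      rwa [hzp, Complex.ofReal_re] at this
    have c2 : Tendsto (fun w : ℂ => (w - p).im) (𝓝 z) (𝓝 0) := by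
      have : Tendsto (fun w : ℂ => (w - p).im) (𝓝 z) (𝓝 (z - p).im) :=
        (Complex.continuous_im.comp (continuous_id.sub continuous_const)).tendsto z
      rwa [hzp, Complex.ofReal_im] at this
    have c3 : Tendsto (fun w : ℂ => |(w - p).im|) (𝓝 z) (𝓝 0) := by
      have := c2.abs; rwa [abs_zero] at this
    have c4 : Tendsto (fun w : ℂ => |z.im + (w - p).im|) (𝓝 z) (𝓝 |z.im|) := by
      have := (c2.const_add z.im).abs; rwa [add_zero] at this
    filter_upwards [c1.eventually (lt_mem_nhds hη0), c1.eventually (gt_mem_nhds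
      (show η < r by linarith)), c3.eventually (gt_mem_nhds hr0), c4.eventually
      (gt_mem_nhds hy)] with w h1 h2 h3 h4
    exact ⟨h1.le, h2, h3, h4⟩
  have hUV : ∀ l, ∀ᶠ w in 𝓝 z, UU B l w = V l (w - p) := by
    intro l
    filter_upwards [hev] with w hw
    have h1 := hrep (w - p).re (w - p).im hw.1 hw.2.1 hw.2.2.1 hw.2.2.2 l
    have e1 : σ₁ + (w - p).re = w.re := by rw [Complex.sub_re, hpre]; ring
    have e2 : z.im + (w - p).im = w.im := by rw [Complex.sub_im, hpim]; ring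
    have e3 : (((w - p).re : ℝ) : ℂ) + Complex.I * (((w - p).im : ℝ) : ℂ) = w - p := by
      rw [mul_comm]; exact Complex.re_add_im _
    rw [e1, e2, e3] at h1
    exact h1
  have hHO : z - p ∈ HO (1 / (8 * M)) := by
    rw [hzp]
    refine ⟨by simpa using hη0, ?_⟩
    rw [Complex.norm_real, Real.norm_of_nonneg hη0.le]
    have : r < 1 / (8 * M) := by
      rw [hr]
      apply one_div_lt_one_div_of_lt (by positivity)
      linarith
    linarith
  have hder := (hV.der k (z - p) (HO_subset_HD _ hHO) hHO.2).hasDerivAt (HD_mem_nhds hHO)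
  have h2 : HasDerivAt (fun w : ℂ => w - p) 1 z := (hasDerivAt_id z).sub_const p
  have h3 := HasDerivAt.comp (h := fun w : ℂ => w - p) z hder h2
  refine (h3.congr_of_eventuallyEq (hUV k)).congr_deriv ?_
  rw [mul_one]
  have e : ∀ l, UU B l z = V l (z - p) := fun l => (hUV l).self_of_nhds
  simp only [e]

/-- decay of the coefficients far to the right -/
theorem Setup.right (h : Setup a σs B) {X b y : ℝ} (hX : σs ≤ X) (hb : 0 ≤ b) (hbX : b ≤ X)
    (hy : |y| < 1 / (8 * Real.exp (b - X))) :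
    Bd (fun k => ((Real.exp (b * |(k : ℝ)|) : ℝ) : ℂ) * B X y k) (2 * Real.exp (b - X)) := by
  set M := Real.exp (b - X) with hM
  have hM0 : 0 < M := Real.exp_pos _
  obtain ⟨U, _, h2, h3, h4⟩ := local_sol (b := b) (M := M) (r := 1 / (8 * M)) hb hM0
    (by positivity) (le_of_eq (by field_simp)) (c := fun k => (a k X : ℂ)) (h.wb b X hb hbX)
  have hCS : CS (1 / (8 * M)) (2 * M) U := ⟨fun z hz => weight_bd hb (h3 z hz), h4⟩
  have hn : ∀ s : ℝ, ‖((0 : ℝ) : ℂ) + Complex.I * s‖ = |s| := by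
    intro s
    rw [Complex.ofReal_zero, zero_add, norm_mul, Complex.norm_I, one_mul, Complex.norm_real]
    rfl
  have hm : ∀ s : ℝ, |s| < 1 / (8 * M) → ((0 : ℝ) : ℂ) + Complex.I * s ∈ HD (1 / (8 * M)) :=
    fun s hs => ⟨by simp, by rw [hn]; exact hs.le⟩
  have h5 := ray2 hCS (z₀ := ((0 : ℝ) : ℂ)) (L := 1 / (8 * M)) hm (fun s hs => by rw [hn]; exact hs)
  obtain ⟨K, hK⟩ := h.bdd X hX (1 / (8 * M))
  have h6 := uniq2 (h.sol X hX _) h5 (K₁ := K) (K₂ := 2 * M) (fun t ht => hK t ht.le)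
    (fun t ht => hCS.bd _ (hm t ht)) (by
      rw [h.init X hX]
      funext k
      simp [h2]) hy
  rw [h6]
  exact h3 _ (hm y hy)

end

end Pool.Agent.K3h97.NB
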