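import Pool.Agent.K3h97.NB.Fix

set_option autoImplicit false

open Set Filter Topology

namespace Pool.Agent.K3h97.NB

/-- convolution of two families of complex numbers -/
noncomputable def conv (x y : ℤ → ℂ) (k : ℤ) : ℂ := ∑' l : ℤ, x l * y (k - l)

theorem conv_eq (x y : ℤ → ℂ) : conv x y = wconv (fun _ _ => 1) x y := by
  funext k
  simp [conv, wconv]

theorem one_w : ∀ l j : ℤ, ‖((fun _ _ => 1 : ℤ → ℤ → ℂ) l j)‖ ≤ 1 := by
  intro l j; simp

theorem conv_summable {x y : ℤ → ℂ} {C D : ℝ} (hx : Bd x C) (hy : Bd y D) (k : ℤ) :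
    Summable fun l : ℤ => ‖x l * y (k - l)‖ := by
  have := wconv_summable one_w hx hy k
  simpa using this

theorem conv_bd {x y : ℤ → ℂ} {C D : ℝ} (hx : Bd x C) (hy : Bd y D) : Bd (conv x y) (C * D) := by
  rw [conv_eq]
  exact wconv_bd one_w hx hy

theorem conv_diff_bd {x y : ℤ → ℂ} {C D d : ℝ} (hx : Bd x C) (hy : Bd y D)
    (hd : Bd (fun l => x l - y l) d) : Bd (fun k => conv x x k - conv y y k) (d * C + D * d) := by
  rw [conv_eq, conv_eq]
  exact wconv_diff_bd one_w hx hy hd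

theorem step {T : ℝ} {d q : ℝ → ℤ → ℂ} {μ : ℤ → ℂ} (hμ : ∀ k, 0 ≤ (μ k).re)
    (hd : ∀ k, ∀ t ∈ Icc 0 T, HasDerivWithinAt (fun s => d s k)
      (-(μ k) * d t k + q t k) (Icc 0 T) t)
    {δ : ℝ} (h0 : Bd (d 0) δ) {B B' : ℝ → ℝ} (hB0 : δ ≤ B 0) (hB : ∀ t, HasDerivAt B (B' t) t)
    (hq : ∀ t ∈ Icc 0 T, Bd (q t) (B' t)) {t : ℝ} (ht : t ∈ Icc 0 T) : Bd (d t) (B t) := by
  intro F
  have hθ : ∀ k : ℤ, ∃ θ : ℂ, ‖θ‖ = 1 ∧ θ * d t k = (‖d t k‖ : ℂ) := by
    intro k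
    by_cases hz : d t k = 0
    · refine ⟨1, by simp, ?_⟩
      rw [hz]; simp
    · refine ⟨(starRingEnd ℂ) (d t k) / ‖d t k‖, ?_, ?_⟩
      · rw [norm_div, RCLike.norm_conj, Complex.norm_real, norm_norm,
          div_self (norm_ne_zero_iff.2 hz)]
      · have h1 : (starRingEnd ℂ) (d t k) * d t k = (‖d t k‖ : ℂ) ^ 2 := by
          rw [mul_comm, Complex.mul_conj, Complex.normSq_eq_norm_sq]
          push_cast; rfl
        have h2 : (‖d t k‖ : ℂ) ≠ 0 := by exact_mod_cast norm_ne_zero_iff.2 hz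
        field_simp
        linear_combination h1
  choose θ hθ1 hθ2 using hθ
  set f : ℝ → ℂ := fun s => ∑ k ∈ F, θ k * (Complex.exp (-(μ k) * (t - s)) * d s k) with hf
  have hsub : Icc 0 t ⊆ Icc 0 T := Icc_subset_Icc le_rfl ht.2
  have hderiv : ∀ s ∈ Icc 0 t, HasDerivWithinAt f
      (∑ k ∈ F, θ k * (Complex.exp (-(μ k) * (t - s)) * q s k)) (Icc 0 t) s := by
    intro s hs
    have : HasDerivWithinAt (fun s : ℝ => ∑ k ∈ F, θ k * (Complex.exp (-(μ k) * (t - s)) * d s k))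
      (∑ k ∈ F, θ k * (Complex.exp (-(μ k) * (t - s)) * q s k)) (Icc 0 t) s := by
      refine HasDerivWithinAt.fun_sum fun k _ => ?_
      have h0 : HasDerivAt (fun s : ℝ => ((t : ℂ) - (s : ℂ))) (-1) s := by
        simpa using (Complex.ofRealCLM.hasDerivAt (x := s)).const_sub (t : ℂ)
      have h1 : HasDerivAt (fun s : ℝ => -(μ k) * ((t : ℂ) - (s : ℂ))) (-(μ k) * (-1)) s :=
        h0.const_mul _
      have h2 := (h1.cexp.hasDerivWithinAt (s := Icc 0 t)).mul ((hd k s (hsub hs)).mono hsub)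
      refine (h2.const_mul (θ k)).congr_deriv ?_
      ring
    exact this
  have hexp : ∀ k s, s ≤ t → ‖Complex.exp (-(μ k) * ((t : ℂ) - (s : ℂ)))‖ ≤ 1 := by
    intro k s hs
    rw [Complex.norm_exp, Real.exp_le_one_iff]
    have e : (-(μ k) * ((t : ℂ) - (s : ℂ))).re = -((μ k).re * (t - s)) := by
      simp [Complex.mul_re]
    rw [e]
    have := mul_nonneg (hμ k) (sub_nonneg.2 hs)
    linarith
  have hnorm : ∀ s ∈ Icc 0 t,
      ‖∑ k ∈ F, θ k * (Complex.exp (-(μ k) * (t - s)) * q s k)‖ ≤ B' s := by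
    intro s hs
    refine (norm_sum_le _ _).trans (le_trans ?_ (hq s (hsub hs) F))
    refine Finset.sum_le_sum fun k _ => ?_
    rw [norm_mul, norm_mul, hθ1, one_mul]
    exact mul_le_of_le_one_left (norm_nonneg _) (hexp k s hs.2)
  have hcont : ContinuousOn f (Icc 0 t) := fun s hs => (hderiv s hs).continuousWithinAt
  have hf0 : ‖f 0‖ ≤ B 0 := by
    refine le_trans ?_ hB0
    refine (norm_sum_le _ _).trans (le_trans ?_ (h0 F))
    refine Finset.sum_le_sum fun k _ => ?_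
    rw [norm_mul, norm_mul, hθ1, one_mul]
    exact mul_le_of_le_one_left (norm_nonneg _) (hexp k 0 ht.1)
  have key := image_norm_le_of_norm_deriv_right_le_deriv_boundary (f := f)
    (f' := fun s => ∑ k ∈ F, θ k * (Complex.exp (-(μ k) * (t - s)) * q s k))
    (a := 0) (b := t) hcont
    (fun s hs => (hderiv s ⟨hs.1, hs.2.le⟩).mono_of_mem_nhdsWithin (Icc_mem_nhdsGE_of_mem hs))
    (B := B) (B' := B') hf0 hB (fun s hs => hnorm s ⟨hs.1, hs.2.le⟩) ⟨ht.1, le_rfl⟩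
  have e : f t = ((∑ k ∈ F, ‖d t k‖ : ℝ) : ℂ) := by
    rw [hf]
    simp only [sub_self, mul_zero, Complex.exp_zero, one_mul, hθ2]
    push_cast
    rfl
  rw [e, Complex.norm_real, Real.norm_of_nonneg (Finset.sum_nonneg fun _ _ => norm_nonneg _)] at key
  exact key

/-- Gronwall type estimate -/
theorem gron {T : ℝ} {d q : ℝ → ℤ → ℂ} {μ : ℤ → ℂ} (hμ : ∀ k, 0 ≤ (μ k).re)
    (hd : ∀ k, ∀ t ∈ Icc 0 T, HasDerivWithinAt (fun s => d s k)
      (-(μ k) * d t k + q t k) (Icc 0 T) t)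
    {δ : ℝ} (h0 : Bd (d 0) δ) {C M : ℝ} (hC : 0 ≤ C) (hM : 0 ≤ M)
    (hbd : ∀ t ∈ Icc 0 T, Bd (d t) M)
    (hq : ∀ t ∈ Icc 0 T, ∀ D, Bd (d t) D → Bd (q t) (C * D)) {t : ℝ} (ht : t ∈ Icc 0 T) :
    Bd (d t) (δ * Real.exp (C * t)) := by
  have hδ := h0.nonneg
  have key : ∀ n : ℕ, ∀ t ∈ Icc 0 T,
      Bd (d t) (M * (C * t) ^ n / n.factorial + δ * Real.exp (C * t)) := by
    intro n
    induction n with
    | zero =>
      intro t ht
      refine (hbd t ht).mono ?_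
      have : 0 ≤ δ * Real.exp (C * t) := mul_nonneg hδ (Real.exp_pos _).le
      simp [this]
    | succ n ih =>
      intro t ht
      refine step (B := fun t => M * (C * t) ^ (n + 1) / (n + 1).factorial +
          δ * Real.exp (C * t))
        (B' := fun t => M * ((C * t) ^ n * C) / n.factorial +
          (δ * (Real.exp (C * t) * C))) hμ hd h0 ?_ ?_ ?_ ht
      · simp
      · intro t
        have h1 : HasDerivAt (fun t : ℝ => C * t) (C * 1) t := (hasDerivAt_id t).const_mul C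
        have h2 : HasDerivAt (fun t : ℝ => (C * t) ^ (n + 1))
            (((n + 1 : ℕ) : ℝ) * (C * t) ^ n * (C * 1)) t := by
          simpa using h1.fun_pow (n + 1)
        have h3 : HasDerivAt (fun t : ℝ => M * (C * t) ^ (n + 1) / (n + 1).factorial)
            (M * (((n + 1 : ℕ) : ℝ) * (C * t) ^ n * (C * 1)) / (n + 1).factorial) t :=
          (h2.const_mul M).div_const _
        have h4 : HasDerivAt (fun t : ℝ => δ * Real.exp (C * t))
            (δ * (Real.exp (C * t) * (C * 1))) t := h1.exp.const_mul δ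
        refine (h3.add h4).congr_deriv ?_
        have hf : ((n + 1).factorial : ℝ) = (n + 1) * n.factorial := by
          rw [Nat.factorial_succ]; push_cast; ring
        rw [hf]
        have hn : ((n : ℝ) + 1) ≠ 0 := by positivity
        have hn' : (n.factorial : ℝ) ≠ 0 := by positivity
        push_cast
        field_simp
      · intro s hs
        refine (hq s hs _ (ih s hs)).mono (le_of_eq ?_)
        field_simp
  have hlim : Tendsto (fun n : ℕ => M * (C * t) ^ n / n.factorial + δ * Real.exp (C * t)) atTop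
      (𝓝 (δ * Real.exp (C * t))) := by
    have h1 := (FloorSemiring.tendsto_pow_div_factorial_atTop (C * t)).const_mul M
    have h2 : Tendsto (fun n : ℕ => M * (C * t) ^ n / n.factorial) atTop (𝓝 0) := by
      simpa [mul_div_assoc] using h1
    simpa using h2.add_const (δ * Real.exp (C * t))
  intro F
  exact ge_of_tendsto' hlim fun n => key n t ht F

/-- `b` solves `b_k' = ω (-k² b_k + (b * b)_k)` on `I` -/
def Sol (ω : ℂ) (I : Set ℝ) (b : ℝ → ℤ → ℂ) : Prop :=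
  ∀ k : ℤ, ∀ t ∈ I, HasDerivWithinAt (fun s => b s k)
    (ω * (-((k : ℂ) ^ 2) * b t k + conv (b t) (b t) k)) I t

theorem Sol.mono {ω : ℂ} {I J : Set ℝ} {b : ℝ → ℤ → ℂ} (h : Sol ω I b) (hJ : J ⊆ I) :
    Sol ω J b := fun k t ht => (h k t (hJ ht)).mono hJ

/-- continuous dependence on the initial values -/
theorem Sol.diff {ω : ℂ} (hω : 0 ≤ ω.re) (hω1 : ‖ω‖ ≤ 1) {T : ℝ} {x y : ℝ → ℤ → ℂ}
    (hx : Sol ω (Icc 0 T) x) (hy : Sol ω (Icc 0 T) y) {K₁ K₂ δ : ℝ}
    (hK₁ : ∀ t ∈ Icc 0 T, Bd (x t) K₁) (hK₂ : ∀ t ∈ Icc 0 T, Bd (y t) K₂)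
    (h0 : Bd (fun k => x 0 k - y 0 k) δ) {t : ℝ} (ht : t ∈ Icc 0 T) :
    Bd (fun k => x t k - y t k) (δ * Real.exp ((K₁ + K₂) * t)) := by
  have hT : (0 : ℝ) ∈ Icc 0 T := ⟨le_rfl, ht.1.trans ht.2⟩
  have hk1 := (hK₁ 0 hT).nonneg
  have hk2 := (hK₂ 0 hT).nonneg
  refine gron (d := fun t k => x t k - y t k)
    (q := fun t k => ω * (conv (x t) (x t) k - conv (y t) (y t) k))
    (μ := fun k => ω * (k : ℂ) ^ 2) ?_ ?_ h0 (C := K₁ + K₂) (M := K₁ + K₂) (by positivity)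
    (by positivity) ?_ ?_ ht
  · intro k
    have e : (ω * (k : ℂ) ^ 2).re = ω.re * (k : ℝ) ^ 2 := by
      have : ((k : ℂ) ^ 2) = (((k : ℝ) ^ 2 : ℝ) : ℂ) := by push_cast; rfl
      rw [this, Complex.re_mul_ofReal]
    rw [e]
    positivity
  · intro k t ht
    refine ((hx k t ht).sub (hy k t ht)).congr_deriv ?_
    ring
  · intro t ht
    exact (hK₁ t ht).sub (hK₂ t ht)
  · intro t ht D hD
    have h := conv_diff_bd (hK₁ t ht) (hK₂ t ht) hD
    intro F
    calc ∑ k ∈ F, ‖ω * (conv (x t) (x t) k - conv (y t) (y t) k)‖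
        ≤ ∑ k ∈ F, ‖conv (x t) (x t) k - conv (y t) (y t) k‖ := by
          refine Finset.sum_le_sum fun k _ => ?_
          rw [norm_mul]
          exact mul_le_of_le_one_left (norm_nonneg _) hω1
      _ ≤ D * K₁ + K₂ * D := h F
      _ = (K₁ + K₂) * D := by ring

theorem Sol.uniq {ω : ℂ} (hω : 0 ≤ ω.re) (hω1 : ‖ω‖ ≤ 1) {T : ℝ} {x y : ℝ → ℤ → ℂ}
    (hx : Sol ω (Icc 0 T) x) (hy : Sol ω (Icc 0 T) y) {K₁ K₂ : ℝ}
    (hK₁ : ∀ t ∈ Icc 0 T, Bd (x t) K₁) (hK₂ : ∀ t ∈ Icc 0 T, Bd (y t) K₂)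
    (h0 : x 0 = y 0) {t : ℝ} (ht : t ∈ Icc 0 T) : x t = y t := by
  have h := Sol.diff hω hω1 hx hy hK₁ hK₂ (δ := 0) (by intro F; simp [h0]) ht
  funext k
  have := h.le k
  simp only [zero_mul] at this
  exact sub_eq_zero.1 (norm_le_zero_iff.1 this)

end Pool.Agent.K3h97.NB
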