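import Pool.Agent.K3h97.NB.Gron

set_option autoImplicit false

open Set Filter Topology MeasureTheory

namespace Pool.Agent.K3h97.NB

/-- the closed half disc -/
def HD (r : ℝ) : Set ℂ := {z | 0 ≤ z.re ∧ ‖z‖ ≤ r}

/-- the open half disc -/
def HO (r : ℝ) : Set ℂ := {z | 0 < z.re ∧ ‖z‖ < r}

theorem isClosed_HD (r : ℝ) : IsClosed (HD r) :=
  (isClosed_le continuous_const Complex.continuous_re).inter
    (isClosed_le continuous_norm continuous_const)

theorem isCompact_HD (r : ℝ) : IsCompact (HD r) := by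
  refine Metric.isCompact_of_isClosed_isBounded (isClosed_HD r) ?_
  refine (Metric.isBounded_closedBall (x := (0 : ℂ)) (r := r)).subset fun z hz => ?_
  simpa using hz.2

theorem isOpen_HO (r : ℝ) : IsOpen (HO r) :=
  (isOpen_lt continuous_const Complex.continuous_re).inter
    (isOpen_lt continuous_norm continuous_const)

theorem HO_subset_HD (r : ℝ) : HO r ⊆ HD r := fun _ hz => ⟨hz.1.le, hz.2.le⟩

theorem HD_mem_nhds {r : ℝ} {z : ℂ} (hz : z ∈ HO r) : HD r ∈ 𝓝 z :=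
  mem_of_superset ((isOpen_HO r).mem_nhds hz) (HO_subset_HD r)

theorem smul_HD {r : ℝ} {z : ℂ} (hz : z ∈ HD r) {τ : ℝ} (h0 : 0 ≤ τ) (h1 : τ ≤ 1) :
    (τ : ℂ) * z ∈ HD r := by
  refine ⟨?_, ?_⟩
  · rw [Complex.re_ofReal_mul]; exact mul_nonneg h0 hz.1
  · rw [norm_mul, Complex.norm_real, Real.norm_of_nonneg h0]
    exact (mul_le_of_le_one_left (norm_nonneg _) h1).trans hz.2

theorem smul_HO {r : ℝ} {z : ℂ} (hz : z ∈ HO r) {τ : ℝ} (h0 : 0 < τ) (h1 : τ ≤ 1) :
    (τ : ℂ) * z ∈ HO r := by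
  refine ⟨?_, ?_⟩
  · rw [Complex.re_ofReal_mul]; exact mul_pos h0 hz.1
  · rw [norm_mul, Complex.norm_real, Real.norm_of_nonneg h0.le]
    exact (mul_le_of_le_one_left (norm_nonneg _) h1).trans_lt hz.2

theorem convex_HO (r : ℝ) : Convex ℝ (HO r) := by
  have h1 : Convex ℝ {z : ℂ | 0 < z.re} := convex_halfSpace_gt Complex.reLm.isLinear 0
  have h2 : Convex ℝ (Metric.ball (0 : ℂ) r) := convex_ball 0 r
  have e : HO r = {z : ℂ | 0 < z.re} ∩ Metric.ball (0 : ℂ) r := by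
    ext z; simp [HO]
  rw [e]; exact h1.inter h2

/-- the primitive along segments -/
theorem prim {r : ℝ} {g : ℂ → ℂ} (hgc : ContinuousOn g (HD r)) (hgd : DifferentiableOn ℂ g (HO r))
    {z₀ : ℂ} (hz₀ : z₀ ∈ HO r) :
    HasDerivAt (fun z : ℂ => ∫ τ in (0 : ℝ)..1, z * g (τ * z)) (g z₀) z₀ := by
  obtain ⟨ρ', hρ', hball⟩ := Metric.isOpen_iff.1 (isOpen_HO r) z₀ hz₀
  set ρ := ρ' / 2 with hρdef
  have hρ : 0 < ρ := by positivity
  obtain ⟨G, hG⟩ := (isCompact_HD r).exists_bound_of_continuousOn hgc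
  have hG0 : 0 ≤ G := (norm_nonneg _).trans (hG z₀ (HO_subset_HD r hz₀))
  have hr : 0 < r := (norm_nonneg _).trans_lt hz₀.2
  have hmem : ∀ z ∈ Metric.ball z₀ ρ, z ∈ HO r := fun z hz =>
    hball (Metric.ball_subset_ball (by rw [hρdef]; linarith) hz)
  have hcont : ∀ z ∈ HO r, ContinuousOn (fun τ : ℝ => z * g (τ * z)) (Icc 0 1) := by
    intro z hz
    refine continuousOn_const.mul (hgc.comp (by fun_prop) fun τ hτ => ?_)
    exact smul_HD (HO_subset_HD r hz) hτ.1 hτ.2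
  have hderiv : ∀ z ∈ HO r, ∀ τ : ℝ, 0 < τ → τ ≤ 1 →
      HasDerivAt (fun z : ℂ => z * g (τ * z)) (g (τ * z) + z * (deriv g (τ * z) * τ)) z := by
    intro z hz τ h0 h1
    have hg : HasDerivAt g (deriv g (τ * z)) (τ * z) :=
      ((hgd _ (smul_HO hz h0 h1)).differentiableAt
        ((isOpen_HO r).mem_nhds (smul_HO hz h0 h1))).hasDerivAt
    have h2 : HasDerivAt (fun z : ℂ => (τ : ℂ) * z) (τ : ℂ) z := by
      simpa using (hasDerivAt_id z).const_mul (τ : ℂ)
    have h3 := (hasDerivAt_id z).mul (hg.comp z h2)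
    refine h3.congr_deriv ?_
    simp
  have hdb : ∀ z ∈ Metric.ball z₀ ρ, ∀ τ : ℝ, 0 < τ → τ ≤ 1 →
      ‖deriv g (τ * z)‖ ≤ G / (τ * ρ) := by
    intro z hz τ h0 h1
    have hin : ∀ w ∈ Metric.closedBall ((τ : ℂ) * z) (τ * ρ), w ∈ HO r := by
      intro w hw
      have e : w = (τ : ℂ) * (w / τ) := by
        have : (τ : ℂ) ≠ 0 := by exact_mod_cast h0.ne'
        field_simp
      rw [e]
      refine smul_HO (hball ?_) h0 h1
      rw [Metric.mem_ball, dist_eq_norm]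
      rw [Metric.mem_closedBall, dist_eq_norm] at hw
      have h3 : ‖w / τ - z‖ ≤ ρ := by
        have : w / τ - z = (w - τ * z) / τ := by
          have : (τ : ℂ) ≠ 0 := by exact_mod_cast h0.ne'
          field_simp
        rw [this, norm_div, Complex.norm_real, Real.norm_of_nonneg h0.le,
          div_le_iff₀ h0]
        linarith
      rw [Metric.mem_ball, dist_eq_norm] at hz
      calc ‖w / τ - z₀‖ = ‖(w / τ - z) + (z - z₀)‖ := by congr 1; ring
        _ ≤ ‖w / τ - z‖ + ‖z - z₀‖ := norm_add_le _ _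
        _ < ρ + ρ := by linarith
        _ = ρ' := by rw [hρdef]; ring
    refine Complex.norm_deriv_le_of_forall_mem_sphere_norm_le (by positivity) ?_ ?_
    · refine DifferentiableOn.diffContOnCl ?_
      rw [closure_ball _ (by positivity)]
      exact hgd.mono hin
    · intro w hw
      exact hG w (HO_subset_HD r (hin w (Metric.sphere_subset_closedBall hw)))
  have hdc : ∀ z ∈ HO r, ContinuousOn (fun τ : ℝ => g (τ * z) + z * (deriv g (τ * z) * τ))
      (Ioc 0 1) := by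
    intro z hz
    have h1 : ContinuousOn (deriv g) (HO r) := (hgd.deriv (isOpen_HO r)).continuousOn
    have h2 : ContinuousOn (fun τ : ℝ => deriv g (τ * z)) (Ioc 0 1) :=
      h1.comp (by fun_prop) fun τ hτ => smul_HO hz hτ.1 hτ.2
    have h3 : ContinuousOn (fun τ : ℝ => g (τ * z)) (Ioc 0 1) :=
      hgc.comp (by fun_prop) fun τ hτ => HO_subset_HD r (smul_HO hz hτ.1 hτ.2)
    exact h3.add (continuousOn_const.mul (h2.mul (by fun_prop)))
  have hbound : ∀ z ∈ Metric.ball z₀ ρ, ∀ τ : ℝ, 0 < τ → τ ≤ 1 →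
      ‖g (τ * z) + z * (deriv g (τ * z) * τ)‖ ≤ G + r * (G / ρ) := by
    intro z hz τ h0 h1
    have h2 := hdb z hz τ h0 h1
    have h3 := hG _ (smul_HD (HO_subset_HD r (hmem z hz)) h0.le h1)
    refine (norm_add_le _ _).trans (add_le_add h3 ?_)
    rw [norm_mul, norm_mul, Complex.norm_real, Real.norm_of_nonneg h0.le]
    refine mul_le_mul (hmem z hz).2.le ?_ (by positivity) hr.le
    calc ‖deriv g (τ * z)‖ * τ ≤ G / (τ * ρ) * τ := by gcongr
      _ = G / ρ := by field_simp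
  have key := intervalIntegral.hasDerivAt_integral_of_dominated_loc_of_deriv_le
    (μ := volume) (a := 0) (b := 1) (F := fun (z : ℂ) (τ : ℝ) => z * g (τ * z))
    (F' := fun (z : ℂ) (τ : ℝ) => g (τ * z) + z * (deriv g (τ * z) * τ)) (x₀ := z₀)
    (s := Metric.ball z₀ ρ) (bound := fun _ => G + r * (G / ρ))
    (Metric.ball_mem_nhds z₀ hρ) ?_ ?_ ?_ ?_ ?_ ?_
  · refine key.2.congr_deriv ?_
    have h1 : ∀ τ ∈ Ioo (0 : ℝ) 1, HasDerivAt (fun τ : ℝ => (τ : ℂ) * g (τ * z₀))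
        (g (τ * z₀) + z₀ * (deriv g (τ * z₀) * τ)) τ := by
      intro τ hτ
      have hg : HasDerivAt g (deriv g (τ * z₀)) (τ * z₀) :=
        ((hgd _ (smul_HO hz₀ hτ.1 hτ.2.le)).differentiableAt
          ((isOpen_HO r).mem_nhds (smul_HO hz₀ hτ.1 hτ.2.le))).hasDerivAt
      have h2 : HasDerivAt (fun τ : ℝ => (τ : ℂ)) 1 τ := Complex.ofRealCLM.hasDerivAt
      have h3 : HasDerivAt (fun τ : ℝ => (τ : ℂ) * z₀) z₀ τ := by
        simpa using h2.mul_const z₀
      have h4 := h2.mul (hg.comp_of_eq τ h3 rfl)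
      refine h4.congr_deriv ?_
      simp
      ring
    have h2 : ContinuousOn (fun τ : ℝ => (τ : ℂ) * g (τ * z₀)) (Icc 0 1) := by
      refine ContinuousOn.mul (by fun_prop) (hgc.comp (by fun_prop) fun τ hτ => ?_)
      exact smul_HD (HO_subset_HD r hz₀) hτ.1 hτ.2
    rw [intervalIntegral.integral_eq_sub_of_hasDerivAt_of_le zero_le_one h2 h1 key.1]
    simp
  · refine Eventually.mono (Metric.ball_mem_nhds z₀ hρ) fun z hz => ?_
    rw [uIoc_of_le zero_le_one]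
    exact ((hcont z (hmem z hz)).mono Ioc_subset_Icc_self).aestronglyMeasurable measurableSet_Ioc
  · exact ((hcont z₀ hz₀).mono (by rw [uIcc_of_le zero_le_one])).intervalIntegrable
  · rw [uIoc_of_le zero_le_one]
    exact (hdc z₀ hz₀).aestronglyMeasurable measurableSet_Ioc
  · refine Eventually.of_forall fun τ hτ z hz => ?_
    rw [uIoc_of_le zero_le_one] at hτ
    exact hbound z hz τ hτ.1 hτ.2
  · exact intervalIntegrable_const
  · refine Eventually.of_forall fun τ hτ z hz => ?_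
    rw [uIoc_of_le zero_le_one] at hτ
    exact hderiv z (hmem z hz) τ hτ.1 hτ.2

/-- differentiability extends to the flat part of the boundary -/
theorem within {r : ℝ} {P g : ℂ → ℂ} (hP : ContinuousOn P (HD r)) (hg : ContinuousOn g (HD r))
    (hd : ∀ z ∈ HO r, HasDerivAt P (g z) z) {z₀ : ℂ} (hz₀ : z₀ ∈ HD r) (hr : ‖z₀‖ < r) :
    HasDerivWithinAt P (g z₀) (HD r) z₀ := by
  rw [hasDerivWithinAt_iff_isLittleO, Asymptotics.isLittleO_iff]
  intro ε hε
  have hgc := hg z₀ hz₀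
  rw [Metric.continuousWithinAt_iff] at hgc
  obtain ⟨δ, hδ, hgδ⟩ := hgc ε hε
  have hopen : IsOpen (Metric.ball z₀ δ ∩ Metric.ball (0 : ℂ) r) :=
    Metric.isOpen_ball.inter Metric.isOpen_ball
  have hz₀mem : z₀ ∈ Metric.ball z₀ δ ∩ Metric.ball (0 : ℂ) r :=
    ⟨Metric.mem_ball_self hδ, by simpa using hr⟩
  have hconv : Convex ℝ (HO r ∩ Metric.ball z₀ δ) := (convex_HO r).inter (convex_ball _ _)
  -- Lipschitz estimate in the open part
  have hlip : ∀ x ∈ HO r ∩ Metric.ball z₀ δ, ∀ y ∈ HO r ∩ Metric.ball z₀ δ,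
      ‖(P y - g z₀ * y) - (P x - g z₀ * x)‖ ≤ ε * ‖y - x‖ := by
    intro x hx y hy
    refine hconv.norm_image_sub_le_of_norm_hasDerivWithin_le (f := fun z => P z - g z₀ * z)
      (f' := fun z => g z - g z₀) (C := ε) ?_ ?_ hx hy
    · intro z hz
      have h1 := (hd z hz.1).sub ((hasDerivAt_id z).const_mul (g z₀))
      refine (h1.congr_deriv (by simp)).hasDerivWithinAt
    · intro z hz
      have := hgδ (HO_subset_HD r hz.1) hz.2
      rw [dist_eq_norm] at this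
      exact this.le
  have hseq : Tendsto (fun n : ℕ => ((1 / ((n : ℝ) + 1) : ℝ) : ℂ)) atTop (𝓝 0) := by
    have := tendsto_one_div_add_atTop_nhds_zero_nat (𝕜 := ℝ)
    have h2 := (Complex.continuous_ofReal.tendsto 0).comp this
    rw [Complex.ofReal_zero] at h2
    exact h2
  have hshift : ∀ z ∈ HD r, z ∈ Metric.ball z₀ δ ∩ Metric.ball (0 : ℂ) r →
      ∀ᶠ n : ℕ in atTop, z + ((1 / ((n : ℝ) + 1) : ℝ) : ℂ) ∈ HO r ∩ Metric.ball z₀ δ := by
    intro z hz hz2
    have h1 : Tendsto (fun n : ℕ => z + ((1 / ((n : ℝ) + 1) : ℝ) : ℂ)) atTop (𝓝 z) := by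
      simpa using hseq.const_add z
    filter_upwards [h1 (hopen.mem_nhds hz2)] with n hn
    refine ⟨⟨?_, ?_⟩, hn.1⟩
    · rw [Complex.add_re, Complex.ofReal_re]
      have h0 := hz.1
      have : (0 : ℝ) < 1 / ((n : ℝ) + 1) := by positivity
      linarith
    · simpa using hn.2
  have hPl : ∀ z ∈ HD r, z ∈ Metric.ball z₀ δ ∩ Metric.ball (0 : ℂ) r →
      Tendsto (fun n : ℕ => P (z + ((1 / ((n : ℝ) + 1) : ℝ) : ℂ)) -
        g z₀ * (z + ((1 / ((n : ℝ) + 1) : ℝ) : ℂ))) atTop (𝓝 (P z - g z₀ * z)) := by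
    intro z hz hz2
    have h1 : Tendsto (fun n : ℕ => z + ((1 / ((n : ℝ) + 1) : ℝ) : ℂ)) atTop (𝓝 z) := by
      simpa using hseq.const_add z
    have h2 : Tendsto (fun n : ℕ => z + ((1 / ((n : ℝ) + 1) : ℝ) : ℂ)) atTop (𝓝[HD r] z) :=
      tendsto_nhdsWithin_iff.2 ⟨h1, (hshift z hz hz2).mono fun n hn => HO_subset_HD r hn.1⟩
    exact ((hP z hz).tendsto.comp h2).sub (h1.const_mul _)
  have hfin : ∀ z ∈ HD r, z ∈ Metric.ball z₀ δ ∩ Metric.ball (0 : ℂ) r →
      ‖(P z - g z₀ * z) - (P z₀ - g z₀ * z₀)‖ ≤ ε * ‖z - z₀‖ := by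
    intro z hz hz2
    have h1 := ((hPl z hz hz2).sub (hPl z₀ hz₀ hz₀mem)).norm
    refine le_of_tendsto h1 ?_
    filter_upwards [hshift z hz hz2, hshift z₀ hz₀ hz₀mem] with n hn hn0
    have := hlip _ hn0 _ hn
    simpa using this
  filter_upwards [inter_mem_nhdsWithin (HD r) (hopen.mem_nhds hz₀mem)] with z hz
  have := hfin z hz.1 hz.2
  refine le_trans (le_of_eq ?_) this
  congr 1
  simp only [smul_eq_mul]
  ring

end Pool.Agent.K3h97.NB
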