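import Pool.Agent.K3h97.NB.Gron

set_option autoImplicit false

open Set Filter Topology MeasureTheory

namespace Pool.Agent.K3h97.NB

/-- interior estimate for the heat flow with a quadratic term in complex time -/
theorem landau_core {G Gx Gxx : ℂ → ℂ → ℂ} {p x₀ : ℂ} {M : ℝ}
    (hb : ∀ z ∈ Metric.ball p (1 / 16), ∀ x ∈ Metric.ball x₀ (1 / 4), ‖G z x‖ ≤ M)
    (hz : ∀ z ∈ Metric.ball p (1 / 16), ∀ x ∈ Metric.ball x₀ (1 / 4),
      HasDerivAt (fun z => G z x) (Gxx z x + G z x ^ 2) z)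
    (hx : ∀ z ∈ Metric.ball p (1 / 16), ∀ x ∈ Metric.ball x₀ (1 / 4),
      HasDerivAt (fun x => G z x) (Gx z x) x)
    (hxx : ∀ z ∈ Metric.ball p (1 / 16), ∀ x ∈ Metric.ball x₀ (1 / 4),
      HasDerivAt (fun x => Gx z x) (Gxx z x) x) :
    ‖G p x₀‖ ≤ 576 := by
  set w : ℂ → ℂ → ℝ := fun z x => min ((1 / 4 - ‖x - x₀‖) ^ 2) (1 / 16 - ‖z - p‖) with hw
  set V : Set ℝ := (fun q : ℂ × ℂ => ‖G q.1 q.2‖ * w q.1 q.2) ''
    (Metric.ball p (1 / 16) ×ˢ Metric.ball x₀ (1 / 4)) with hV
  have hM : 0 ≤ M := (norm_nonneg _).trans (hb p (Metric.mem_ball_self (by norm_num)) x₀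
    (Metric.mem_ball_self (by norm_num)))
  have hwle : ∀ z x, w z x ≤ 1 / 16 := fun z x =>
    (min_le_right _ _).trans (by have := norm_nonneg (z - p); linarith)
  have hwpos : ∀ z ∈ Metric.ball p (1 / 16), ∀ x ∈ Metric.ball x₀ (1 / 4), 0 < w z x := by
    intro z hz x hx
    rw [Metric.mem_ball, dist_eq_norm] at hz hx
    refine lt_min ?_ (by linarith)
    exact pow_pos (by linarith) 2
  have hVb : BddAbove V := by
    refine ⟨M * (1 / 16), ?_⟩
    rintro _ ⟨⟨z, x⟩, ⟨hz1, hx1⟩, rfl⟩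
    exact mul_le_mul (hb z hz1 x hx1) (hwle z x) (hwpos z hz1 x hx1).le hM
  set S := sSup V with hS
  have hmem : ∀ z ∈ Metric.ball p (1 / 16), ∀ x ∈ Metric.ball x₀ (1 / 4),
      ‖G z x‖ * w z x ≤ S := fun z hz1 x hx1 => le_csSup hVb ⟨(z, x), ⟨hz1, hx1⟩, rfl⟩
  have hVn : V.Nonempty := ⟨_, ⟨(p, x₀), ⟨Metric.mem_ball_self (by norm_num),
    Metric.mem_ball_self (by norm_num)⟩, rfl⟩⟩
  have hS0 : 0 ≤ S := le_trans (mul_nonneg (norm_nonneg _) (hwpos p (Metric.mem_ball_self (by norm_num))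
    x₀ (Metric.mem_ball_self (by norm_num))).le) (hmem p (Metric.mem_ball_self (by norm_num)) x₀
    (Metric.mem_ball_self (by norm_num)))
  have hkey : ∀ z ∈ Metric.ball p (1 / 16), ∀ x ∈ Metric.ball x₀ (1 / 4),
      (‖G z x‖ * w z x) ^ 2 ≤ 36 * S := by
    intro z hz1 x hx1
    have hzn : ‖z - p‖ < 1 / 16 := by rwa [Metric.mem_ball, dist_eq_norm] at hz1
    have hxn : ‖x - x₀‖ < 1 / 4 := by rwa [Metric.mem_ball, dist_eq_norm] at hx1
    set d := w z x with hd
    have hd0 : 0 < d := hwpos z hz1 x hx1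
    have hd1 : d ≤ (1 / 4 - ‖x - x₀‖) ^ 2 := min_le_left _ _
    have hd2 : d ≤ 1 / 16 - ‖z - p‖ := min_le_right _ _
    -- time derivative
    have h1 : ‖Gxx z x + G z x ^ 2‖ ≤ 4 * S / d ^ 2 := by
      have hball : ∀ z' ∈ Metric.closedBall z (d / 2), z' ∈ Metric.ball p (1 / 16) ∧
          d / 2 ≤ w z' x := by
        intro z' hz'
        rw [Metric.mem_closedBall, dist_eq_norm] at hz'
        have h2 : ‖z' - p‖ ≤ ‖z' - z‖ + ‖z - p‖ := by
          calc ‖z' - p‖ = ‖(z' - z) + (z - p)‖ := by congr 1; ring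
            _ ≤ _ := norm_add_le _ _
        refine ⟨?_, ?_⟩
        · rw [Metric.mem_ball, dist_eq_norm]; linarith
        · refine le_min (by linarith) (by linarith)
      have h3 : DiffContOnCl ℂ (fun z => G z x) (Metric.ball z (d / 2)) := by
        refine DifferentiableOn.diffContOnCl ?_
        rw [closure_ball z (by positivity)]
        intro z' hz'
        exact (hz z' (hball z' hz').1 x hx1).differentiableAt.differentiableWithinAt
      have h4 : ∀ z' ∈ Metric.sphere z (d / 2), ‖G z' x‖ ≤ 2 * S / d := by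
        intro z' hz'
        obtain ⟨h5, h6⟩ := hball z' (Metric.sphere_subset_closedBall hz')
        have h7 := hmem z' h5 x hx1
        rw [le_div_iff₀ hd0]
        nlinarith [norm_nonneg (G z' x)]
      have h8 := Complex.norm_deriv_le_of_forall_mem_sphere_norm_le (by positivity) h3 h4
      rw [(hz z hz1 x hx1).deriv] at h8
      refine h8.trans (le_of_eq ?_)
      field_simp
      ring
    -- second space derivative
    have h2 : ‖Gxx z x‖ ≤ 32 * S / d ^ 2 := by
      set e := Real.sqrt d with he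
      have he0 : 0 < e := Real.sqrt_pos.2 hd0
      have hee : e ^ 2 = d := Real.sq_sqrt hd0.le
      have he1 : e ≤ 1 / 4 - ‖x - x₀‖ := by
        rw [he]
        calc Real.sqrt d ≤ Real.sqrt ((1 / 4 - ‖x - x₀‖) ^ 2) := Real.sqrt_le_sqrt hd1
          _ = 1 / 4 - ‖x - x₀‖ := Real.sqrt_sq (by linarith)
      have hball : ∀ x' ∈ Metric.closedBall x (e / 2), x' ∈ Metric.ball x₀ (1 / 4) ∧
          d / 4 ≤ w z x' := by
        intro x' hx'
        rw [Metric.mem_closedBall, dist_eq_norm] at hx'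
        have h2 : ‖x' - x₀‖ ≤ ‖x' - x‖ + ‖x - x₀‖ := by
          calc ‖x' - x₀‖ = ‖(x' - x) + (x - x₀)‖ := by congr 1; ring
            _ ≤ _ := norm_add_le _ _
        refine ⟨?_, ?_⟩
        · rw [Metric.mem_ball, dist_eq_norm]; linarith
        · refine le_min ?_ (by linarith)
          have h3 : e / 2 ≤ 1 / 4 - ‖x' - x₀‖ := by linarith
          have h4 : (e / 2) ^ 2 ≤ (1 / 4 - ‖x' - x₀‖) ^ 2 := pow_le_pow_left₀ (by positivity) h3 2
          nlinarith
      have h3 : DiffContOnCl ℂ (fun x => G z x) (Metric.ball x (e / 2)) := by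
        refine DifferentiableOn.diffContOnCl ?_
        rw [closure_ball x (by positivity)]
        intro x' hx'
        exact (hx z hz1 x' (hball x' hx').1).differentiableAt.differentiableWithinAt
      have h4 : ∀ x' ∈ Metric.sphere x (e / 2), ‖G z x'‖ ≤ 4 * S / d := by
        intro x' hx'
        obtain ⟨h5, h6⟩ := hball x' (Metric.sphere_subset_closedBall hx')
        have h7 := hmem z hz1 x' h5
        rw [le_div_iff₀ hd0]
        nlinarith [norm_nonneg (G z x')]
      have h8 := Complex.norm_iteratedDeriv_le_of_forall_mem_sphere_norm_le 2 (by positivity) h3 h4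
      have h9 : iteratedDeriv 2 (fun x => G z x) x = Gxx z x := by
        rw [iteratedDeriv_succ, iteratedDeriv_one]
        have h10 : deriv (fun x => G z x) =ᶠ[𝓝 x] fun x => Gx z x := by
          filter_upwards [Metric.isOpen_ball.mem_nhds hx1] with x' hx'
          exact (hx z hz1 x' hx').deriv
        rw [h10.deriv_eq]
        exact (hxx z hz1 x hx1).deriv
      rw [h9] at h8
      refine h8.trans (le_of_eq ?_)
      have : Nat.factorial 2 = 2 := rfl
      rw [this, div_pow, hee]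
      push_cast
      field_simp
      ring
    have h3 : ‖G z x‖ ^ 2 ≤ 36 * S / d ^ 2 := by
      rw [← norm_pow]
      calc ‖G z x ^ 2‖ = ‖(Gxx z x + G z x ^ 2) - Gxx z x‖ := by congr 1; ring
        _ ≤ ‖Gxx z x + G z x ^ 2‖ + ‖Gxx z x‖ := norm_sub_le _ _
        _ ≤ 4 * S / d ^ 2 + 32 * S / d ^ 2 := add_le_add h1 h2
        _ = 36 * S / d ^ 2 := by ring
    rw [mul_pow]
    rwa [le_div_iff₀ (by positivity)] at h3
  have hS1 : S ≤ Real.sqrt (36 * S) := by
    refine csSup_le hVn ?_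
    rintro _ ⟨⟨z, x⟩, ⟨hz1, hx1⟩, rfl⟩
    exact Real.le_sqrt_of_sq_le (hkey z hz1 x hx1)
  have hS2 : S ^ 2 ≤ 36 * S := by
    calc S ^ 2 ≤ (Real.sqrt (36 * S)) ^ 2 := pow_le_pow_left₀ hS0 hS1 2
      _ = 36 * S := Real.sq_sqrt (by positivity)
  have hS3 : S ≤ 36 := by
    by_contra hcon
    push Not at hcon
    nlinarith
  have h := hmem p (Metric.mem_ball_self (by norm_num)) x₀ (Metric.mem_ball_self (by norm_num))
  have hw1 : w p x₀ = 1 / 16 := by
    simp only [hw, sub_self, norm_zero, sub_zero]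
    norm_num
  rw [hw1] at h
  linarith

end Pool.Agent.K3h97.NB
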