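import Pool.Agent.K3h97.NB.Landau
import Pool.Agent.K3h97.NB.Glob

set_option autoImplicit false

open Set Filter Topology MeasureTheory

namespace Pool.Agent.K3h97.NB

theorem tsum_hasDerivAt {F F' : ℤ → ℂ → ℂ} {s : Set ℂ} (hs : IsOpen s) {u : ℤ → ℝ}
    (hu : Summable u) (hF : ∀ k, ∀ w ∈ s, HasDerivAt (F k) (F' k w) w)
    (hb : ∀ k, ∀ w ∈ s, ‖F k w‖ ≤ u k) {w : ℂ} (hw : w ∈ s) :
    HasDerivAt (fun w => ∑' k, F k w) (∑' k, F' k w) w ∧ Summable (fun k => F' k w) := by
  have hd : ∀ k, DifferentiableOn ℂ (F k) s := fun k w hw =>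
    (hF k w hw).differentiableAt.differentiableWithinAt
  have h1 := Complex.differentiableOn_tsum_of_summable_norm hu hd hs (fun k w hw => hb k w hw)
  have h2 := Complex.hasSum_deriv_of_summable_norm hu hd hs (fun k w hw => hb k w hw) hw
  have h3 : HasSum (fun k => F' k w) (deriv (fun w => ∑' k, F k w) w) := by
    have e : (fun k => deriv (F k) w) = fun k => F' k w := by
      funext k
      exact (hF k w hw).deriv
    rwa [e] at h2
  refine ⟨?_, h3.summable⟩
  rw [h3.tsum_eq]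
  exact (h1.differentiableAt (hs.mem_nhds hw)).hasDerivAt

theorem conv_hasSum {V : ℤ → ℂ} {C : ℝ} (h : Bd V C) : HasSum (conv V V) ((∑' k, V k) ^ 2) := by
  have h1 : Summable fun x : ℤ × ℤ => V x.1 * V x.2 :=
    summable_mul_of_summable_norm h.summable h.summable
  have h2 : (∑' k, V k) * (∑' k, V k) = ∑' x : ℤ × ℤ, V x.1 * V x.2 :=
    tsum_mul_tsum_of_summable_norm h.summable h.summable
  have h3 : HasSum (fun x : ℤ × ℤ => V x.1 * V x.2) ((∑' k, V k) ^ 2) := by
    rw [sq, h2]; exact h1.hasSum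
  set e : ℤ × ℤ ≃ ℤ × ℤ :=
    { toFun := fun q => (q.2, q.1 - q.2)
      invFun := fun q => (q.1 + q.2, q.1)
      left_inv := fun q => by ext <;> simp
      right_inv := fun q => by ext <;> simp } with he
  have h4 : HasSum ((fun x : ℤ × ℤ => V x.1 * V x.2) ∘ e) ((∑' k, V k) ^ 2) :=
    (Equiv.hasSum_iff e).2 h3
  refine h4.prod_fiberwise fun k => ?_
  have h5 := (conv_summable h h k).of_norm.hasSum
  exact h5

theorem abs_le_exp (k : ℤ) : |(k : ℝ)| ≤ 8 * Real.exp (|(k : ℝ)| / 8) := by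
  have := Real.add_one_le_exp (|(k : ℝ)| / 8)
  linarith

theorem cexp_bd {x : ℂ} (hx : |x.im| ≤ 1 / 4) (k : ℤ) :
    ‖Complex.exp (Complex.I * k * x)‖ ≤ Real.exp (|(k : ℝ)| / 4) := by
  rw [Complex.norm_exp]
  apply Real.exp_le_exp.2
  have e : (Complex.I * k * x).re = -((k : ℝ) * x.im) := by
    have : ((k : ℤ) : ℂ) = (((k : ℤ) : ℝ) : ℂ) := by push_cast; rfl
    rw [this]
    simp [Complex.mul_re, Complex.mul_im]
  rw [e]
  calc -((k : ℝ) * x.im) ≤ |(k : ℝ) * x.im| := neg_le_abs _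
    _ = |(k : ℝ)| * |x.im| := abs_mul _ _
    _ ≤ |(k : ℝ)| * (1 / 4) := mul_le_mul_of_nonneg_left hx (abs_nonneg _)
    _ = |(k : ℝ)| / 4 := by ring

/-- bound for solutions in a complex disc of time -/
theorem landau {U : ℤ → ℂ → ℂ} {p : ℂ} {K : ℝ}
    (hU : ∀ z ∈ Metric.ball p 1, ∀ k : ℤ, ‖U k z‖ ≤ K * Real.exp (-(|(k : ℝ)| / 2)))
    (hd : ∀ z ∈ Metric.ball p 1, ∀ k : ℤ, HasDerivAt (U k)
      (-((k : ℂ) ^ 2) * U k z + conv (fun l => U l z) (fun l => U l z) k) z) (y : ℝ) :
    ‖∑' k : ℤ, U k p * Complex.exp (Complex.I * k * y)‖ ≤ 576 := by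
  have hK : 0 ≤ K := by
    have h := (norm_nonneg _).trans (hU p (Metric.mem_ball_self one_pos) 0)
    simpa using h
  set u0 : ℤ → ℝ := fun k => K * Real.exp (-(1 / 4 * |(k : ℝ)|)) with hu0
  set u1 : ℤ → ℝ := fun k => 8 * K * Real.exp (-(1 / 8 * |(k : ℝ)|)) with hu1
  have hs0 : Summable u0 := (summable_exp_abs (by norm_num)).mul_left K
  have hs1 : Summable u1 := (summable_exp_abs (by norm_num)).mul_left (8 * K)
  have hsub : ∀ z ∈ Metric.ball p (1 / 16), z ∈ Metric.ball p 1 := fun z hz =>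
    Metric.ball_subset_ball (by norm_num) hz
  have him : ∀ x ∈ Metric.ball (y : ℂ) (1 / 4), |x.im| ≤ 1 / 4 := by
    intro x hx
    rw [Metric.mem_ball, dist_eq_norm] at hx
    have h1 := Complex.abs_im_le_norm (x - y)
    rw [Complex.sub_im, Complex.ofReal_im, sub_zero] at h1
    linarith
  have hb0 : ∀ z ∈ Metric.ball p 1, ∀ x ∈ Metric.ball (y : ℂ) (1 / 4), ∀ k : ℤ,
      ‖U k z * Complex.exp (Complex.I * k * x)‖ ≤ u0 k := by
    intro z hz x hx k
    rw [norm_mul]
    calc ‖U k z‖ * ‖Complex.exp (Complex.I * k * x)‖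
        ≤ (K * Real.exp (-(|(k : ℝ)| / 2))) * Real.exp (|(k : ℝ)| / 4) :=
          mul_le_mul (hU z hz k) (cexp_bd (him x hx) k) (norm_nonneg _) (by positivity)
      _ = u0 k := by
          rw [mul_assoc, ← Real.exp_add, hu0]
          congr 2; ring
  have hb1 : ∀ z ∈ Metric.ball p 1, ∀ x ∈ Metric.ball (y : ℂ) (1 / 4), ∀ k : ℤ,
      ‖U k z * (Complex.I * k) * Complex.exp (Complex.I * k * x)‖ ≤ u1 k := by
    intro z hz x hx k
    have e1 : ‖(Complex.I * k : ℂ)‖ = |(k : ℝ)| := by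
      rw [norm_mul, Complex.norm_I, one_mul]
      exact Complex.norm_intCast k
    rw [norm_mul, norm_mul, e1]
    calc ‖U k z‖ * |(k : ℝ)| * ‖Complex.exp (Complex.I * k * x)‖
        ≤ (K * Real.exp (-(|(k : ℝ)| / 2))) * (8 * Real.exp (|(k : ℝ)| / 8)) *
            Real.exp (|(k : ℝ)| / 4) := by
          refine mul_le_mul ?_ (cexp_bd (him x hx) k) (norm_nonneg _) (by positivity)
          exact mul_le_mul (hU z hz k) (abs_le_exp k) (abs_nonneg _) (by positivity)
      _ = 8 * K * (Real.exp (-(|(k : ℝ)| / 2)) * Real.exp (|(k : ℝ)| / 8) *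
            Real.exp (|(k : ℝ)| / 4)) := by ring
      _ = u1 k := by
          rw [← Real.exp_add, ← Real.exp_add, hu1]
          congr 2; ring
  have hexp : ∀ k : ℤ, ∀ x : ℂ, HasDerivAt (fun x : ℂ => Complex.exp (Complex.I * k * x))
      (Complex.I * k * Complex.exp (Complex.I * k * x)) x := by
    intro k x
    have h1 : HasDerivAt (fun x : ℂ => Complex.I * k * x) (Complex.I * k * 1) x :=
      (hasDerivAt_id x).const_mul _
    refine h1.cexp.congr_deriv ?_
    ring
  have hX : ∀ z ∈ Metric.ball p 1, ∀ x ∈ Metric.ball (y : ℂ) (1 / 4),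
      HasDerivAt (fun x => ∑' k : ℤ, U k z * Complex.exp (Complex.I * k * x))
      (∑' k : ℤ, U k z * (Complex.I * k) * Complex.exp (Complex.I * k * x)) x := by
    intro z hz x hx
    refine (tsum_hasDerivAt (F := fun (k : ℤ) x => U k z * Complex.exp (Complex.I * k * x))
      (F' := fun (k : ℤ) x => U k z * (Complex.I * k) * Complex.exp (Complex.I * k * x))
      Metric.isOpen_ball hs0 (fun k w _ => ?_) (fun k w hw => hb0 z hz w hw k) hx).1
    refine ((hexp k w).const_mul (U k z)).congr_deriv ?_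
    ring
  have hXX : ∀ z ∈ Metric.ball p 1, ∀ x ∈ Metric.ball (y : ℂ) (1 / 4),
      HasDerivAt (fun x => ∑' k : ℤ, U k z * (Complex.I * k) * Complex.exp (Complex.I * k * x))
      (∑' k : ℤ, -((k : ℂ) ^ 2) * U k z * Complex.exp (Complex.I * k * x)) x ∧
      Summable fun k : ℤ => -((k : ℂ) ^ 2) * U k z * Complex.exp (Complex.I * k * x) := by
    intro z hz x hx
    refine tsum_hasDerivAt
      (F := fun (k : ℤ) x => U k z * (Complex.I * k) * Complex.exp (Complex.I * k * x))
      (F' := fun (k : ℤ) x => -((k : ℂ) ^ 2) * U k z * Complex.exp (Complex.I * k * x))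
      Metric.isOpen_ball hs1 (fun k w _ => ?_) (fun k w hw => hb1 z hz w hw k) hx
    refine ((hexp k w).const_mul (U k z * (Complex.I * k))).congr_deriv ?_
    linear_combination (U k z * (k : ℂ) ^ 2 * Complex.exp (Complex.I * k * w)) * Complex.I_sq
  have hZ : ∀ z ∈ Metric.ball p 1, ∀ x ∈ Metric.ball (y : ℂ) (1 / 4),
      HasDerivAt (fun z => ∑' k : ℤ, U k z * Complex.exp (Complex.I * k * x))
      ((∑' k : ℤ, -((k : ℂ) ^ 2) * U k z * Complex.exp (Complex.I * k * x)) +
        (∑' k : ℤ, U k z * Complex.exp (Complex.I * k * x)) ^ 2) z := by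
    intro z hz x hx
    have h1 := tsum_hasDerivAt (s := Metric.ball p 1) Metric.isOpen_ball hs0
      (F := fun k z => U k z * Complex.exp (Complex.I * k * x))
      (F' := fun k z => (-((k : ℂ) ^ 2) * U k z + conv (fun l => U l z) (fun l => U l z) k) *
        Complex.exp (Complex.I * k * x))
      (fun k w hw => (hd w hw k).mul_const _) (fun k w hw => hb0 w hw x hx k) hz
    refine h1.1.congr_deriv ?_
    set V : ℤ → ℂ := fun k => U k z * Complex.exp (Complex.I * k * x) with hV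
    have hVs : Summable fun k => ‖V k‖ :=
      Summable.of_nonneg_of_le (fun _ => norm_nonneg _) (fun k => hb0 z hz x hx k) hs0
    have h2 := conv_hasSum (Bd.of_summable hVs)
    have h3 : ∀ k, conv V V k = conv (fun l => U l z) (fun l => U l z) k *
        Complex.exp (Complex.I * k * x) := by
      intro k
      simp only [conv, hV]
      rw [← tsum_mul_right]
      refine tsum_congr fun l => ?_
      have : Complex.exp (Complex.I * k * x) =
        Complex.exp (Complex.I * l * x) * Complex.exp (Complex.I * ((k - l : ℤ) : ℂ) * x) := by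
        rw [← Complex.exp_add]
        congr 1
        push_cast
        ring
      rw [this]
      ring
    have h4 := (hXX z hz x hx).2.hasSum.add h2
    rw [← h4.tsum_eq]
    refine tsum_congr fun k => ?_
    rw [h3]
    ring
  have hM : ∀ z ∈ Metric.ball p 1, ∀ x ∈ Metric.ball (y : ℂ) (1 / 4),
      ‖∑' k : ℤ, U k z * Complex.exp (Complex.I * k * x)‖ ≤ ∑' k, u0 k := by
    intro z hz x hx
    exact tsum_of_norm_bounded hs0.hasSum (fun k => hb0 z hz x hx k)
  exact landau_core (G := fun z x => ∑' k : ℤ, U k z * Complex.exp (Complex.I * k * x))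
    (fun z hz x hx => hM z (hsub z hz) x hx)
    (fun z hz x hx => hZ z (hsub z hz) x hx)
    (fun z hz x hx => hX z (hsub z hz) x hx)
    (fun z hz x hx => (hXX z (hsub z hz) x hx).1)

end Pool.Agent.K3h97.NB
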