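import Pool.Agent.K3h97.NB.Half

set_option autoImplicit false

open Set Filter Topology MeasureTheory

namespace Pool.Agent.K3h97.NB

variable {r : ℝ}

instance : CompactSpace (HD r) := isCompact_iff_compactSpace.1 (isCompact_HD r)

open Classical in
/-- extension by zero of a function on the half disc -/
noncomputable def ext (f : C(HD r, ℂ)) (z : ℂ) : ℂ := if h : z ∈ HD r then f ⟨z, h⟩ else 0

theorem ext_mem (f : C(HD r, ℂ)) {z : ℂ} (h : z ∈ HD r) : ext f z = f ⟨z, h⟩ := by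
  simp [ext, h]

theorem ext_norm_le (f : C(HD r, ℂ)) (z : ℂ) : ‖ext f z‖ ≤ ‖f‖ := by
  by_cases h : z ∈ HD r
  · rw [ext_mem f h]; exact f.norm_coe_le_norm _
  · simp [ext, h]

theorem continuousOn_ext (f : C(HD r, ℂ)) : ContinuousOn (ext f) (HD r) := by
  rw [continuousOn_iff_continuous_domRestrict]
  have e : (HD r).domRestrict (ext f) = f := by
    funext z
    simp only [domRestrict_apply]
    exact ext_mem f z.2
  rw [e]
  exact f.continuous

/-- scaling of points of the half disc -/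
noncomputable def sc (τ : ℝ) (z : HD r) : HD r :=
  ⟨((projIcc (0 : ℝ) 1 zero_le_one τ : ℝ) : ℂ) * z,
    smul_HD z.2 (projIcc (0 : ℝ) 1 zero_le_one τ).2.1 (projIcc (0 : ℝ) 1 zero_le_one τ).2.2⟩

theorem continuous_sc : Continuous fun p : HD r × ℝ => sc p.2 p.1 := by
  refine Continuous.subtype_mk ?_ _
  have h1 : Continuous fun p : HD r × ℝ => ((projIcc (0 : ℝ) 1 zero_le_one p.2 : Icc (0:ℝ) 1) : ℝ) :=
    continuous_subtype_val.comp (continuous_projIcc.comp continuous_snd)
  exact (Complex.continuous_ofReal.comp h1).mul (continuous_subtype_val.comp continuous_fst)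

/-- the Duhamel operator -/
noncomputable def duh (m : ℝ) (f : C(HD r, ℂ)) : C(HD r, ℂ) where
  toFun z := ∫ τ in (0 : ℝ)..1, (z : ℂ) *
    (Complex.exp (-((m : ℂ) * (1 - ((projIcc (0 : ℝ) 1 zero_le_one τ : ℝ) : ℂ)) * z)) * f (sc τ z))
  continuous_toFun := by
    refine intervalIntegral.continuous_parametric_intervalIntegral_of_continuous' ?_ 0 1
    have h1 : Continuous fun p : HD r × ℝ =>
        ((projIcc (0 : ℝ) 1 zero_le_one p.2 : Icc (0:ℝ) 1) : ℝ) :=
      continuous_subtype_val.comp (continuous_projIcc.comp continuous_snd)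
    have h2 : Continuous fun p : HD r × ℝ => (p.1 : ℂ) := continuous_subtype_val.comp continuous_fst
    have h3 := f.continuous.comp (continuous_sc (r := r))
    refine h2.mul (Continuous.mul ?_ h3)
    refine Complex.continuous_exp.comp (Continuous.neg (Continuous.mul (Continuous.mul
      continuous_const (continuous_const.sub (Complex.continuous_ofReal.comp h1))) h2))

theorem duh_apply (m : ℝ) (f : C(HD r, ℂ)) (z : HD r) : duh m f z =
    ∫ τ in (0 : ℝ)..1, (z : ℂ) *
      (Complex.exp (-((m : ℂ) * (1 - (τ : ℂ)) * z)) * ext f (τ * z)) := by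
  refine intervalIntegral.integral_congr fun τ hτ => ?_
  rw [uIcc_of_le zero_le_one] at hτ
  have hp : ((projIcc (0 : ℝ) 1 zero_le_one τ : Icc (0:ℝ) 1) : ℝ) = τ := by
    rw [projIcc_of_mem zero_le_one hτ]
  have hs : sc τ z = ⟨(τ : ℂ) * z, smul_HD z.2 hτ.1 hτ.2⟩ := by
    apply Subtype.ext
    simp only [sc, hp]
  simp only [hp, hs]
  rw [ext_mem f (smul_HD z.2 hτ.1 hτ.2)]

theorem duh_norm_le {m : ℝ} (hm : 0 ≤ m) (f : C(HD r, ℂ)) (hr : 0 ≤ r) :
    ‖duh m f‖ ≤ r * ‖f‖ := by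
  rw [ContinuousMap.norm_le _ (by positivity)]
  intro z
  rw [duh_apply]
  refine (intervalIntegral.norm_integral_le_of_norm_le_const (C := r * ‖f‖) ?_).trans (by simp)
  intro τ hτ
  rw [uIoc_of_le zero_le_one] at hτ
  rw [norm_mul, norm_mul]
  refine mul_le_mul z.2.2 ?_ (by positivity) hr
  have h1 : ‖Complex.exp (-((m : ℂ) * (1 - (τ : ℂ)) * z))‖ ≤ 1 := by
    rw [Complex.norm_exp, Real.exp_le_one_iff]
    have e : (-((m : ℂ) * (1 - (τ : ℂ)) * z)).re = -(m * (1 - τ) * (z : ℂ).re) := by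
      have : (m : ℂ) * (1 - (τ : ℂ)) = ((m * (1 - τ) : ℝ) : ℂ) := by push_cast; ring
      rw [this, Complex.neg_re, Complex.re_ofReal_mul]
    rw [e]
    have := mul_nonneg (mul_nonneg hm (sub_nonneg.2 hτ.2)) z.2.1
    linarith
  calc _ ≤ 1 * ‖f‖ := mul_le_mul h1 (ext_norm_le f _) (norm_nonneg _) zero_le_one
    _ = ‖f‖ := one_mul _

theorem duh_sub (m : ℝ) (f g : C(HD r, ℂ)) : duh m f - duh m g = duh m (f - g) := by
  ext z
  have hint : ∀ f : C(HD r, ℂ), IntervalIntegrable (fun τ : ℝ => (z : ℂ) *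
    (Complex.exp (-((m : ℂ) * (1 - ((projIcc (0 : ℝ) 1 zero_le_one τ : ℝ) : ℂ)) * z)) *
      f (sc τ z))) volume 0 1 := by
    intro f
    refine Continuous.intervalIntegrable ?_ _ _
    have h1 : Continuous fun τ : ℝ => ((projIcc (0 : ℝ) 1 zero_le_one τ : Icc (0:ℝ) 1) : ℝ) :=
      continuous_subtype_val.comp continuous_projIcc
    have h3 : Continuous fun τ : ℝ => f (sc τ z) :=
      f.continuous.comp ((continuous_sc (r := r)).comp (continuous_const.prodMk continuous_id))
    refine continuous_const.mul (Continuous.mul ?_ h3)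
    exact Complex.continuous_exp.comp (Continuous.neg (Continuous.mul (Continuous.mul
      continuous_const (continuous_const.sub (Complex.continuous_ofReal.comp h1)))
      continuous_const))
  have e1 : ∀ f : C(HD r, ℂ), duh m f z = ∫ τ in (0 : ℝ)..1, (z : ℂ) *
    (Complex.exp (-((m : ℂ) * (1 - ((projIcc (0 : ℝ) 1 zero_le_one τ : ℝ) : ℂ)) * z)) *
      f (sc τ z)) := fun f => rfl
  rw [ContinuousMap.sub_apply, e1, e1, e1, ← intervalIntegral.integral_sub (hint f) (hint g)]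
  refine intervalIntegral.integral_congr fun τ _ => ?_
  simp only [ContinuousMap.sub_apply]
  ring

theorem duh_zero (m : ℝ) : duh m (0 : C(HD r, ℂ)) = 0 := by
  have := duh_sub m (0 : C(HD r, ℂ)) 0
  simpa using this.symm

theorem duh_lip {m : ℝ} (hm : 0 ≤ m) (hr : 0 ≤ r) (f g : C(HD r, ℂ)) :
    ‖duh m f - duh m g‖ ≤ r * ‖f - g‖ := by
  rw [duh_sub]; exact duh_norm_le hm _ hr

theorem duh_eq (m : ℝ) (f : C(HD r, ℂ)) (z : HD r) : duh m f z =
    Complex.exp (-((m : ℂ) * z)) *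
      ∫ τ in (0 : ℝ)..1, (z : ℂ) * (fun s : ℂ => Complex.exp (m * s) * ext f s) (τ * z) := by
  rw [duh_apply, ← intervalIntegral.integral_const_mul]
  refine intervalIntegral.integral_congr fun τ _ => ?_
  have : Complex.exp (-((m : ℂ) * (1 - (τ : ℂ)) * z)) =
      Complex.exp (-((m : ℂ) * z)) * Complex.exp (m * (τ * z)) := by
    rw [← Complex.exp_add]; congr 1; ring
  simp only [this]
  ring

theorem ext_duh_differentiableOn (m : ℝ) {f : C(HD r, ℂ)}
    (hf : DifferentiableOn ℂ (ext f) (HO r)) : DifferentiableOn ℂ (ext (duh m f)) (HO r) := by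
  intro z hz
  have hg : ContinuousOn (fun s : ℂ => Complex.exp (m * s) * ext f s) (HD r) :=
    (Continuous.continuousOn (by fun_prop)).mul (continuousOn_ext f)
  have hgd : DifferentiableOn ℂ (fun s : ℂ => Complex.exp (m * s) * ext f s) (HO r) :=
    (Differentiable.differentiableOn (by fun_prop)).mul hf
  have h1 := prim hg hgd hz
  have h2 : HasDerivAt (fun z : ℂ => Complex.exp (-((m : ℂ) * z)))
      (Complex.exp (-((m : ℂ) * z)) * -(m * 1)) z :=
    (((hasDerivAt_id z).const_mul (m : ℂ)).neg).cexp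
  have h3 := (h2.mul h1).differentiableAt
  refine (h3.congr_of_eventuallyEq ?_).differentiableWithinAt
  filter_upwards [HD_mem_nhds hz] with w hw
  rw [ext_mem _ hw, duh_eq]
  rfl

/-- analyticity in the interior -/
def An (f : ℤ → C(HD r, ℂ)) : Prop := ∀ k, DifferentiableOn ℂ (ext (f k)) (HO r)

theorem an_lim (f : ℕ → ℤ → C(HD r, ℂ)) (g : ℤ → C(HD r, ℂ)) (hf : ∀ n, An (f n))
    (h : ∀ k, Tendsto (fun n => f n k) atTop (𝓝 (g k))) : An g := by
  intro k
  have hu : TendstoUniformlyOn (fun n => ext (f n k)) (ext (g k)) atTop (HO r) := by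
    rw [Metric.tendstoUniformlyOn_iff]
    intro ε hε
    have := (tendsto_iff_norm_sub_tendsto_zero.1 (h k)).eventually (gt_mem_nhds hε)
    filter_upwards [this] with n hn z hz
    rw [ext_mem _ (HO_subset_HD r hz), ext_mem _ (HO_subset_HD r hz), dist_eq_norm, norm_sub_rev]
    exact ((f n k - g k).norm_coe_le_norm ⟨z, HO_subset_HD r hz⟩).trans_lt hn
  exact hu.tendstoLocallyUniformlyOn.differentiableOn
    (Eventually.of_forall fun n => hf n k) (isOpen_HO r)

theorem tsum_eval {x : ℤ → C(HD r, ℂ)} (hx : Summable fun l => ‖x l‖) (z : HD r) :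
    (∑' l, x l) z = ∑' l, x l z := (ContinuousMap.tsum_apply hx.of_norm z).symm

theorem ext_tsum_differentiableOn {x : ℤ → C(HD r, ℂ)} (hx : Summable fun l => ‖x l‖)
    (hd : ∀ l, DifferentiableOn ℂ (ext (x l)) (HO r)) :
    DifferentiableOn ℂ (ext (∑' l, x l)) (HO r) := by
  have h1 : DifferentiableOn ℂ (fun z => ∑' l, ext (x l) z) (HO r) :=
    Complex.differentiableOn_tsum_of_summable_norm hx hd (isOpen_HO r) fun l z _ => ext_norm_le _ _
  refine h1.congr fun z hz => ?_
  rw [ext_mem _ (HO_subset_HD r hz), tsum_eval hx]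
  exact tsum_congr fun l => (ext_mem _ _).symm

theorem ext_mul (f g : C(HD r, ℂ)) {z : ℂ} (hz : z ∈ HD r) :
    ext (f * g) z = ext f z * ext g z := by
  rw [ext_mem _ hz, ext_mem _ hz, ext_mem _ hz]; rfl

theorem ext_mul_differentiableOn {f g : C(HD r, ℂ)} (hf : DifferentiableOn ℂ (ext f) (HO r))
    (hg : DifferentiableOn ℂ (ext g) (HO r)) : DifferentiableOn ℂ (ext (f * g)) (HO r) :=
  (hf.mul hg).congr fun _ hz => ext_mul f g (HO_subset_HD r hz)

theorem ext_add_differentiableOn {f g : C(HD r, ℂ)} (hf : DifferentiableOn ℂ (ext f) (HO r))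
    (hg : DifferentiableOn ℂ (ext g) (HO r)) : DifferentiableOn ℂ (ext (f + g)) (HO r) := by
  refine (hf.add hg).congr fun z hz => ?_
  have hz' := HO_subset_HD r hz
  simp only [Pi.add_apply]
  rw [ext_mem _ hz', ext_mem _ hz', ext_mem _ hz']; rfl

/-- the weights -/
noncomputable def wt (b : ℝ) (l j : ℤ) : ℝ := Real.exp (b * (|((l + j : ℤ) : ℝ)| - |(l : ℝ)| - |(j : ℝ)|))

theorem wt_le_one {b : ℝ} (hb : 0 ≤ b) (l j : ℤ) : wt b l j ≤ 1 := by
  unfold wt
  rw [Real.exp_le_one_iff]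
  have : |((l + j : ℤ) : ℝ)| ≤ |(l : ℝ)| + |(j : ℝ)| := by
    push_cast; exact abs_add_le _ _
  exact mul_nonpos_of_nonneg_of_nonpos hb (by linarith)

/-- local solutions in complex time, for initial values in a weighted space -/
theorem local_sol {b M : ℝ} (hb : 0 ≤ b) (hM : 0 < M) (hr : 0 ≤ r) (hrM : 8 * r * M ≤ 1)
    {c : ℤ → ℂ} (hc : Bd (fun k => ((Real.exp (b * |(k : ℝ)|) : ℝ) : ℂ) * c k) M) :
    ∃ U : ℤ → ℂ → ℂ, (∀ k, ContinuousOn (U k) (HD r)) ∧ (∀ k, U k 0 = c k) ∧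
      (∀ z ∈ HD r, Bd (fun k => ((Real.exp (b * |(k : ℝ)|) : ℝ) : ℂ) * U k z) (2 * M)) ∧
      (∀ k, ∀ z ∈ HD r, ‖z‖ < r → HasDerivWithinAt (U k)
        (-((k : ℂ) ^ 2) * U k z + conv (fun l => U l z) (fun l => U l z) k) (HD r) z) := by
  classical
  set W : ℤ → ℤ → C(HD r, ℂ) := fun l j => ContinuousMap.const _ ((wt b l j : ℝ) : ℂ) with hW
  have hW1 : ∀ l j, ‖W l j‖ ≤ 1 := by
    intro l j
    rw [ContinuousMap.norm_le _ zero_le_one]
    intro z
    simp only [hW, ContinuousMap.const_apply, Complex.norm_real]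
    have h0 : 0 ≤ wt b l j := (Real.exp_pos _).le
    rw [Real.norm_of_nonneg h0]
    exact wt_le_one hb l j
  set A : ℤ → C(HD r, ℂ) := fun k =>
    ⟨fun z => ((Real.exp (b * |(k : ℝ)|) : ℝ) : ℂ) * c k * Complex.exp (-((k : ℂ) ^ 2 * z)), by
      fun_prop⟩ with hA
  have hAb : Bd A M := by
    refine hc.of_le fun k => ?_
    rw [ContinuousMap.norm_le _ (norm_nonneg _)]
    intro z
    change ‖((Real.exp (b * |(k : ℝ)|) : ℝ) : ℂ) * c k * Complex.exp (-((k : ℂ) ^ 2 * z))‖ ≤ _
    rw [norm_mul]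
    refine mul_le_of_le_one_right (norm_nonneg _) ?_
    rw [Complex.norm_exp, Real.exp_le_one_iff]
    have e : (-((k : ℂ) ^ 2 * (z : ℂ))).re = -((k : ℝ) ^ 2 * (z : ℂ).re) := by
      have : ((k : ℂ) ^ 2) = (((k : ℝ) ^ 2 : ℝ) : ℂ) := by push_cast; rfl
      rw [this, Complex.neg_re, Complex.re_ofReal_mul]
    rw [e]
    have := mul_nonneg (sq_nonneg (k : ℝ)) z.2.1
    linarith
  obtain ⟨g, hg2, hgeq, hgan⟩ := fix (A := C(HD r, ℂ)) hW1 (L := fun k f => duh ((k : ℝ) ^ 2) f)
    hr hM (fun k => duh_zero _) (fun k x y => duh_lip (by positivity) hr x y) hrM hAb An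
    (by
      intro k
      have : DifferentiableOn ℂ (fun z : ℂ => ((Real.exp (b * |(k : ℝ)|) : ℝ) : ℂ) * c k *
          Complex.exp (-((k : ℂ) ^ 2 * z))) (HO r) :=
        Differentiable.differentiableOn (by fun_prop)
      exact this.congr fun z hz => ext_mem _ (HO_subset_HD r hz))
    (by
      intro f hf hfan k
      refine ext_add_differentiableOn ?_ (ext_duh_differentiableOn _ ?_)
      · have : DifferentiableOn ℂ (fun z : ℂ => ((Real.exp (b * |(k : ℝ)|) : ℝ) : ℂ) * c k *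
            Complex.exp (-((k : ℂ) ^ 2 * z))) (HO r) :=
          Differentiable.differentiableOn (by fun_prop)
        exact this.congr fun z hz => ext_mem _ (HO_subset_HD r hz)
      · refine ext_tsum_differentiableOn (wconv_summable hW1 hf hf k) fun l => ?_
        refine ext_mul_differentiableOn (ext_mul_differentiableOn ?_ (hfan l)) (hfan (k - l))
        have : DifferentiableOn ℂ (fun _ : ℂ => ((wt b l (k - l) : ℝ) : ℂ)) (HO r) :=
          differentiableOn_const _
        exact this.congr fun z hz => ext_mem _ (HO_subset_HD r hz))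
    an_lim
  have he : ∀ k : ℤ, ((Real.exp (b * |(k : ℝ)|) : ℝ) : ℂ) *
      ((Real.exp (-(b * |(k : ℝ)|)) : ℝ) : ℂ) = 1 := by
    intro k
    rw [← Complex.ofReal_mul, ← Real.exp_add, add_neg_cancel, Real.exp_zero, Complex.ofReal_one]
  set U : ℤ → ℂ → ℂ := fun k z => ((Real.exp (-(b * |(k : ℝ)|)) : ℝ) : ℂ) * ext (g k) z with hU
  have hUg : ∀ (k : ℤ) (z : ℂ), ((Real.exp (b * |(k : ℝ)|) : ℝ) : ℂ) * U k z = ext (g k) z := by
    intro k z
    simp only [hU]
    rw [← mul_assoc, he, one_mul]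
  have hUc : ∀ k, ContinuousOn (U k) (HD r) := fun k =>
    continuousOn_const.mul (continuousOn_ext (g k))
  have hUb : ∀ z ∈ HD r, Bd (fun k => ((Real.exp (b * |(k : ℝ)|) : ℝ) : ℂ) * U k z) (2 * M) := by
    intro z hz
    refine hg2.of_le fun k => ?_
    rw [hUg]
    exact ext_norm_le _ _
  -- the source term
  have hsrc : ∀ k : ℤ, ∀ z ∈ HD r, ((Real.exp (-(b * |(k : ℝ)|)) : ℝ) : ℂ) *
      ext (wconv W g g k) z = conv (fun l => U l z) (fun l => U l z) k := by
    intro k z hz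
    rw [ext_mem _ hz]
    unfold wconv conv
    rw [tsum_eval (wconv_summable hW1 hg2 hg2 k), ← tsum_mul_left]
    refine tsum_congr fun l => ?_
    have e1 : (W l (k - l) * g l * g (k - l)) ⟨z, hz⟩ =
        ((wt b l (k - l) : ℝ) : ℂ) * ext (g l) z * ext (g (k - l)) z := by
      rw [ext_mem _ hz, ext_mem _ hz]; rfl
    rw [e1]
    simp only [hU]
    have e2 : Real.exp (-(b * |(k : ℝ)|)) * wt b l (k - l) =
        Real.exp (-(b * |(l : ℝ)|)) * Real.exp (-(b * |((k - l : ℤ) : ℝ)|)) := by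
      unfold wt
      rw [← Real.exp_add, ← Real.exp_add]
      congr 1
      have : ((l + (k - l) : ℤ) : ℝ) = k := by push_cast; ring
      rw [this]
      ring
    have e3 : ((Real.exp (-(b * |(k : ℝ)|)) : ℝ) : ℂ) * ((wt b l (k - l) : ℝ) : ℂ) =
        ((Real.exp (-(b * |(l : ℝ)|)) : ℝ) : ℂ) *
          ((Real.exp (-(b * |((k - l : ℤ) : ℝ)|)) : ℝ) : ℂ) := by
      rw [← Complex.ofReal_mul, e2, Complex.ofReal_mul]
    linear_combination (ext (g l) z * ext (g (k - l)) z) * e3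
  have hUeq : ∀ k, ∀ z ∈ HD r, U k z = Complex.exp (-((k : ℂ) ^ 2 * z)) * (c k +
      ∫ τ in (0 : ℝ)..1, z * (fun s : ℂ => Complex.exp ((k : ℂ) ^ 2 * s) *
        (((Real.exp (-(b * |(k : ℝ)|)) : ℝ) : ℂ) * ext (wconv W g g k) s)) (τ * z)) := by
    intro k z hz
    have h1 : g k ⟨z, hz⟩ = A k ⟨z, hz⟩ + duh ((k : ℝ) ^ 2) (wconv W g g k) ⟨z, hz⟩ :=
      congrArg (fun f : C(HD r, ℂ) => f ⟨z, hz⟩) (hgeq k)
    simp only [hU]
    rw [ext_mem _ hz, h1, duh_eq]
    have e1 : A k ⟨z, hz⟩ = ((Real.exp (b * |(k : ℝ)|) : ℝ) : ℂ) * c k *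
      Complex.exp (-((k : ℂ) ^ 2 * z)) := rfl
    rw [e1, mul_add (Complex.exp _) (c k)]
    have e2 : (∫ τ in (0 : ℝ)..1, z * (fun s : ℂ => Complex.exp ((k : ℂ) ^ 2 * s) *
        (((Real.exp (-(b * |(k : ℝ)|)) : ℝ) : ℂ) * ext (wconv W g g k) s)) (τ * z)) =
      ((Real.exp (-(b * |(k : ℝ)|)) : ℝ) : ℂ) * ∫ τ in (0 : ℝ)..1, z *
        (fun s : ℂ => Complex.exp ((((k : ℝ) ^ 2 : ℝ) : ℂ) * s) * ext (wconv W g g k) s)
          (τ * z) := by
      rw [← intervalIntegral.integral_const_mul]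
      refine intervalIntegral.integral_congr fun τ _ => ?_
      push_cast
      ring
    rw [e2]
    push_cast
    have := he k
    push_cast at this
    linear_combination (c k * Complex.exp (-((k : ℂ) ^ 2 * z))) * this
  refine ⟨U, hUc, ?_, hUb, ?_⟩
  · intro k
    have h0 : (0 : ℂ) ∈ HD r := ⟨by simp, by simpa using hr⟩
    rw [hUeq k 0 h0]
    simp
  · intro k z hz hzr
    set q : ℂ → ℂ := fun s => Complex.exp ((k : ℂ) ^ 2 * s) *
        (((Real.exp (-(b * |(k : ℝ)|)) : ℝ) : ℂ) * ext (wconv W g g k) s) with hq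
    have hqc : ContinuousOn q (HD r) :=
      (Continuous.continuousOn (by fun_prop)).mul
        (continuousOn_const.mul (continuousOn_ext _))
    have hwan : DifferentiableOn ℂ (ext (wconv W g g k)) (HO r) := by
      refine ext_tsum_differentiableOn (wconv_summable hW1 hg2 hg2 k) fun l => ?_
      refine ext_mul_differentiableOn (ext_mul_differentiableOn ?_ (hgan l)) (hgan (k - l))
      have : DifferentiableOn ℂ (fun _ : ℂ => ((wt b l (k - l) : ℝ) : ℂ)) (HO r) :=
        differentiableOn_const _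
      exact this.congr fun z hz => ext_mem _ (HO_subset_HD r hz)
    have hqd : DifferentiableOn ℂ q (HO r) :=
      (Differentiable.differentiableOn (by fun_prop)).mul (hwan.const_mul _)
    -- continuity of the primitive
    have hPc : ContinuousOn (fun z : ℂ => ∫ τ in (0 : ℝ)..1, z * q (τ * z)) (HD r) := by
      have h1 : ContinuousOn (fun z => Complex.exp ((k : ℂ) ^ 2 * z) * U k z - c k) (HD r) :=
        ((Continuous.continuousOn (by fun_prop)).mul (hUc k)).sub continuousOn_const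
      refine h1.congr fun w hw => ?_
      simp only []
      rw [hUeq k w hw, ← mul_assoc, ← Complex.exp_add, add_neg_cancel, Complex.exp_zero, one_mul,
        add_sub_cancel_left]
    have h1 := within hPc hqc (fun z hz => prim hqc hqd hz) hz hzr
    have h2 : HasDerivWithinAt (fun z : ℂ => Complex.exp (-((k : ℂ) ^ 2 * z)))
        (Complex.exp (-((k : ℂ) ^ 2 * z)) * -((k : ℂ) ^ 2 * 1)) (HD r) z :=
      (((hasDerivAt_id z).const_mul ((k : ℂ) ^ 2)).neg).cexp.hasDerivWithinAt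
    have h3 := h2.mul (h1.const_add (c k))
    refine (h3.congr_of_mem (fun w hw => ?_) hz).congr_deriv ?_
    · exact hUeq k w hw
    · rw [hUeq k z hz, ← hsrc k z hz]
      have : Complex.exp (-((k : ℂ) ^ 2 * z)) * Complex.exp ((k : ℂ) ^ 2 * z) = 1 := by
        rw [← Complex.exp_add]; simp
      simp only [hq]
      linear_combination (((Real.exp (-(b * |(k : ℝ)|)) : ℝ) : ℂ) * ext (wconv W g g k) z) * this

end Pool.Agent.K3h97.NB
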