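import Pool.Agent.K3h97.NB.Ray

set_option autoImplicit false

open Set Filter Topology MeasureTheory

namespace Pool.Agent.K3h97.NB

/-- the family multiplied by the weights `e^{b|k|}` -/
noncomputable def wf (b : ℝ) (x : ℤ → ℂ) (k : ℤ) : ℂ := ((Real.exp (b * |(k : ℝ)|) : ℝ) : ℂ) * x k

theorem glue {ω : ℂ} {t δ : ℝ} (ht : 0 ≤ t) (hδ : 0 ≤ δ) {x y : ℝ → ℤ → ℂ}
    (hx : Sol ω (Icc 0 t) x) (hy : Sol ω (Icc 0 δ) y) (h : y 0 = x t) :
    Sol ω (Icc 0 (t + δ)) (fun s => if s ≤ t then x s else y (s - t)) := by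
  intro k s hs
  have hu : Icc 0 (t + δ) = Icc 0 t ∪ Icc t (t + δ) :=
    (Icc_union_Icc_eq_Icc ht (by linarith)).symm
  rw [hu]
  refine HasDerivWithinAt.union ?_ ?_
  · by_cases hst : s ≤ t
    · have h1 := hx k s ⟨hs.1, hst⟩
      simp only [if_pos hst]
      refine h1.congr (fun r hr => ?_) ?_
      · simp only [if_pos hr.2]
      · simp only [if_pos hst]
    · refine HasFDerivWithinAt.of_notMem_closure ?_
      rw [isClosed_Icc.closure_eq]
      exact fun h => hst h.2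
  · by_cases hst : t ≤ s
    · have h1 := hy k (s - t) ⟨by linarith, by linarith [hs.2]⟩
      have h2 : HasDerivWithinAt (fun r : ℝ => r - t) 1 (Icc t (t + δ)) s :=
        ((hasDerivAt_id s).sub_const t).hasDerivWithinAt
      have h3 := h1.scomp s h2 (show MapsTo (fun r : ℝ => r - t) (Icc t (t + δ)) (Icc 0 δ) from
        fun r hr => ⟨by linarith [hr.1], by linarith [hr.2]⟩)
      have hz : ∀ r, t ≤ r → (if r ≤ t then x r else y (r - t)) = y (r - t) := by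
        intro r hr
        by_cases hrt : r ≤ t
        · have : r = t := le_antisymm hrt hr
          subst this
          rw [if_pos le_rfl, sub_self, h]
        · rw [if_neg hrt]
      beta_reduce
      rw [hz s hst]
      have h4 : HasDerivWithinAt (fun r => y (r - t) k)
          (ω * (-((k : ℂ) ^ 2) * y (s - t) k + conv (y (s - t)) (y (s - t)) k))
          (Icc t (t + δ)) s := by
        refine h3.congr_deriv ?_
        simp
      refine h4.congr (fun r hr => ?_) ?_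
      · simp only [hz r hr.1]
      · simp only [hz s hst]
    · refine HasFDerivWithinAt.of_notMem_closure ?_
      rw [isClosed_Icc.closure_eq]
      exact fun h => hst h.1

/-- local solutions in real time in weighted norms -/
theorem local_real {b : ℝ} (hb : 0 ≤ b) {c : ℤ → ℂ} {M : ℝ} (hM : 0 < M) (hc : Bd (wf b c) M) :
    ∃ x : ℝ → ℤ → ℂ, x 0 = c ∧ Sol Complex.I (Icc 0 (1 / (16 * M))) x ∧
      ∀ s ∈ Icc 0 (1 / (16 * M)), Bd (wf b (x s)) (2 * M) := by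
  obtain ⟨U, _, h2, h3, h4⟩ := local_sol (b := b) (M := M) (r := 1 / (8 * M)) hb hM
    (by positivity) (le_of_eq (by field_simp)) (c := c) hc
  have hlt : (1 : ℝ) / (16 * M) < 1 / (8 * M) := by
    apply one_div_lt_one_div_of_lt (by positivity)
    linarith
  have hn : ∀ s ∈ Icc 0 (1 / (16 * M)), ‖Complex.I * (s : ℂ)‖ = s := by
    intro s hs
    rw [norm_mul, Complex.norm_I, one_mul, Complex.norm_real, Real.norm_of_nonneg hs.1]
  have hmem : ∀ s ∈ Icc 0 (1 / (16 * M)), Complex.I * (s : ℂ) ∈ HD (1 / (8 * M)) := by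
    intro s hs
    refine ⟨by simp, ?_⟩
    rw [hn s hs]; linarith [hs.2]
  refine ⟨fun s k => U k (Complex.I * s), ?_, ?_, fun s hs => h3 _ (hmem s hs)⟩
  · funext k
    simpa using h2 k
  · intro k s hs
    have h5 := h4 k _ (hmem s hs) (by rw [hn s hs]; linarith [hs.2])
    have h6 : HasDerivWithinAt (fun s : ℝ => Complex.I * (s : ℂ)) Complex.I
        (Icc 0 (1 / (16 * M))) s := by
      have : HasDerivAt (fun s : ℝ => Complex.I * (s : ℂ)) (Complex.I * 1) s :=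
        (Complex.ofRealCLM.hasDerivAt (x := s)).const_mul Complex.I
      simpa using this.hasDerivWithinAt
    have h7 := h5.scomp s h6 (fun x hx => hmem x hx)
    refine h7.congr_deriv ?_
    simp only [smul_eq_mul]

theorem uniqw {b : ℝ} (hb : 0 ≤ b) {T : ℝ} {x y : ℝ → ℤ → ℂ}
    (hx : Sol Complex.I (Icc 0 T) x) (hy : Sol Complex.I (Icc 0 T) y)
    (hxb : ∃ K, ∀ t ∈ Icc 0 T, Bd (wf b (x t)) K) (hyb : ∃ K, ∀ t ∈ Icc 0 T, Bd (wf b (y t)) K)
    (h0 : x 0 = y 0) {t : ℝ} (ht : t ∈ Icc 0 T) : x t = y t := by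
  obtain ⟨K₁, h1⟩ := hxb
  obtain ⟨K₂, h2⟩ := hyb
  exact Sol.uniq re_I (by simp) hx hy (fun s hs => weight_bd hb (h1 s hs))
    (fun s hs => weight_bd hb (h2 s hs)) h0 ht

/-- maximal solutions -/
theorem exists_max {b : ℝ} (hb : 0 ≤ b) {c : ℤ → ℂ} {M₀ : ℝ} (hc : Bd (wf b c) M₀) {T₀ : ℝ}
    (hno : ¬ ∃ x : ℝ → ℤ → ℂ, x 0 = c ∧ Sol Complex.I (Icc 0 T₀) x ∧
      ∃ K, ∀ s ∈ Icc 0 T₀, Bd (wf b (x s)) K) :
    ∃ (T : ℝ) (a : ℝ → ℤ → ℂ), 0 < T ∧ a 0 = c ∧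
      (∀ t, t < T → Sol Complex.I (Icc 0 t) a ∧ ∃ K, ∀ s ∈ Icc 0 t, Bd (wf b (a s)) K) ∧
      (∀ M, ∀ᶠ t in 𝓝[<] T, ¬ Bd (wf b (a t)) M) ∧
      (∀ S, 0 ≤ S → ∀ y : ℝ → ℤ → ℂ, y 0 = c → Sol Complex.I (Icc 0 S) y →
        (∃ K, ∀ s ∈ Icc 0 S, Bd (wf b (y s)) K) → S < T ∧ ∀ t ∈ Icc 0 S, y t = a t) := by
  classical
  set E : Set ℝ := {t | 0 ≤ t ∧ ∃ x : ℝ → ℤ → ℂ, x 0 = c ∧ Sol Complex.I (Icc 0 t) x ∧
      ∃ K, ∀ s ∈ Icc 0 t, Bd (wf b (x s)) K} with hE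
  have hdown : ∀ t ∈ E, ∀ s, 0 ≤ s → s ≤ t → s ∈ E := by
    rintro t ⟨ht, x, hx0, hx, K, hK⟩ s hs0 hst
    exact ⟨hs0, x, hx0, hx.mono (Icc_subset_Icc le_rfl hst), K, fun r hr =>
      hK r ⟨hr.1, hr.2.trans hst⟩⟩
  have hbd : ∀ t ∈ E, t ≤ T₀ := by
    intro t ht
    by_contra hcon
    push Not at hcon
    obtain ⟨ht0, x, hx0, hx, K, hK⟩ := ht
    exact hno ⟨x, hx0, hx.mono (Icc_subset_Icc le_rfl hcon.le), K, fun r hr =>
      hK r ⟨hr.1, hr.2.trans hcon.le⟩⟩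
  have hBA : BddAbove E := ⟨T₀, hbd⟩
  obtain ⟨x₁, hx₁0, hx₁s, hx₁b⟩ := local_real hb (M := max M₀ 1) (by positivity)
    (hc.mono (le_max_left _ _))
  have hδE : 1 / (16 * max M₀ 1) ∈ E := ⟨by positivity, x₁, hx₁0, hx₁s, _, hx₁b⟩
  set T := sSup E with hT
  have hT0 : 0 < T := lt_of_lt_of_le (by positivity : 0 < 1 / (16 * max M₀ 1)) (le_csSup hBA hδE)
  have hmemE : ∀ t, 0 ≤ t → t < T → t ∈ E := by
    intro t ht0 ht
    obtain ⟨s, hs, hts⟩ := exists_lt_of_lt_csSup ⟨_, hδE⟩ ht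
    exact hdown s hs t ht0 hts.le
  have hchoice : ∀ t, ∃ x : ℝ → ℤ → ℂ, t ∈ E → x 0 = c ∧ Sol Complex.I (Icc 0 t) x ∧
      ∃ K, ∀ s ∈ Icc 0 t, Bd (wf b (x s)) K := by
    intro t
    by_cases h : t ∈ E
    · obtain ⟨_, x, hx⟩ := h
      exact ⟨x, fun _ => hx⟩
    · exact ⟨fun _ _ => 0, fun h' => (h h').elim⟩
  choose F hF using hchoice
  set a : ℝ → ℤ → ℂ := fun t => F t t with ha
  have haF : ∀ t, 0 ≤ t → t < T → ∀ s ∈ Icc 0 t, a s = F t s := by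
    intro t ht0 ht s hs
    obtain ⟨h1, h2, h3⟩ := hF t (hmemE t ht0 ht)
    obtain ⟨h4, h5, h6⟩ := hF s (hmemE s hs.1 (lt_of_le_of_lt hs.2 ht))
    obtain ⟨K, hK⟩ := h3
    exact uniqw hb h5 (h2.mono (Icc_subset_Icc le_rfl hs.2)) h6
      ⟨K, fun r hr => hK r ⟨hr.1, hr.2.trans hs.2⟩⟩ (h4.trans h1.symm) ⟨hs.1, le_rfl⟩
  have ha0 : a 0 = c := (hF 0 (hmemE 0 le_rfl hT0)).1
  have hasol : ∀ t, t < T → Sol Complex.I (Icc 0 t) a ∧ ∃ K, ∀ s ∈ Icc 0 t, Bd (wf b (a s)) K := by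
    intro t ht
    by_cases ht0 : 0 ≤ t
    · obtain ⟨h1, h2, K, h3⟩ := hF t (hmemE t ht0 ht)
      refine ⟨?_, K, fun s hs => ?_⟩
      · intro k s hs
        have h4 := h2 k s hs
        rw [haF t ht0 ht s hs]
        refine h4.congr (fun r hr => ?_) ?_
        · rw [haF t ht0 ht r hr]
        · rw [haF t ht0 ht s hs]
      · rw [haF t ht0 ht s hs]
        exact h3 s hs
    · have he : Icc 0 t = (∅ : Set ℝ) := Icc_eq_empty ht0
      refine ⟨?_, 0, ?_⟩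
      · rw [he]; intro k s hs; exact hs.elim
      · rw [he]; intro s hs; exact hs.elim
  have hblow : ∀ M, ∀ᶠ t in 𝓝[<] T, ¬ Bd (wf b (a t)) M := by
    intro M
    set M' := max M 1 with hM'
    have hM'0 : 0 < M' := by positivity
    have hδ : 0 < 1 / (16 * M') := by positivity
    have hev : ∀ᶠ t in 𝓝[<] T, max 0 (T - 1 / (16 * M')) < t ∧ t < T := by
      refine (Ioo_mem_nhdsLT ?_)
      exact max_lt hT0 (by linarith)
    filter_upwards [hev] with t ht hB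
    have ht0 : 0 < t := lt_of_le_of_lt (le_max_left _ _) ht.1
    have ht1 : T - 1 / (16 * M') < t := lt_of_le_of_lt (le_max_right _ _) ht.1
    obtain ⟨y, hy0, hys, hyb⟩ := local_real hb hM'0 (hB.mono (le_max_left _ _))
    obtain ⟨h1, K, hK⟩ := hasol t ht.2
    have hmem : t + 1 / (16 * M') ∈ E := by
      refine ⟨by positivity, _, ?_, glue ht0.le hδ.le h1 hys hy0, max K (2 * M'), ?_⟩
      · simp only [if_pos ht0.le]
        exact ha0
      · intro s hs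
        by_cases hst : s ≤ t
        · simp only [if_pos hst]
          exact (hK s ⟨hs.1, hst⟩).mono (le_max_left _ _)
        · simp only [if_neg hst]
          push Not at hst
          exact (hyb (s - t) ⟨by linarith, by linarith [hs.2]⟩).mono (le_max_right _ _)
    have := le_csSup hBA hmem
    linarith
  refine ⟨T, a, hT0, ha0, hasol, hblow, ?_⟩
  intro S hS0 y hy0 hys hyb
  have huq : ∀ t, 0 ≤ t → t ≤ S → t < T → y t = a t := by
    intro t ht0 htS htT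
    obtain ⟨h1, h2⟩ := hasol t htT
    obtain ⟨K, hK⟩ := hyb
    exact uniqw hb (hys.mono (Icc_subset_Icc le_rfl htS)) h1
      ⟨K, fun r hr => hK r ⟨hr.1, hr.2.trans htS⟩⟩ h2 (hy0.trans ha0.symm) ⟨ht0, le_rfl⟩
  have hST : S < T := by
    by_contra hcon
    push Not at hcon
    obtain ⟨K, hK⟩ := hyb
    have hev : ∀ᶠ t in 𝓝[<] T, 0 < t ∧ t < T := Ioo_mem_nhdsLT hT0
    obtain ⟨t, ht1, ht2⟩ := ((hblow K).and hev).exists
    apply ht1
    rw [← huq t ht2.1.le (by linarith) ht2.2]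
    exact hK t ⟨ht2.1.le, by linarith⟩
  exact ⟨hST, fun t ht => huq t ht.1 ht.2 (lt_of_le_of_lt ht.2 hST)⟩

end Pool.Agent.K3h97.NB
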