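import Pool.Agent.K3h97.NB.Loc

set_option autoImplicit false

open Set Filter Topology MeasureTheory

namespace Pool.Agent.K3h97.NB

/-- `U` is a solution in complex time on the half disc of radius `r`, of norm at most `C` -/
structure CS (r C : ℝ) (U : ℤ → ℂ → ℂ) : Prop where
  bd : ∀ z ∈ HD r, Bd (fun k => U k z) C
  der : ∀ k, ∀ z ∈ HD r, ‖z‖ < r → HasDerivWithinAt (U k)
    (-((k : ℂ) ^ 2) * U k z + conv (fun l => U l z) (fun l => U l z) k) (HD r) z

theorem weight_bd {b C : ℝ} (hb : 0 ≤ b) {x : ℤ → ℂ}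
    (h : Bd (fun k => ((Real.exp (b * |(k : ℝ)|) : ℝ) : ℂ) * x k) C) : Bd x C := by
  refine h.of_le fun k => ?_
  rw [norm_mul, Complex.norm_real, Real.norm_of_nonneg (Real.exp_pos _).le]
  exact le_mul_of_one_le_left (norm_nonneg _) (Real.one_le_exp (by positivity))

/-- local solutions without weights -/
theorem exists_CS {M : ℝ} (hM : 0 < M) {c : ℤ → ℂ} (hc : Bd c M) :
    ∃ U : ℤ → ℂ → ℂ, CS (1 / (8 * M)) (2 * M) U ∧ (∀ k, U k 0 = c k) := by
  obtain ⟨U, _, h2, h3, h4⟩ := local_sol (b := 0) (M := M) (r := 1 / (8 * M)) le_rfl hM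
    (by positivity) (le_of_eq (by field_simp)) (c := c) (by simpa using hc)
  exact ⟨U, ⟨fun z hz => by simpa using h3 z hz, h4⟩, h2⟩

theorem CS.ray {r C : ℝ} {U : ℤ → ℂ → ℂ} (h : CS r C U) {z₀ ω : ℂ} {L : ℝ}
    (hmem : ∀ s ∈ Icc 0 L, z₀ + ω * s ∈ HD r) (hlt : ∀ s ∈ Icc 0 L, ‖z₀ + ω * s‖ < r) :
    Sol ω (Icc 0 L) (fun s k => U k (z₀ + ω * s)) := by
  intro k s hs
  have h1 := h.der k _ (hmem s hs) (hlt s hs)
  have h2 : HasDerivWithinAt (fun s : ℝ => z₀ + ω * (s : ℂ)) ω (Icc 0 L) s := by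
    have : HasDerivAt (fun s : ℝ => z₀ + ω * (s : ℂ)) (ω * 1) s :=
      ((Complex.ofRealCLM.hasDerivAt (x := s)).const_mul ω).const_add z₀
    simpa using this.hasDerivWithinAt
  have h3 := h1.scomp s h2 (fun x hx => hmem x hx)
  refine h3.congr_deriv ?_
  simp only [smul_eq_mul]

theorem Sol.shift {ω : ℂ} {T : ℝ} {x : ℝ → ℤ → ℂ} (hx : Sol ω (Icc 0 T) x) {t₀ : ℝ}
    (h0 : 0 ≤ t₀) : Sol ω (Icc 0 (T - t₀)) (fun s => x (t₀ + s)) := by
  intro k s hs
  have h1 := hx k (t₀ + s) ⟨by linarith [hs.1], by linarith [hs.2]⟩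
  have h2 : HasDerivWithinAt (fun s : ℝ => t₀ + s) 1 (Icc 0 (T - t₀)) s :=
    ((hasDerivAt_id s).const_add t₀).hasDerivWithinAt
  have h3 := h1.scomp s h2 (fun y hy => ⟨by linarith [hy.1], by linarith [hy.2]⟩)
  refine h3.congr_deriv ?_
  simp

/-- the norm at most doubles in a short time -/
theorem locbd {ω : ℂ} (hω : 0 ≤ ω.re) (hω1 : ‖ω‖ = 1) {T K M : ℝ} {x : ℝ → ℤ → ℂ}
    (hx : Sol ω (Icc 0 T) x) (hK : ∀ t ∈ Icc 0 T, Bd (x t) K) (hM : 0 < M) {t₀ t : ℝ}
    (ht₀ : 0 ≤ t₀) (h0 : Bd (x t₀) M) (ht : t₀ ≤ t) (htT : t ≤ T) (hlt : t - t₀ < 1 / (8 * M)) :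
    Bd (x t) (2 * M) := by
  obtain ⟨U, hU, hU0⟩ := exists_CS hM h0
  have hmem : ∀ s ∈ Icc 0 (t - t₀), (0 : ℂ) + ω * s ∈ HD (1 / (8 * M)) ∧
      ‖(0 : ℂ) + ω * s‖ < 1 / (8 * M) := by
    intro s hs
    have hn : ‖(0 : ℂ) + ω * s‖ = s := by
      rw [zero_add, norm_mul, hω1, one_mul, Complex.norm_real, Real.norm_of_nonneg hs.1]
    refine ⟨⟨?_, ?_⟩, ?_⟩
    · rw [zero_add, mul_comm, Complex.re_ofReal_mul]
      exact mul_nonneg hs.1 hω
    · rw [hn]; linarith [hs.2]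
    · rw [hn]; linarith [hs.2]
  have h1 := hU.ray (z₀ := 0) (ω := ω) (L := t - t₀) (fun s hs => (hmem s hs).1)
    (fun s hs => (hmem s hs).2)
  have h2 : Sol ω (Icc 0 (t - t₀)) (fun s => x (t₀ + s)) :=
    (hx.shift ht₀).mono (Icc_subset_Icc le_rfl (by linarith))
  have h3 := Sol.uniq hω hω1.le h2 h1 (K₁ := K) (K₂ := 2 * M)
    (fun s hs => hK _ ⟨by linarith [hs.1], by linarith [hs.2]⟩)
    (fun s hs => hU.bd _ (hmem s hs).1) (by
      funext k
      simp only [add_zero, Complex.ofReal_zero, mul_zero]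
      exact (hU0 k).symm) (t := t - t₀) ⟨by linarith, le_rfl⟩
  have e : t₀ + (t - t₀) = t := by ring
  simp only [e] at h3
  rw [h3]
  exact hU.bd _ (hmem (t - t₀) ⟨by linarith, le_rfl⟩).1

/-- stability of bounded solutions -/
theorem stab {ω : ℂ} (hω : 0 ≤ ω.re) (hω1 : ‖ω‖ = 1) {T K K' δ : ℝ} (hK0 : 0 ≤ K)
    {x y : ℝ → ℤ → ℂ} (hx : Sol ω (Icc 0 T) x) (hy : Sol ω (Icc 0 T) y)
    (hxK : ∀ t ∈ Icc 0 T, Bd (x t) K') (hyK : ∀ t ∈ Icc 0 T, Bd (y t) K)
    (h0 : Bd (fun k => x 0 k - y 0 k) δ) (hδ : δ * Real.exp ((3 * K + 2) * T) ≤ 1) :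
    ∀ t ∈ Icc 0 T, Bd (x t) (2 * (K + 1)) := by
  have hM : (0 : ℝ) < K + 1 := by linarith
  set r : ℝ := 1 / (16 * (K + 1)) with hr
  have hr0 : 0 < r := by positivity
  have hrlt : r < 1 / (8 * (K + 1)) := by
    rw [hr]
    apply one_div_lt_one_div_of_lt (by positivity)
    linarith
  have hδ0 := h0.nonneg
  have key : ∀ n : ℕ, ∀ t ∈ Icc 0 T, t ≤ n * r → Bd (x t) (2 * (K + 1)) := by
    intro n
    induction n with
    | zero =>
      intro t ht htn
      have ht0 : t = 0 := le_antisymm (by simpa using htn) ht.1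
      subst ht0
      have h1 : Bd (x 0) (K + δ) := by
        refine ((hyK 0 ht).add h0).of_le fun k => le_of_eq ?_
        congr 1; ring
      have h2 : δ ≤ 1 := by
        refine le_trans ?_ hδ
        exact le_mul_of_one_le_right hδ0 (Real.one_le_exp (mul_nonneg (by positivity) ht.2))
      exact h1.mono (by linarith)
    | succ n ih =>
      intro t ht htn
      by_cases hc : t ≤ n * r
      · exact ih t ht hc
      · push Not at hc
        set t₀ := (n : ℝ) * r with ht₀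
        have ht₀0 : 0 ≤ t₀ := by positivity
        have ht₀T : t₀ ≤ T := hc.le.trans ht.2
        have h1 : Bd (fun k => x t₀ k - y t₀ k) (δ * Real.exp ((2 * (K + 1) + K) * t₀)) := by
          refine Sol.diff hω hω1.le (hx.mono (Icc_subset_Icc le_rfl ht₀T))
            (hy.mono (Icc_subset_Icc le_rfl ht₀T)) (K₁ := 2 * (K + 1)) (K₂ := K) ?_ ?_ h0
            ⟨ht₀0, le_rfl⟩
          · intro s hs
            exact ih s ⟨hs.1, hs.2.trans ht₀T⟩ hs.2
          · intro s hs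
            exact hyK s ⟨hs.1, hs.2.trans ht₀T⟩
        have h2 : Bd (x t₀) (K + 1) := by
          have h3 : Bd (x t₀) (K + δ * Real.exp ((2 * (K + 1) + K) * t₀)) := by
            refine ((hyK t₀ ⟨ht₀0, ht₀T⟩).add h1).of_le fun k => le_of_eq ?_
            congr 1; ring
          refine h3.mono ?_
          have h4 : δ * Real.exp ((2 * (K + 1) + K) * t₀) ≤ δ * Real.exp ((3 * K + 2) * T) := by
            refine mul_le_mul_of_nonneg_left (Real.exp_le_exp.2 ?_) hδ0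
            have : 2 * (K + 1) + K = 3 * K + 2 := by ring
            rw [this]
            exact mul_le_mul_of_nonneg_left ht₀T (by positivity)
          linarith
        refine locbd hω hω1 hx hxK hM ht₀0 h2 hc.le ht.2 ?_
        have : t ≤ t₀ + r := by
          rw [ht₀]
          push_cast at htn
          linarith
        linarith
  intro t ht
  obtain ⟨n, hn⟩ := exists_nat_gt (t / r)
  refine key n t ht ?_
  rw [div_lt_iff₀ hr0] at hn
  exact hn.le

/-- two-sided solutions in real time -/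
def Sol2 (T : ℝ) (x : ℝ → ℤ → ℂ) : Prop :=
  ∀ k : ℤ, ∀ t, |t| < T → HasDerivAt (fun s => x s k)
    (Complex.I * (-((k : ℂ) ^ 2) * x t k + conv (x t) (x t) k)) t

theorem Sol2.pos {T : ℝ} {x : ℝ → ℤ → ℂ} (h : Sol2 T x) {t : ℝ} (ht : t < T) (hT : 0 < T) :
    Sol Complex.I (Icc 0 t) x := by
  intro k s hs
  exact (h k s (by rw [abs_lt]; constructor <;> linarith [hs.1, hs.2])).hasDerivWithinAt

theorem Sol2.neg {T : ℝ} {x : ℝ → ℤ → ℂ} (h : Sol2 T x) {t : ℝ} (ht : t < T) (hT : 0 < T) :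
    Sol (-Complex.I) (Icc 0 t) (fun s => x (-s)) := by
  intro k s hs
  have h1 := h k (-s) (by rw [abs_lt]; constructor <;> linarith [hs.1, hs.2])
  have h2 := h1.scomp s (hasDerivAt_neg s)
  refine (h2.congr_deriv ?_).hasDerivWithinAt
  simp

theorem re_negI : (0 : ℝ) ≤ (-Complex.I).re := by simp
theorem norm_negI : ‖-Complex.I‖ = 1 := by simp
theorem re_I : (0 : ℝ) ≤ (Complex.I).re := by simp

theorem uniq2 {T K₁ K₂ : ℝ} {x y : ℝ → ℤ → ℂ} (hx : Sol2 T x) (hy : Sol2 T y)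
    (h1 : ∀ t, |t| < T → Bd (x t) K₁) (h2 : ∀ t, |t| < T → Bd (y t) K₂) (h0 : x 0 = y 0)
    {t : ℝ} (ht : |t| < T) : x t = y t := by
  have hT : 0 < T := (abs_nonneg _).trans_lt ht
  have ht' := abs_lt.1 ht
  rcases le_total 0 t with h | h
  · refine Sol.uniq re_I (by simp) (hx.pos ht'.2 hT) (hy.pos ht'.2 hT) (K₁ := K₁) (K₂ := K₂) ?_ ?_
      h0 ⟨h, le_rfl⟩
    · intro s hs
      exact h1 s (by rw [abs_lt]; constructor <;> linarith [hs.1, hs.2])
    · intro s hs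
      exact h2 s (by rw [abs_lt]; constructor <;> linarith [hs.1, hs.2])
  · have h3 := Sol.uniq re_negI norm_negI.le (hx.neg (t := -t) (by linarith) hT)
      (hy.neg (t := -t) (by linarith) hT) (K₁ := K₁) (K₂ := K₂) ?_ ?_ (by simpa using h0)
      (t := -t) ⟨by linarith, le_rfl⟩
    · simpa using h3
    · intro s hs
      exact h1 (-s) (by rw [abs_lt]; constructor <;> linarith [hs.1, hs.2])
    · intro s hs
      exact h2 (-s) (by rw [abs_lt]; constructor <;> linarith [hs.1, hs.2])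

theorem conj_conv (x y : ℤ → ℂ) (k : ℤ) : (starRingEnd ℂ) (conv x y k) =
    conv (fun l => (starRingEnd ℂ) (x l)) (fun l => (starRingEnd ℂ) (y l)) k := by
  unfold conv
  rw [Complex.conj_tsum]
  exact tsum_congr fun l => map_mul _ _ _

/-- two-sided solutions from one-sided ones, for real initial values -/
theorem exists_two {c : ℤ → ℝ} (h : ∀ T : ℝ, 0 < T → ∃ b : ℝ → ℤ → ℂ, (b 0 = fun k => (c k : ℂ)) ∧
      Sol Complex.I (Icc 0 T) b ∧ ∃ K, ∀ t ∈ Icc 0 T, Bd (b t) K) :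
    ∃ B : ℝ → ℤ → ℂ, (B 0 = fun k => (c k : ℂ)) ∧ (∀ T, Sol2 T B) ∧
      ∀ T, ∃ K, ∀ t, |t| ≤ T → Bd (B t) K := by
  choose! b hb0 hbs K hK using h
  set P : ℝ → ℤ → ℂ := fun t => b (t + 1) t with hP
  have hPe : ∀ T, 0 < T → ∀ t ∈ Icc 0 T, P t = b T t := by
    intro T hT t ht
    have ht1 : 0 < t + 1 := by linarith [ht.1]
    exact Sol.uniq re_I (by simp) ((hbs (t + 1) ht1).mono (Icc_subset_Icc le_rfl (by linarith)))
      ((hbs T hT).mono (Icc_subset_Icc le_rfl ht.2)) (K₁ := K (t + 1)) (K₂ := K T)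
      (fun s hs => hK (t + 1) ht1 s ⟨hs.1, by linarith [hs.2]⟩)
      (fun s hs => hK T hT s ⟨hs.1, hs.2.trans ht.2⟩)
      ((hb0 _ ht1).trans (hb0 _ hT).symm) ⟨ht.1, le_rfl⟩
  have hP0 : P 0 = fun k => (c k : ℂ) := by
    rw [hPe 1 one_pos 0 ⟨le_rfl, zero_le_one⟩]
    exact hb0 1 one_pos
  have hPd : ∀ k, ∀ t, 0 ≤ t → HasDerivWithinAt (fun s => P s k)
      (Complex.I * (-((k : ℂ) ^ 2) * P t k + conv (P t) (P t) k)) (Ici 0) t := by
    intro k t ht
    have hT : 0 < t + 1 := by linarith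
    have h1 := hbs (t + 1) hT k t ⟨ht, by linarith⟩
    rw [← hPe (t + 1) hT t ⟨ht, by linarith⟩] at h1
    have h2 : HasDerivWithinAt (fun s => P s k)
        (Complex.I * (-((k : ℂ) ^ 2) * P t k + conv (P t) (P t) k)) (Icc 0 (t + 1)) t :=
      h1.congr (fun s hs => by rw [hPe (t + 1) hT s hs])
        (by rw [hPe (t + 1) hT t ⟨ht, by linarith⟩])
    refine h2.mono_of_mem_nhdsWithin ?_
    rw [mem_nhdsWithin]
    exact ⟨Iio (t + 1), isOpen_Iio, by simp, fun x hx => ⟨hx.2, (mem_Iio.1 hx.1).le⟩⟩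
  set B : ℝ → ℤ → ℂ := fun t k => if 0 ≤ t then P t k else (starRingEnd ℂ) (P (-t) k) with hB
  have hBp : ∀ t, 0 ≤ t → B t = P t := by
    intro t ht; funext k; simp [hB, ht]
  have hBn : ∀ t, t ≤ 0 → B t = fun k => (starRingEnd ℂ) (P (-t) k) := by
    intro t ht; funext k
    rcases ht.lt_or_eq with h | h
    · simp [hB, not_le.2 h]
    · subst h
      simp [hB, hP0]
  refine ⟨B, by rw [hBp 0 le_rfl, hP0], ?_, ?_⟩
  · intro T k t _
    have hpos : ∀ t, 0 ≤ t → HasDerivWithinAt (fun s => B s k)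
        (Complex.I * (-((k : ℂ) ^ 2) * B t k + conv (B t) (B t) k)) (Ici 0) t := by
      intro t ht
      rw [hBp t ht]
      exact (hPd k t ht).congr (fun s hs => by rw [hBp s hs]) (by rw [hBp t ht])
    have hneg : ∀ t, t ≤ 0 → HasDerivWithinAt (fun s => B s k)
        (Complex.I * (-((k : ℂ) ^ 2) * B t k + conv (B t) (B t) k)) (Iic 0) t := by
      intro t ht
      have h1 := hPd k (-t) (by linarith)
      have h2 : HasDerivWithinAt (fun s : ℝ => P (-s) k)
          ((-1 : ℝ) • (Complex.I * (-((k : ℂ) ^ 2) * P (-t) k + conv (P (-t)) (P (-t)) k)))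
          (Iic 0) t :=
        h1.scomp t (hasDerivAt_neg t).hasDerivWithinAt (fun s hs => by
          simp only [mem_Ici, mem_Iic] at hs ⊢; linarith)
      have h3 := (Complex.conjCLE.toContinuousLinearMap.hasFDerivAt.comp_hasDerivWithinAt t h2)
      have h4 : HasDerivWithinAt (fun s => B s k) ((starRingEnd ℂ) ((-1 : ℝ) • (Complex.I *
          (-((k : ℂ) ^ 2) * P (-t) k + conv (P (-t)) (P (-t)) k)))) (Iic 0) t := by
        refine HasDerivWithinAt.congr (f := fun s => (starRingEnd ℂ) (P (-s) k)) h3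
          (fun s hs => by rw [hBn s hs]) (by rw [hBn t ht])
      refine h4.congr_deriv ?_
      have h5 : ∀ z : ℂ, (starRingEnd ℂ) ((-1 : ℝ) • z) = -(starRingEnd ℂ) z := by
        intro z
        simp
      have h6 : (starRingEnd ℂ) ((k : ℂ) ^ 2) = (k : ℂ) ^ 2 := by
        rw [map_pow]
        have : ((k : ℂ)) = ((k : ℝ) : ℂ) := by push_cast; rfl
        rw [this, Complex.conj_ofReal]
      rw [h5, hBn t ht, map_mul, map_add, map_mul, map_neg, Complex.conj_I, conj_conv, h6]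
      ring
    rcases lt_trichotomy t 0 with h | h | h
    · exact (hneg t h.le).hasDerivAt (Iic_mem_nhds h)
    · subst h
      have h1 := (hpos 0 le_rfl).union (hneg 0 le_rfl)
      rw [Ici_union_Iic] at h1
      exact hasDerivWithinAt_univ.1 h1
    · exact (hpos t h.le).hasDerivAt (Ici_mem_nhds h)
  · intro T
    rcases le_or_gt T 0 with hT | hT
    · refine ⟨K 1, fun t ht => ?_⟩
      have : t = 0 := abs_eq_zero.1 (le_antisymm (ht.trans hT) (abs_nonneg _))
      subst this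
      rw [hBp 0 le_rfl, hPe 1 one_pos 0 ⟨le_rfl, zero_le_one⟩]
      exact hK 1 one_pos 0 ⟨le_rfl, zero_le_one⟩
    · refine ⟨K T, fun t ht => ?_⟩
      rcases le_total 0 t with h | h
      · rw [abs_of_nonneg h] at ht
        rw [hBp t h, hPe T hT t ⟨h, ht⟩]
        exact hK T hT t ⟨h, ht⟩
      · rw [abs_of_nonpos h] at ht
        rw [hBn t h]
        refine (hK T hT (-t) ⟨by linarith, ht⟩).of_le fun k => ?_
        rw [RCLike.norm_conj, hPe T hT (-t) ⟨by linarith, ht⟩]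

end Pool.Agent.K3h97.NB
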